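import Mathlib
import Pool.Agent.Work.MP_a5099b_nt.Defs
import Pool.Agent.Work.MP_a5099b_nt.A.Lat
import Pool.Agent.Work.MP_a5099b_nt.J.Defs
import Pool.Agent.Work.MP_a5099b_nt.ZI.LDefs

/-!
# Block RK (Elkies' theorem over fields with a real place): definitions and basic facts (fixed)

The real lattices: `Rl true Y = ℤ iY + ℤ`, `Rl false Y = ℤ (1 + iY)/2 + ℤ` (`Y > 0`).
-/

set_option autoImplicit false

namespace Pool.Agent.SS.RK

open Polynomial UpperHalfPlane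
open Pool.Agent.Work.CM

noncomputable section

/-- The point `iY` (`t = true`) or `(1 + iY)/2` (`t = false`). -/
def pt (t : Bool) (Y : ℝ) : ℂ := if t then Complex.I * Y else (1 + Complex.I * Y) / 2

/-- The lattice generated by `pt t Y` and `1`. -/
def Rl (t : Bool) (Y : ℝ) : Submodule ℤ ℂ := Submodule.span ℤ {pt t Y, 1}

/-- The (real) invariant `j` of `Rl t Y`. -/
def jr (t : Bool) (Y : ℝ) : ℝ := (jL (Rl t Y)).re

/-- The value of `F` at `jr t Y`. -/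
def ev (F : ℤ[X]) (t : Bool) (Y : ℝ) : ℝ := aeval (jr t Y) F

/-- The operators `TT n` for the `n` in the list `w`, applied to `F`. -/
def Tw (w : List ℕ) (F : ℤ[X]) : ℤ[X] := w.foldr TT F

@[simp] theorem Tw_nil (F : ℤ[X]) : Tw [] F = F := rfl

@[simp] theorem Tw_cons (n : ℕ) (w : List ℕ) (F : ℤ[X]) : Tw (n :: w) F = TT n (Tw w F) := rfl

@[simp] theorem pt_true (Y : ℝ) : pt true Y = Complex.I * Y := by simp [pt]

@[simp] theorem pt_false (Y : ℝ) : pt false Y = (1 + Complex.I * Y) / 2 := by simp [pt]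

theorem pt_im {t : Bool} {Y : ℝ} (hY : 0 < Y) : 0 < (pt t Y).im := by
  cases t
  · simp [hY]
  · simp [hY]

theorem Rl_eq {t : Bool} {Y : ℝ} (hY : 0 < Y) : Rl t Y = tauLat ⟨pt t Y, pt_im hY⟩ := rfl

theorem isLat_Rl {t : Bool} {Y : ℝ} (hY : 0 < Y) : IsLat (Rl t Y) := by
  rw [Rl_eq hY]
  exact tauLat_isLat _

theorem mem_Rl {t : Bool} {Y : ℝ} {z : ℂ} : z ∈ Rl t Y ↔ ∃ m n : ℤ, z = m + n * pt t Y := by
  rw [Rl, Submodule.mem_span_pair]
  constructor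
  · rintro ⟨a, b, h⟩
    exact ⟨b, a, by rw [← h]; simp only [zsmul_eq_mul, mul_one]; ring⟩
  · rintro ⟨m, n, h⟩
    exact ⟨n, m, by rw [h]; simp only [zsmul_eq_mul, mul_one]; ring⟩

theorem one_mem_Rl (t : Bool) (Y : ℝ) : (1 : ℂ) ∈ Rl t Y :=
  mem_Rl.2 ⟨1, 0, by simp⟩

theorem pt_mem_Rl (t : Bool) (Y : ℝ) : pt t Y ∈ Rl t Y :=
  mem_Rl.2 ⟨0, 1, by simp⟩

end

end Pool.Agent.SS.RK
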