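import Mathlib
import Pool.Agent.Work.MP_a5099b_nt.R.KDefs

/-!
# Module R/Conj (size S-M): complex conjugation of lattices; the invariant of `Rl t Y` is real

PROOF. `c := starRingEnd ℂ` (also `Complex.conjAe`, a continuous ring isomorphism).
* `jL_conj'`: let `L = P.lattice`, `P : PeriodPair` with periods `ω₁, ω₂` (linearly independent over `ℝ`). Then `c ω₁, c ω₂` are linearly independent over `ℝ` (`Complex.conjAe` / `Complex.conjLIE` is an `ℝ`-linear equivalence: `LinearIndependent.map'`), and `L'` is the lattice of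
`⟨c ω₁, c ω₂, _⟩` (membership in a span of a pair: `Submodule.mem_span_pair`; `c` of an integer combination is the combination of the conjugates). So `IsLat L'`. `e : L ≃ L'`, `z ↦ c z`. `∑' l : L', (l ^ 4)⁻¹ = ∑' l : L, ((c l) ^ 4)⁻¹` (`Equiv.tsum_eq`) `= ∑' l : L, c ((l ^ 4)⁻¹) = c (∑' ...)` (`Complex.conj_tsum`, or
`Complex.conjCLE.map_tsum`; no summability needed for a continuous linear equivalence). So `g2 L' = c (g2 L)`, `g3 L' = c (g3 L)`, and `jL L' = c (jL L)` by the definition of `jL` (`map_div₀, map_mul, map_sub, map_pow, map_ofNat`).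
* `jL_Rl`: `L = L' = Rl t Y`: `z ∈ Rl t Y ↔ c z ∈ Rl t Y`: if `z = m + n pt` then for `t = true`: `c z = m - n pt`; for `t = false`: `c ((1 + iY)/2) = 1 - (1 + iY)/2`, `c z = (m + n) - n pt`. So `jL (Rl t Y) = c (jL (Rl t Y))`, so it is real (`Complex.conj_eq_iff_real` / `Complex.conj_eq_iff_re`).
* `aeval_jL`: `aeval (jL (Rl t Y)) F = aeval ((jr t Y : ℝ) : ℂ) F = ((ev F t Y : ℝ) : ℂ)` (`Polynomial.aeval_algebraMap_apply` for `ℝ → ℂ` or `aeval_def, eval₂` and `map_eval₂`/`hom_eval₂`).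
-/

set_option autoImplicit false

namespace Pool.Agent.SS.RK

open Polynomial UpperHalfPlane
open Pool.Agent.Work.CM

theorem jL_conj' {L L' : Submodule ℤ ℂ} (hL : IsLat L)
    (h : ∀ z : ℂ, z ∈ L' ↔ starRingEnd ℂ z ∈ L) :
    IsLat L' ∧ jL L' = starRingEnd ℂ (jL L) := by
  obtain ⟨P, rfl⟩ := hL
  constructor
  · have hind : LinearIndependent ℝ ![starRingEnd ℂ P.ω₁, starRingEnd ℂ P.ω₂] := by
      rw [LinearIndependent.pair_iff]
      intro a b hab
      have h1 := LinearIndependent.pair_iff.mp P.indep a b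
      apply h1
      have h2 := congrArg (starRingEnd ℂ) hab
      simpa [Complex.real_smul] using h2
    refine ⟨⟨starRingEnd ℂ P.ω₁, starRingEnd ℂ P.ω₂, hind⟩, ?_⟩
    ext z
    rw [PeriodPair.mem_lattice, h, PeriodPair.mem_lattice]
    refine exists_congr fun m => exists_congr fun n => ?_
    constructor
    · intro e
      rw [← e]
      simp
    · intro e
      have h2 := congrArg (starRingEnd ℂ) e
      simpa using h2
  · have e : ∀ k : ℕ, ∑' l : L', ((l : ℂ) ^ k)⁻¹ =
        starRingEnd ℂ (∑' l : P.lattice, ((l : ℂ) ^ k)⁻¹) := by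
      intro k
      let f : P.lattice ≃ L' :=
        { toFun := fun z => ⟨starRingEnd ℂ z, (h _).mpr (by rw [Complex.conj_conj]; exact z.2)⟩
          invFun := fun z => ⟨starRingEnd ℂ z, (h _).mp z.2⟩
          left_inv := fun z => Subtype.ext (Complex.conj_conj _)
          right_inv := fun z => Subtype.ext (Complex.conj_conj _) }
      rw [← f.tsum_eq, Complex.conj_tsum]
      refine tsum_congr fun z => ?_
      show ((starRingEnd ℂ (z : ℂ)) ^ k)⁻¹ = starRingEnd ℂ (((z : ℂ) ^ k)⁻¹)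
      rw [map_inv₀, map_pow]
    have e2 : g2 L' = starRingEnd ℂ (g2 P.lattice) := by
      unfold g2
      rw [e, map_mul, map_ofNat]
    have e3 : g3 L' = starRingEnd ℂ (g3 P.lattice) := by
      unfold g3
      rw [e, map_mul, map_ofNat]
    unfold jL
    rw [e2, e3]
    simp only [map_div₀, map_mul, map_sub, map_pow, map_ofNat]

theorem conj_mem_Rl {t : Bool} {Y : ℝ} {z : ℂ} (hz : z ∈ Rl t Y) :
    starRingEnd ℂ z ∈ Rl t Y := by
  obtain ⟨m, n, rfl⟩ := mem_Rl.mp hz
  cases t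
  · refine mem_Rl.mpr ⟨m + n, -n, ?_⟩
    have h2 : starRingEnd ℂ (2 : ℂ) = 2 := map_ofNat _ _
    simp only [pt_false, map_add, map_mul, map_div₀, map_one, Complex.conj_I, Complex.conj_ofReal,
      map_intCast, h2]
    push_cast
    ring
  · refine mem_Rl.mpr ⟨m, -n, ?_⟩
    simp

theorem jL_Rl {t : Bool} {Y : ℝ} (hY : 0 < Y) : jL (Rl t Y) = (jr t Y : ℂ) := by
  have h1 : jL (Rl t Y) = starRingEnd ℂ (jL (Rl t Y)) :=
    (jL_conj' (isLat_Rl hY) fun z => ⟨conj_mem_Rl, fun hz => by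
      have h2 := conj_mem_Rl hz
      rwa [Complex.conj_conj] at h2⟩).2
  exact (Complex.conj_eq_iff_re.mp h1.symm).symm

theorem aeval_jL {t : Bool} {Y : ℝ} (hY : 0 < Y) (F : ℤ[X]) :
    aeval (jL (Rl t Y)) F = ((ev F t Y : ℝ) : ℂ) := by
  rw [jL_Rl hY, ev]
  exact Polynomial.aeval_algebraMap_apply ℂ (jr t Y) F

end Pool.Agent.SS.RK
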