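import Mathlib
import Pool.Agent.Work.MP_a5099b_nt.R.KDefs

/-!
# Module R/Sym (size S): the symmetry `Y ↦ 1 / Y`

PROOF. `jL_smul` (A/Lat): `jL (m • L) = jL L`, `m ≠ 0`.
* `jr_inv`, `t = true`: `(iY) • Rl true (1/Y) = Rl true Y`: `iY * (i / Y) = -1`, `iY * 1 = iY`. `t = false`: `(iY) • Rl false (1/Y)` is generated by `iY (1 + i/Y)/2 = (iY - 1)/2 = pt - 1` and `iY = 2 pt - 1`; so it is contained in `Rl false Y` and contains `1 = 2 (pt - 1) - iY + ... `: precisely `iY - 2 (iY - 1)/2 = 1` and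
`pt = (iY - 1)/2 + 1`. Equality of submodules: `le_antisymm`, `mem_Rl`, `Submodule.mem_smul_pointwise_iff_exists` (or the private lemma `lat_smul_tau` of A/Lat).
* `jr_one`: `(1 - i) • Rl false 1 = Rl true 1`: `(1 - i)(1 + i)/2 = 1`, `(1 - i) * 1 = 1 - i`; `i = 1 - (1 - i)`.
-/

set_option autoImplicit false

namespace Pool.Agent.SS.RK

open Polynomial UpperHalfPlane
open Pool.Agent.Work.CM
open scoped Pointwise

private theorem smul_Rl_eq {t t' : Bool} {Y Y' : ℝ} {m : ℂ} {a b c d e f g h : ℤ}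
    (h1 : m * pt t Y = a + b * pt t' Y') (h2 : m = c + d * pt t' Y')
    (h3 : (1 : ℂ) = e * (m * pt t Y) + f * m) (h4 : pt t' Y' = g * (m * pt t Y) + h * m) :
    m • Rl t Y = Rl t' Y' := by
  apply le_antisymm
  · intro z hz
    rw [Submodule.mem_smul_pointwise_iff_exists] at hz
    obtain ⟨y, hy, rfl⟩ := hz
    obtain ⟨p, q, rfl⟩ := mem_Rl.1 hy
    refine mem_Rl.2 ⟨p * c + q * a, p * d + q * b, ?_⟩
    have : m • ((p : ℂ) + q * pt t Y) = p * m + q * (m * pt t Y) := by
      rw [smul_eq_mul]; ring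
    rw [this, h1]
    nth_rewrite 1 [h2]
    push_cast
    ring
  · intro z hz
    obtain ⟨p, q, rfl⟩ := mem_Rl.1 hz
    rw [Submodule.mem_smul_pointwise_iff_exists]
    refine ⟨((p * f + q * h : ℤ) : ℂ) + ((p * e + q * g : ℤ) : ℂ) * pt t Y,
      mem_Rl.2 ⟨_, _, rfl⟩, ?_⟩
    rw [smul_eq_mul, h4]
    have hp : (p : ℂ) = p * (e * (m * pt t Y) + f * m) := by rw [← h3, mul_one]
    nth_rewrite 1 [hp]
    push_cast
    ring

theorem jr_inv {t : Bool} {Y : ℝ} (hY : 0 < Y) : jr t (1 / Y) = jr t Y := by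
  have hY0 : (Y : ℂ) ≠ 0 := by exact_mod_cast hY.ne'
  have hm : Complex.I * (Y : ℂ) ≠ 0 := mul_ne_zero Complex.I_ne_zero hY0
  have hI : Complex.I * Complex.I = -1 := Complex.I_mul_I
  have key : (Complex.I * (Y : ℂ)) • Rl t (1 / Y) = Rl t Y := by
    cases t
    · refine smul_Rl_eq (a := -1) (b := 1) (c := -1) (d := 2) (e := -2) (f := 1) (g := -1)
        (h := 1) ?_ ?_ ?_ ?_
      all_goals
        simp only [pt_false]
        push_cast
        field_simp
        ring_nf
        try simp only [Complex.I_sq]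
        try ring
    · refine smul_Rl_eq (a := -1) (b := 0) (c := 0) (d := 1) (e := -1) (f := 0) (g := 0)
        (h := 1) ?_ ?_ ?_ ?_
      all_goals
        simp only [pt_true]
        push_cast
        field_simp
        ring_nf
        try simp only [Complex.I_sq]
        try ring
  rw [jr, jr, ← key, jL_smul (isLat_Rl (by positivity)) hm]

theorem jr_one : jr true 1 = jr false 1 := by
  have hm : (1 : ℂ) - Complex.I ≠ 0 := by
    intro h
    have := congrArg Complex.im h
    simp at this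
  have key : ((1 : ℂ) - Complex.I) • Rl false 1 = Rl true 1 := by
    refine smul_Rl_eq (a := 1) (b := 0) (c := 1) (d := -1) (e := 1) (f := 0) (g := 1)
      (h := -1) ?_ ?_ ?_ ?_
    all_goals
      simp only [pt_true, pt_false]
      push_cast
      ring_nf
      try simp only [Complex.I_sq]
      try ring
  rw [jr, jr, ← key, jL_smul (isLat_Rl (by norm_num)) hm]

end Pool.Agent.SS.RK
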