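import Mathlib
import Pool.Agent.Work.MP_a5099b_nt.R.Conj
import Pool.Agent.Work.MP_a5099b_nt.R.Sym

/-!
# Module R/Cls (size M): every real number is the invariant of a lattice `Rl t Y` with `Y ≥ 1`

PROOF (`c` = complex conjugation). `exists_jL` (A/Lat): a lattice `L` with `jL L = x`. Let `L' = c L` (`Submodule.map` of the additive map `c`, or the span of the conjugate periods): by `jL_conj'` `L'` is a lattice and `jL L' = c x = x`, so (`exists_smul_of_jL`) `L' = m • L`, `m ≠ 0`; that is `c z ∈ L' = m • L` for `z ∈ L`, i.e.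
(*) `z ∈ L ↔ c z / m ∈ L`.
(1) `|m| = 1`: applying (*) twice: `z ∈ L ↔ c (c z / m) / m = z / |m|² ∈ L`. So `L` is stable under multiplication by `r = |m|²` and by `r⁻¹`. If `r ≠ 1`, take (replacing `r` by `r⁻¹`) `r < 1` and `z ∈ L`, `z ≠ 0`: `r ^ n z → 0` are infinitely many nonzero elements of `L` in a bounded set; contradiction with discreteness
(for example: `L` is a `ℤ`-lattice, `IsZLattice`/`DiscreteTopology` of `PeriodPair.lattice`; or elementary: there is `δ > 0` with `‖z‖ ≥ δ` for all nonzero `z ∈ L`; see H/Cov.lean and CM/Bas.lean, CM/Disc.lean for such facts; or with the basis `L = a • tauLat τ`: `‖(u τ + v)‖ ≥ min(τ.im, 1)`-type bound: if `u ≠ 0` then the imaginary part is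
at least `τ.im` in absolute value, if `u = 0` then `‖v‖ ≥ 1`).
(2) choose `d` with `d² = m` (so `|d| = 1`, `c d = d⁻¹`), `M := d • L`. For `z = d w`, `w ∈ L`: `c z = d⁻¹ c w = d⁻¹ m (c w / m) = d (c w / m) ∈ M`. So `M` is stable under `c`; `jL M = x` (`jL_smul`).
(3) `M ∩ ℝ ≠ 0` and `M ∩ iℝ ≠ 0`: for `z ∈ M`, `z + c z = 2 re z` and `z - c z = 2 i im z` are in `M`; `M` contains (being a lattice, two elements linearly independent over `ℝ`) an element with `re ≠ 0` and one with `im ≠ 0`. By discreteness there is a least positive real `a ∈ M` and a least `b > 0` with `ib ∈ M`, and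
`M ∩ ℝ = ℤ a`, `M ∩ iℝ = ℤ ib` (division with remainder; or Mathlib: `AddSubgroup` of `ℝ` is cyclic or dense: `AddSubgroup.dense_or_cyclic`, with the discreteness).
(4) for `z ∈ M`: `2 z = (z + c z) + (z - c z) = u a + v ib` with integers `u, v`. If `u` is even then `z - (u/2) a = v ib / 2 ∈ M ∩ iℝ = ℤ ib`, so `v` is even; likewise if `v` is even then `u` is even. Case A: for all `z ∈ M` `u, v` are even: `M = ℤ a + ℤ ib = a • Rl true (b/a)`. Case B: some `z ∈ M` has `u, v` both odd: then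
`(a + ib)/2 ∈ M` (subtract an element of `ℤ a + ℤ ib`), and every `z ∈ M` is in `ℤ a + ℤ (a + ib)/2` (if `u, v` are odd subtract `(a + ib)/2`; `ib = 2 (a + ib)/2 - a`): `M = a • Rl false (b/a)`.
(5) so `x = jL (Rl t Y) = jr t Y` (`jL_smul`, `jL_Rl`), `Y = b/a > 0`. If `Y < 1` replace it by `1/Y` (`jr_inv`).
-/

set_option autoImplicit false

namespace Pool.Agent.SS.RK

open Polynomial UpperHalfPlane
open Pool.Agent.Work.CM
open scoped Pointwise

private theorem cyc {H : AddSubgroup ℝ} {δ : ℝ} (hδ : 0 < δ) (hd : ∀ r ∈ H, r ≠ 0 → δ ≤ |r|)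
    (hn : ∃ r ∈ H, r ≠ 0) : ∃ a : ℝ, 0 < a ∧ ∀ r : ℝ, r ∈ H ↔ ∃ n : ℤ, r = n * a := by
  obtain ⟨b, hb⟩ := AddSubgroup.cyclic_of_isolated_zero (H := H) hδ (by
    rw [Set.disjoint_left]
    rintro r hr ⟨h1, h2⟩
    have := hd r hr h1.ne'
    rw [abs_of_pos h1] at this
    linarith)
  have hmem : ∀ r : ℝ, r ∈ H ↔ ∃ n : ℤ, r = n * b := by
    intro r
    rw [hb, AddSubgroup.mem_closure_singleton]
    constructor
    · rintro ⟨n, rfl⟩
      exact ⟨n, by rw [zsmul_eq_mul]⟩
    · rintro ⟨n, rfl⟩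
      exact ⟨n, by rw [zsmul_eq_mul]⟩
  have hb0 : b ≠ 0 := by
    rintro rfl
    obtain ⟨r, hr, hr0⟩ := hn
    obtain ⟨n, hn⟩ := (hmem r).1 hr
    exact hr0 (by rw [hn, mul_zero])
  rcases lt_or_gt_of_ne hb0 with h | h
  · refine ⟨-b, by linarith, fun r => ?_⟩
    rw [hmem]
    constructor
    · rintro ⟨n, rfl⟩
      exact ⟨-n, by push_cast; ring⟩
    · rintro ⟨n, rfl⟩
      exact ⟨-n, by push_cast; ring⟩
  · exact ⟨b, h, hmem⟩

private theorem class_M {M : Submodule ℤ ℂ} {δ : ℝ} (hδ : 0 < δ)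
    (hd : ∀ z ∈ M, z ≠ 0 → δ ≤ ‖z‖) (hc : ∀ z ∈ M, starRingEnd ℂ z ∈ M)
    (hre : ∃ z ∈ M, z.re ≠ 0) (him : ∃ z ∈ M, z.im ≠ 0) :
    ∃ (t : Bool) (a Y : ℝ), 0 < a ∧ 0 < Y ∧ M = (a : ℂ) • Rl t Y := by
  -- twice the real part and twice the imaginary part
  have hre2 : ∀ z ∈ M, ((2 * z.re : ℝ) : ℂ) ∈ M := by
    intro z hz
    have h := M.add_mem hz (hc z hz)
    rwa [Complex.add_conj] at h
  have him2 : ∀ z ∈ M, Complex.I * ((2 * z.im : ℝ) : ℂ) ∈ M := by
    intro z hz
    have h := M.sub_mem hz (hc z hz)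
    rw [Complex.sub_conj] at h
    rwa [mul_comm]
  obtain ⟨a, ha, hA⟩ := cyc (H := M.toAddSubgroup.comap (Complex.ofRealHom.toAddMonoidHom)) hδ
    (by
      intro r hr hr0
      have h := hd (r : ℂ) hr (by exact_mod_cast hr0)
      rwa [Complex.norm_real, Real.norm_eq_abs] at h)
    (by
      obtain ⟨z, hz, hz0⟩ := hre
      exact ⟨2 * z.re, hre2 z hz, mul_ne_zero two_ne_zero hz0⟩)
  obtain ⟨b, hb, hB⟩ := cyc (H := M.toAddSubgroup.comap
      ((AddMonoidHom.mulLeft Complex.I).comp Complex.ofRealHom.toAddMonoidHom)) hδ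
    (by
      intro r hr hr0
      have h := hd (Complex.I * (r : ℂ)) hr (mul_ne_zero Complex.I_ne_zero (by exact_mod_cast hr0))
      rwa [norm_mul, Complex.norm_I, one_mul, Complex.norm_real, Real.norm_eq_abs] at h)
    (by
      obtain ⟨z, hz, hz0⟩ := him
      exact ⟨2 * z.im, him2 z hz, mul_ne_zero two_ne_zero hz0⟩)
  have hA' : ∀ r : ℝ, (r : ℂ) ∈ M ↔ ∃ n : ℤ, r = n * a := hA
  have hB' : ∀ r : ℝ, Complex.I * (r : ℂ) ∈ M ↔ ∃ n : ℤ, r = n * b := hB
  have hac : (a : ℂ) ≠ 0 := by exact_mod_cast ha.ne'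
  have haM : (a : ℂ) ∈ M := (hA' a).2 ⟨1, by simp⟩
  have hbM : Complex.I * (b : ℂ) ∈ M := (hB' b).2 ⟨1, by simp⟩
  have hdec : ∀ z : ℂ, z = (z.re : ℂ) + Complex.I * (z.im : ℂ) := by
    intro z
    conv_lhs => rw [← Complex.re_add_im z]
    ring
  have hzs : ∀ (n : ℤ) (z : ℂ), z ∈ M → (n : ℂ) * z ∈ M := by
    intro n z hz
    have := M.smul_mem n hz
    rwa [zsmul_eq_mul] at this
  by_cases hcase : ∀ z ∈ M, (z.re : ℂ) ∈ M
  · refine ⟨true, a, b / a, ha, div_pos hb ha, ?_⟩
    ext z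
    rw [Submodule.mem_smul_pointwise_iff_exists]
    constructor
    · intro hz
      have h1 := hcase z hz
      obtain ⟨k, hk⟩ := (hA' _).1 h1
      have h2 : Complex.I * (z.im : ℂ) ∈ M := by
        have := M.sub_mem hz h1
        rwa [show z - (z.re : ℂ) = Complex.I * (z.im : ℂ) by
          conv_lhs => rw [hdec z]
          simp] at this
      obtain ⟨n, hn⟩ := (hB' _).1 h2
      refine ⟨(k : ℂ) + n * pt true (b / a), mem_Rl.2 ⟨k, n, rfl⟩, ?_⟩
      rw [smul_eq_mul, pt_true]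
      conv_rhs => rw [hdec z, hk, hn]
      push_cast
      field_simp
    · rintro ⟨w, hw, rfl⟩
      obtain ⟨k, n, rfl⟩ := mem_Rl.1 hw
      have h := M.add_mem (hzs k _ haM) (hzs n _ hbM)
      rw [smul_eq_mul, pt_true]
      convert h using 1
      push_cast
      field_simp
  · push Not at hcase
    obtain ⟨z0, hz0, hz0r⟩ := hcase
    -- parity
    have hpar : ∀ z ∈ M, ∃ u v : ℤ, 2 * z.re = u * a ∧ 2 * z.im = v * b := by
      intro z hz
      obtain ⟨u, hu⟩ := (hA' _).1 (hre2 z hz)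
      obtain ⟨v, hv⟩ := (hB' _).1 (him2 z hz)
      exact ⟨u, v, hu, hv⟩
    have hw0 : ((a : ℂ) + Complex.I * b) / 2 ∈ M := by
      obtain ⟨u, v, hu, hv⟩ := hpar z0 hz0
      rcases Int.even_or_odd u with ⟨k, hk⟩ | ⟨k, hk⟩
      · exfalso
        apply hz0r
        rw [hA']
        refine ⟨k, ?_⟩
        rw [hk] at hu
        push_cast at hu
        linarith
      rcases Int.even_or_odd v with ⟨l, hl⟩ | ⟨l, hl⟩
      · exfalso
        apply hz0r
        have h1 : Complex.I * (z0.im : ℂ) ∈ M := by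
          rw [hB']
          refine ⟨l, ?_⟩
          rw [hl] at hv
          push_cast at hv
          linarith
        have := M.sub_mem hz0 h1
        rwa [show z0 - Complex.I * (z0.im : ℂ) = (z0.re : ℂ) by
          conv_lhs => rw [hdec z0]
          simp] at this
      · have h := M.sub_mem (M.sub_mem hz0 (hzs k _ haM)) (hzs l _ hbM)
        convert h using 1
        rw [hk] at hu
        rw [hl] at hv
        push_cast at hu hv
        have h1 : z0.re = (2 * k + 1) * a / 2 := by linarith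
        have h2 : z0.im = (2 * l + 1) * b / 2 := by linarith
        rw [hdec z0, h1, h2]
        push_cast
        ring
    refine ⟨false, a, b / a, ha, div_pos hb ha, ?_⟩
    ext z
    rw [Submodule.mem_smul_pointwise_iff_exists]
    constructor
    · intro hz
      obtain ⟨u, v, hu, hv⟩ := hpar z hz
      rcases Int.even_or_odd u with ⟨k, hk⟩ | ⟨k, hk⟩
      · have h1 : (z.re : ℂ) ∈ M := by
          rw [hA']
          refine ⟨k, ?_⟩
          rw [hk] at hu
          push_cast at hu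
          linarith
        have h2 : Complex.I * (z.im : ℂ) ∈ M := by
          have := M.sub_mem hz h1
          rwa [show z - (z.re : ℂ) = Complex.I * (z.im : ℂ) by
            conv_lhs => rw [hdec z]
            simp] at this
        obtain ⟨k', hk'⟩ := (hA' _).1 h1
        obtain ⟨l, hl⟩ := (hB' _).1 h2
        refine ⟨((k' - l : ℤ) : ℂ) + ((2 * l : ℤ) : ℂ) * pt false (b / a),
          mem_Rl.2 ⟨_, _, rfl⟩, ?_⟩
        rw [smul_eq_mul, pt_false]
        conv_rhs => rw [hdec z, hk', hl]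
        push_cast
        field_simp
        ring
      · have h0 := M.sub_mem hz hw0
        have hre1 : (z - ((a : ℂ) + Complex.I * b) / 2).re = k * a := by
          rw [hk] at hu
          push_cast at hu
          simp
          linarith
        have h1 : ((z - ((a : ℂ) + Complex.I * b) / 2).re : ℂ) ∈ M := by
          rw [hA']
          exact ⟨k, hre1⟩
        have h2 : Complex.I * ((z - ((a : ℂ) + Complex.I * b) / 2).im : ℂ) ∈ M := by
          have := M.sub_mem h0 h1
          rwa [show (z - ((a : ℂ) + Complex.I * b) / 2) -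
            ((z - ((a : ℂ) + Complex.I * b) / 2).re : ℂ) =
            Complex.I * ((z - ((a : ℂ) + Complex.I * b) / 2).im : ℂ) by
            conv_lhs => rw [hdec (z - ((a : ℂ) + Complex.I * b) / 2)]
            simp] at this
        obtain ⟨l, hl⟩ := (hB' _).1 h2
        refine ⟨((k - l : ℤ) : ℂ) + ((2 * l + 1 : ℤ) : ℂ) * pt false (b / a),
          mem_Rl.2 ⟨_, _, rfl⟩, ?_⟩
        rw [smul_eq_mul, pt_false]
        have hz' : z = (z - ((a : ℂ) + Complex.I * b) / 2) + ((a : ℂ) + Complex.I * b) / 2 := by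
          ring
        rw [hz', hdec (z - ((a : ℂ) + Complex.I * b) / 2), hre1, hl]
        push_cast
        field_simp
        ring
    · rintro ⟨w, hw, rfl⟩
      obtain ⟨k, n, rfl⟩ := mem_Rl.1 hw
      have h := M.add_mem (hzs k _ haM) (hzs n _ hw0)
      rw [smul_eq_mul, pt_false]
      convert h using 1
      push_cast
      field_simp

private theorem tau_disc (τ : ℍ) : ∃ δ : ℝ, 0 < δ ∧ ∀ z ∈ tauLat τ, z ≠ 0 → δ ≤ ‖z‖ := by
  refine ⟨min τ.im 1, lt_min τ.im_pos one_pos, ?_⟩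
  intro z hz hz0
  rw [tauLat, Submodule.mem_span_pair] at hz
  obtain ⟨u, v, rfl⟩ := hz
  by_cases hu : u = 0
  · subst hu
    have hv : v ≠ 0 := by
      rintro rfl
      simp at hz0
    have : ‖(0 : ℤ) • (τ : ℂ) + v • (1 : ℂ)‖ = |(v : ℝ)| := by
      rw [zero_smul, zero_add, zsmul_eq_mul, mul_one]
      exact Complex.norm_intCast v
    rw [this]
    refine (min_le_right _ _).trans ?_
    have : (1 : ℤ) ≤ |v| := Int.one_le_abs hv
    exact_mod_cast this
  · refine (min_le_left _ _).trans ?_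
    have h1 : (u • (τ : ℂ) + v • (1 : ℂ)).im = u * τ.im := by simp
    have h2 := Complex.abs_im_le_norm (u • (τ : ℂ) + v • (1 : ℂ))
    rw [h1, abs_mul, abs_of_pos τ.im_pos] at h2
    have h3 : (1 : ℝ) ≤ |(u : ℝ)| := by exact_mod_cast Int.one_le_abs hu
    nlinarith [τ.im_pos]

theorem exists_Rl (x : ℝ) : ∃ (t : Bool) (Y : ℝ), 1 ≤ Y ∧ jr t Y = x := by
  obtain ⟨τ, hτ⟩ := exists_jL (x : ℂ)
  have hL := tauLat_isLat τ
  set L := tauLat τ with hLdef
  set L' : Submodule ℤ ℂ := L.comap ((starRingEnd ℂ).toAddMonoidHom.toIntLinearMap) with hL'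
  have hmem' : ∀ z : ℂ, z ∈ L' ↔ starRingEnd ℂ z ∈ L := fun z => Iff.rfl
  obtain ⟨hlat', hj'⟩ := jL_conj' hL hmem'
  obtain ⟨m, hm, hLm⟩ := exists_smul_of_jL hL hlat' (by rw [hj', hτ, Complex.conj_ofReal])
  have hmem : ∀ z : ℂ, starRingEnd ℂ z ∈ L ↔ ∃ w ∈ L, m * w = z := by
    intro z
    rw [← hmem', hLm, Submodule.mem_smul_pointwise_iff_exists]
    rfl
  -- the two half steps
  have hs1 : ∀ w ∈ L, starRingEnd ℂ m * starRingEnd ℂ w ∈ L := by
    intro w hw
    have := (hmem (m * w)).2 ⟨w, hw, rfl⟩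
    rwa [map_mul] at this
  have hs2 : ∀ z ∈ L, starRingEnd ℂ z / m ∈ L := by
    intro z hz
    obtain ⟨w, hw, hwz⟩ := (hmem (starRingEnd ℂ z)).1 (by rwa [Complex.conj_conj])
    rw [← hwz, mul_div_cancel_left₀ _ hm]
    exact hw
  set r : ℝ := ‖m‖ ^ 2 with hr
  have hr0 : 0 < r := by positivity
  have hmm : starRingEnd ℂ m * m = (r : ℂ) := by
    rw [mul_comm, Complex.mul_conj, Complex.normSq_eq_norm_sq]
  have hs3 : ∀ w ∈ L, (r : ℂ) * w ∈ L := by
    intro w hw
    have := hs1 _ (hs1 w hw)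
    rw [map_mul, Complex.conj_conj, Complex.conj_conj, ← mul_assoc, hmm] at this
    exact this
  have hs4 : ∀ w ∈ L, ((r⁻¹ : ℝ) : ℂ) * w ∈ L := by
    intro w hw
    have := hs2 _ (hs2 w hw)
    rw [map_div₀, Complex.conj_conj, div_div, hmm, div_eq_inv_mul] at this
    rwa [Complex.ofReal_inv]
  obtain ⟨δ, hδ, hdisc⟩ := tau_disc τ
  have h1L : (1 : ℂ) ∈ L := Submodule.subset_span (by simp)
  have hτL : (τ : ℂ) ∈ L := Submodule.subset_span (by simp)
  have hpow : ∀ s : ℝ, 0 < s → (∀ w ∈ L, (s : ℂ) * w ∈ L) → 1 ≤ s := by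
    intro s hs hst
    by_contra hlt
    push Not at hlt
    have hn : ∀ n : ℕ, ((s ^ n : ℝ) : ℂ) ∈ L := by
      intro n
      induction n with
      | zero => simpa using h1L
      | succ n ih =>
        have := hst _ ih
        rw [pow_succ']
        push_cast at this ⊢
        exact this
    obtain ⟨n, hn'⟩ := exists_pow_lt_of_lt_one hδ hlt
    have h1 := hdisc _ (hn n) (by
      have : s ^ n ≠ 0 := (pow_pos hs n).ne'
      exact_mod_cast this)
    rw [Complex.norm_real, Real.norm_eq_abs, abs_of_pos (pow_pos hs n)] at h1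
    linarith
  have hr1 : r = 1 := by
    refine le_antisymm ?_ (hpow r hr0 hs3)
    have := hpow r⁻¹ (inv_pos.2 hr0) hs4
    exact (one_le_inv₀ hr0).1 this
  have hmn : ‖m‖ = 1 := by
    have h1 : ‖m‖ ^ 2 = 1 := hr1
    have h2 : 0 ≤ ‖m‖ := norm_nonneg m
    nlinarith
  obtain ⟨d, hd⟩ := IsAlgClosed.exists_pow_nat_eq m (n := 2) (by norm_num)
  have hdn : ‖d‖ = 1 := by
    have h1 : ‖d‖ ^ 2 = 1 := by rw [← norm_pow, hd, hmn]
    have h2 : 0 ≤ ‖d‖ := norm_nonneg d
    nlinarith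
  have hd0 : d ≠ 0 := by
    intro h
    rw [h, norm_zero] at hdn
    exact zero_ne_one hdn
  have hdc : d * starRingEnd ℂ d = 1 := by
    rw [Complex.mul_conj, Complex.normSq_eq_norm_sq, hdn]
    simp
  have hMmem : ∀ z : ℂ, z ∈ d • L ↔ ∃ w ∈ L, d * w = z := by
    intro z
    rw [Submodule.mem_smul_pointwise_iff_exists]
    rfl
  have hdτ : d ∈ d • L := (hMmem d).2 ⟨1, h1L, mul_one d⟩
  have hdτ' : d * τ ∈ d • L := (hMmem _).2 ⟨τ, hτL, rfl⟩
  have hτim : 0 < (τ : ℂ).im := τ.im_pos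
  have hdn2 : d.re ^ 2 + d.im ^ 2 = 1 := by
    have := Complex.sq_norm d
    rw [hdn, Complex.normSq_apply] at this
    linarith
  obtain ⟨t, a, Y, ha, hY, hM⟩ := class_M (M := d • L) hδ
    (by
      intro z hz hz0
      obtain ⟨w, hw, rfl⟩ := (hMmem z).1 hz
      rw [norm_mul, hdn, one_mul]
      exact hdisc w hw (right_ne_zero_of_mul hz0))
    (by
      intro z hz
      obtain ⟨w, hw, rfl⟩ := (hMmem z).1 hz
      refine (hMmem _).2 ⟨_, hs2 w hw, ?_⟩
      rw [map_mul, ← hd]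
      have : starRingEnd ℂ d = d⁻¹ := eq_inv_of_mul_eq_one_right hdc
      rw [this]
      field_simp)
    (by
      by_contra hno
      push Not at hno
      have h1 := hno d hdτ
      have h2 := hno _ hdτ'
      rw [Complex.mul_re, h1] at h2
      have h3 : d.im ≠ 0 := by
        intro h
        rw [h1, h] at hdn2
        norm_num at hdn2
      have h4 : d.im * (τ : ℂ).im = 0 := by linarith
      rcases mul_eq_zero.1 h4 with h5 | h5
      · exact h3 h5
      · exact hτim.ne' h5)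
    (by
      by_contra hno
      push Not at hno
      have h1 := hno d hdτ
      have h2 := hno _ hdτ'
      rw [Complex.mul_im, h1] at h2
      have h3 : d.re ≠ 0 := by
        intro h
        rw [h1, h] at hdn2
        norm_num at hdn2
      have h4 : d.re * (τ : ℂ).im = 0 := by linarith
      rcases mul_eq_zero.1 h4 with h5 | h5
      · exact h3 h5
      · exact hτim.ne' h5)
  have hj : ((jr t Y : ℝ) : ℂ) = (x : ℂ) := by
    rw [← jL_Rl hY, ← jL_smul (isLat_Rl hY) (m := (a : ℂ)) (by exact_mod_cast ha.ne'), ← hM,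
      jL_smul hL hd0, hτ]
  have hj' : jr t Y = x := by exact_mod_cast hj
  by_cases hY1 : 1 ≤ Y
  · exact ⟨t, Y, hY1, hj'⟩
  · push Not at hY1
    refine ⟨t, 1 / Y, ?_, ?_⟩
    · rw [le_div_iff₀ hY]
      linarith
    · rw [jr_inv hY, hj']

end Pool.Agent.SS.RK
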