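import Mathlib

/-!
# Module R/Dens (size M): the products `3^a 5^b` are dense in the multiplicative sense

PROOF. `w = replicate a 3 ++ replicate b 5`, `w.prod = 3^a 5^b`. Let `ε = d/c > 1`. (1) There are `p, r ≥ 1` with `1 < 3^p / 5^r < ε` or `1 < 5^r / 3^p < ε`: `log 3 / log 5` is irrational (`3^m = 5^n` with naturals implies `m = n = 0`), so (Dirichlet approximation `Real.exists_int_int_abs_mul_sub_le`, or `AddSubgroup.dense_or_cyclic` for the subgroup
generated by `log 3, log 5`) there are `p, r ≥ 1` with `0 < |p log 3 - r log 5| < log ε`.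
(2) Say `ρ := 3^p / 5^r ∈ (1, ε)` (the other case is the same with 3 and 5 exchanged). For `M` the numbers `x_i := 3^(p i) 5^(r (M - i)) = 5^(r M) ρ^i`, `0 ≤ i ≤ M`, start at `5^(r M)`, have ratio `ρ < ε` and end at `3^(p M) = 5^(r M) ρ^M`. If `ρ^M ≥ 5^r` (true for `M ≥ M₀`) they pass over the whole interval `[5^(r M), 5^(r (M + 1))]`.
(3) Let `R` be so large that `c R ≥ 5^(r M₀)` (and `> 0`), let `M ≥ M₀` with `5^(r M) ≤ c R < 5^(r (M+1))` (`exists_nat_pow_near`). Let `i` be the least index with `x_i > c R` (exists because `x_M ≥ 5^(r(M+1)) > c R`); `i ≥ 1` as `x_0 ≤ c R`; `x_i = ρ x_{i-1} ≤ ρ c R < ε c R = d R`.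
-/

set_option autoImplicit false

namespace Pool.Agent.SS.RK

private theorem semi {A B δ : ℝ} (hB : 0 < B) (h1 : 0 < A - B) (h2 : A - B < δ) :
    ∃ y₀ : ℝ, ∀ y : ℝ, y₀ ≤ y → ∃ i j : ℕ, y < i * A + j * B ∧ i * A + j * B < y + δ := by
  obtain ⟨K₀, hK₀⟩ := exists_nat_ge (B / (A - B))
  refine ⟨(K₀ + 1 : ℝ) * B, fun y hy => ?_⟩
  have hy0 : 0 ≤ y := le_trans (by positivity) hy
  set K : ℕ := ⌊y / B⌋₊ with hK
  have hKle : (K : ℝ) * B ≤ y := by
    have := Nat.floor_le (div_nonneg hy0 hB.le)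
    rwa [le_div_iff₀ hB] at this
  have hKlt : y < ((K : ℝ) + 1) * B := by
    have := Nat.lt_floor_add_one (y / B)
    rwa [div_lt_iff₀ hB] at this
  have hK₀K : (K₀ : ℝ) ≤ K := by
    have h3 : (K₀ : ℝ) + 1 ≤ (K : ℝ) + 1 := by
      have h4 : ((K₀ : ℝ) + 1) * B < ((K : ℝ) + 1) * B := lt_of_le_of_lt hy hKlt
      exact (lt_of_mul_lt_mul_right h4 hB.le).le
    linarith
  have hKstep : B ≤ K * (A - B) := by
    have h3 : B / (A - B) ≤ K := hK₀.trans hK₀K
    rwa [div_le_iff₀ h1] at h3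
  set i : ℕ := ⌊(y - K * B) / (A - B)⌋₊ + 1 with hi
  have hz0 : 0 ≤ (y - K * B) / (A - B) := div_nonneg (by linarith) h1.le
  have hi1 : ((i : ℝ) - 1) * (A - B) ≤ y - K * B := by
    have := Nat.floor_le hz0
    rw [le_div_iff₀ h1] at this
    have h3 : ((i : ℝ) - 1) = (⌊(y - K * B) / (A - B)⌋₊ : ℝ) := by
      rw [hi]; push_cast; ring
    rw [h3]
    exact this
  have hi2 : y - K * B < (i : ℝ) * (A - B) := by
    have := Nat.lt_floor_add_one ((y - K * B) / (A - B))
    rw [div_lt_iff₀ h1] at this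
    have h3 : (i : ℝ) = (⌊(y - K * B) / (A - B)⌋₊ : ℝ) + 1 := by
      rw [hi]; push_cast; ring
    rw [h3]
    exact this
  have hiK : i ≤ K := by
    have h3 : ((i : ℝ) - 1) * (A - B) < K * (A - B) := by linarith
    have h4 : (i : ℝ) - 1 < K := lt_of_mul_lt_mul_right h3 h1.le
    have h5 : (i : ℝ) < (K : ℝ) + 1 := by linarith
    have h6 : i < K + 1 := by exact_mod_cast h5
    omega
  refine ⟨i, K - i, ?_, ?_⟩
  · rw [Nat.cast_sub hiK]
    nlinarith
  · rw [Nat.cast_sub hiK]
    nlinarith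

private theorem indep {k l : ℤ} (h : (l : ℝ) * Real.log 3 = k * Real.log 5) : l = 0 := by
  have h3 : 0 < Real.log 3 := Real.log_pos (by norm_num)
  have h5 : 0 < Real.log 5 := Real.log_pos (by norm_num)
  have habs : ((l.natAbs : ℕ) : ℝ) * Real.log 3 = (k.natAbs : ℕ) * Real.log 5 := by
    have := congrArg abs h
    rw [abs_mul, abs_mul, abs_of_pos h3, abs_of_pos h5] at this
    rw [Nat.cast_natAbs, Nat.cast_natAbs]
    push_cast
    exact this
  have h6 : (3 : ℝ) ^ l.natAbs = 5 ^ k.natAbs := by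
    have h7 := congrArg Real.exp habs
    rw [Real.exp_nat_mul, Real.exp_nat_mul, Real.exp_log (by norm_num), Real.exp_log (by norm_num)] at h7
    exact h7
  have h8 : 3 ^ l.natAbs = 5 ^ k.natAbs := by exact_mod_cast h6
  by_contra hl
  have h9 : l.natAbs ≠ 0 := by omega
  have h10 : 3 ∣ 5 ^ k.natAbs := by
    rw [← h8]
    exact dvd_pow_self 3 h9
  have h11 : 3 ∣ 5 := Nat.Prime.dvd_of_dvd_pow (by norm_num) h10
  omega

private theorem step_ex {δ : ℝ} (hδ : 0 < δ) : ∃ m n : ℤ,
    0 < (m : ℝ) * Real.log 3 + n * Real.log 5 ∧ (m : ℝ) * Real.log 3 + n * Real.log 5 < δ := by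
  set S : AddSubgroup ℝ := AddSubgroup.closure {Real.log 3, Real.log 5} with hS
  have hmem3 : Real.log 3 ∈ S := AddSubgroup.subset_closure (by simp)
  have hmem5 : Real.log 5 ∈ S := AddSubgroup.subset_closure (by simp)
  rcases S.dense_or_cyclic with hd | ⟨a, ha⟩
  · obtain ⟨s, hsS, hs1, hs2⟩ := hd.exists_between hδ
    have hsS' : s ∈ AddSubgroup.closure {Real.log 3, Real.log 5} := hsS
    rw [AddSubgroup.mem_closure_pair] at hsS'
    obtain ⟨m, n, hmn⟩ := hsS'
    refine ⟨m, n, ?_, ?_⟩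
    · have : (m : ℝ) * Real.log 3 + n * Real.log 5 = s := by
        rw [← hmn]; simp
      rw [this]; exact hs1
    · have : (m : ℝ) * Real.log 3 + n * Real.log 5 = s := by
        rw [← hmn]; simp
      rw [this]; exact hs2
  · exfalso
    rw [ha, AddSubgroup.mem_closure_singleton] at hmem3 hmem5
    obtain ⟨k, hk⟩ := hmem3
    obtain ⟨l, hl⟩ := hmem5
    have hk' : (k : ℝ) * a = Real.log 3 := by rw [← hk]; simp
    have hl' : (l : ℝ) * a = Real.log 5 := by rw [← hl]; simp
    have h1 : (l : ℝ) * Real.log 3 = k * Real.log 5 := by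
      rw [← hk', ← hl']; ring
    have h2 := indep h1
    rw [h2] at hl'
    have h5 : 0 < Real.log 5 := Real.log_pos (by norm_num)
    simp at hl'
    rw [← hl'] at h5
    exact lt_irrefl _ h5

theorem exists_word {c d : ℝ} (hc : 0 < c) (hcd : c < d) :
    ∃ R₀ : ℝ, ∀ R : ℝ, R₀ < R → ∃ w : List ℕ, (∀ n ∈ w, n = 3 ∨ n = 5) ∧
      c * R < w.prod ∧ (w.prod : ℝ) < d * R := by
  have h3 : 0 < Real.log 3 := Real.log_pos (by norm_num)
  have h5 : 0 < Real.log 5 := Real.log_pos (by norm_num)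
  have hlog3 : 1 < Real.log 3 := by
    rw [Real.lt_log_iff_exp_lt (by norm_num)]
    have := Real.exp_one_lt_d9
    linarith
  have hlog5 : 1 < Real.log 5 := hlog3.trans (Real.log_lt_log (by norm_num) (by norm_num))
  have hd : 0 < d := hc.trans hcd
  have hδ0 : 0 < Real.log d - Real.log c := sub_pos.mpr (Real.log_lt_log hc hcd)
  obtain ⟨δ, hδ, hδ1, hδ2⟩ : ∃ δ : ℝ, 0 < δ ∧ δ ≤ 1 ∧ δ ≤ Real.log d - Real.log c :=
    ⟨min 1 (Real.log d - Real.log c), lt_min one_pos hδ0, min_le_left _ _, min_le_right _ _⟩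
  obtain ⟨m, n, hmn1, hmn2⟩ := step_ex hδ
  -- the semigroup statement
  obtain ⟨y₀, hy₀⟩ : ∃ y₀ : ℝ, ∀ y : ℝ, y₀ ≤ y → ∃ a b : ℕ,
      y < a * Real.log 3 + b * Real.log 5 ∧ a * Real.log 3 + b * Real.log 5 < y + δ := by
    rcases lt_trichotomy m 0 with hm | hm | hm
    · -- m < 0, so n > 0
      have hn : 0 < n := by
        by_contra hcon
        push Not at hcon
        have e1 : (m : ℝ) * Real.log 3 ≤ 0 :=
          mul_nonpos_of_nonpos_of_nonneg (by exact_mod_cast hm.le) h3.le
        have e2 : (n : ℝ) * Real.log 5 ≤ 0 :=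
          mul_nonpos_of_nonpos_of_nonneg (by exact_mod_cast hcon) h5.le
        linarith
      obtain ⟨m', hm'⟩ := Int.eq_ofNat_of_zero_le (show 0 ≤ -m by omega)
      obtain ⟨n', hn'⟩ := Int.eq_ofNat_of_zero_le hn.le
      have hmR : (m : ℝ) = -(m' : ℝ) := by
        have : m = -(m' : ℤ) := by omega
        rw [this]; push_cast; ring
      have hnR : (n : ℝ) = (n' : ℝ) := by rw [hn']; push_cast; ring
      have hm'pos : 0 < (m' : ℝ) := by
        have : 0 < m' := by omega
        exact_mod_cast this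
      obtain ⟨y₀, hy⟩ := semi (A := n' * Real.log 5) (B := m' * Real.log 3) (δ := δ)
        (by positivity) (by rw [hmR, hnR] at hmn1; linarith) (by rw [hmR, hnR] at hmn2; linarith)
      refine ⟨y₀, fun y hyy => ?_⟩
      obtain ⟨i, j, h1, h2⟩ := hy y hyy
      refine ⟨j * m', i * n', ?_, ?_⟩
      · push_cast; linarith
      · push_cast; linarith
    · exfalso
      rw [hm] at hmn1 hmn2
      simp only [Int.cast_zero, zero_mul, zero_add] at hmn1 hmn2
      have hn : 0 < n := by
        by_contra hcon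
        push Not at hcon
        have e2 : (n : ℝ) * Real.log 5 ≤ 0 :=
          mul_nonpos_of_nonpos_of_nonneg (by exact_mod_cast hcon) h5.le
        linarith
      have hn1 : (1 : ℝ) ≤ n := by exact_mod_cast hn
      nlinarith
    · have hn : n < 0 := by
        by_contra hcon
        push Not at hcon
        have e2 : 0 ≤ (n : ℝ) * Real.log 5 :=
          mul_nonneg (by exact_mod_cast hcon) h5.le
        have hm1 : (1 : ℝ) ≤ m := by exact_mod_cast hm
        nlinarith
      obtain ⟨n', hn'⟩ := Int.eq_ofNat_of_zero_le (show 0 ≤ -n by omega)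
      obtain ⟨m', hm'⟩ := Int.eq_ofNat_of_zero_le hm.le
      have hnR : (n : ℝ) = -(n' : ℝ) := by
        have : n = -(n' : ℤ) := by omega
        rw [this]; push_cast; ring
      have hmR : (m : ℝ) = (m' : ℝ) := by rw [hm']; push_cast; ring
      have hn'pos : 0 < (n' : ℝ) := by
        have : 0 < n' := by omega
        exact_mod_cast this
      obtain ⟨y₀, hy⟩ := semi (A := m' * Real.log 3) (B := n' * Real.log 5) (δ := δ)
        (by positivity) (by rw [hmR, hnR] at hmn1; linarith) (by rw [hmR, hnR] at hmn2; linarith)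
      refine ⟨y₀, fun y hyy => ?_⟩
      obtain ⟨i, j, h1, h2⟩ := hy y hyy
      refine ⟨i * m', j * n', ?_, ?_⟩
      · push_cast; linarith
      · push_cast; linarith
  refine ⟨max 0 (Real.exp y₀ / c), fun R hR => ?_⟩
  have hR0 : 0 < R := lt_of_le_of_lt (le_max_left _ _) hR
  have hRc : Real.exp y₀ < c * R := by
    have := lt_of_le_of_lt (le_max_right 0 (Real.exp y₀ / c)) hR
    rw [div_lt_iff₀ hc] at this
    linarith
  have hy : y₀ ≤ Real.log (c * R) := by
    rw [Real.le_log_iff_exp_le (by positivity)]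
    exact hRc.le
  obtain ⟨a, b, hab1, hab2⟩ := hy₀ _ hy
  have hprod : (((List.replicate a 3 ++ List.replicate b 5).prod : ℕ) : ℝ) =
      Real.exp (a * Real.log 3 + b * Real.log 5) := by
    rw [List.prod_append, List.prod_replicate, List.prod_replicate, Real.exp_add, Real.exp_nat_mul,
      Real.exp_nat_mul, Real.exp_log (by norm_num), Real.exp_log (by norm_num)]
    push_cast
    ring
  refine ⟨List.replicate a 3 ++ List.replicate b 5, ?_, ?_, ?_⟩
  · intro n hn
    rw [List.mem_append] at hn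
    rcases hn with hn | hn
    · left; exact List.eq_of_mem_replicate hn
    · right; exact List.eq_of_mem_replicate hn
  · rw [hprod]
    calc c * R = Real.exp (Real.log (c * R)) := (Real.exp_log (by positivity)).symm
      _ < _ := Real.exp_lt_exp.mpr hab1
  · rw [hprod]
    calc Real.exp (a * Real.log 3 + b * Real.log 5) < Real.exp (Real.log (c * R) + δ) :=
          Real.exp_lt_exp.mpr hab2
      _ ≤ Real.exp (Real.log (d * R)) := by
          apply Real.exp_le_exp.mpr
          rw [Real.log_mul hc.ne' hR0.ne', Real.log_mul hd.ne' hR0.ne']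
          linarith
      _ = d * R := Real.exp_log (by positivity)

end Pool.Agent.SS.RK
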