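import Mathlib
import Pool.Agent.Work.MP_a5099b_nt.R.KDefs
import Pool.Agent.Work.MP_a5099b_nt.B.Der

/-!
# Module R/Cont (size S-M): `Y ↦ jr t Y` is continuous for `Y > 0`

PROOF. `jL (tauLat τ) = E₄ τ ^ 3 / Δ τ` (`jL_eq`, `e4_tauLat`, `dl_tauLat`, A/Lat), `Δ τ ≠ 0` (`ModularForm.discriminant_ne_zero`); `E₄` and `Δ` are continuous on `ℍ` (holomorphic: `ModularForm.holo'`, `MDifferentiable.continuous`; for the discriminant see the Mathlib file of `ModularForm.discriminant` or `dl = (e4^3 - e6^2)/1728` with `E₄`, `E₆`).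
So `τ ↦ jL (tauLat τ)` is continuous on `ℍ`. `Y ↦ (⟨pt t Y, _⟩ : ℍ)` is continuous on `Set.Ioi 0` (work with the subtype, or with `UpperHalfPlane.ofComplex` and `ContinuousOn`). `jr t Y = re (jL (tauLat ⟨pt t Y, _⟩))` (`Rl_eq`).
Alternative: `analytic_supb` in B/Simple.lean proves analyticity of similar functions of `z` through `UpperHalfPlane.ofComplex`; the same proof works.
-/

set_option autoImplicit false

namespace Pool.Agent.SS.RK

open Polynomial UpperHalfPlane
open Pool.Agent.Work.CM

theorem jr_cont (t : Bool) : ContinuousOn (jr t) (Set.Ioi 0) := by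
  have h1 : ContinuousOn (fun z : ℂ => jL (tauLat (ofComplex z))) {z : ℂ | 0 < z.im} :=
    jL_differentiable.continuousOn
  have h2 : Continuous (fun Y : ℝ => pt t Y) := by
    cases t
    · simp only [pt_false]
      fun_prop
    · simp only [pt_true]
      fun_prop
  have h3 : ContinuousOn (fun Y : ℝ => jL (tauLat (ofComplex (pt t Y)))) (Set.Ioi 0) :=
    h1.comp h2.continuousOn (fun Y hY => pt_im hY)
  refine (Complex.continuous_re.comp_continuousOn h3).congr ?_
  intro Y hY
  show (jL (Rl t Y)).re = (jL (tauLat (ofComplex (pt t Y)))).re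
  rw [Rl_eq hY, ofComplex_apply_of_im_pos (pt_im hY)]

end Pool.Agent.SS.RK
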