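import Mathlib
import Pool.Agent.Work.MP_a5099b_nt.R.Conj

/-!
# Module R/Inj (size S-M): `Y ↦ jr t Y` is injective on `Y ≥ 2`

PROOF. Let `L = Rl t Y`, `L' = Rl t Y'`, `Y, Y' ≥ 2`. `jL L = jL L'` (`jL_Rl`), so `L' = m • L`, `m ≠ 0` (`exists_smul_of_jL`). (a) Every nonzero `z ∈ L` has `‖z‖ ≥ 1`, and `‖z‖ = 1` only for `z = ±1`: `z = u + n pt` (`mem_Rl`); `n = 0`: `z = u` a nonzero integer; `n ≠ 0`, `t = true`: `|im z| = |n| Y ≥ 2`; `n ≠ 0`, `t = false`:
`|im z| = |n| Y / 2 ≥ 1`, with equality only if `|n| = 1`, `Y = 2`, and then `re z = u ± 1/2 ≠ 0`, so `‖z‖ > 1` in all cases with `n ≠ 0`. The same for `L'`. (b) `m = m * 1 ∈ L'`, so `‖m‖ ≥ 1`; `1 ∈ L' = m • L`, so `m⁻¹ ∈ L` and `‖m⁻¹‖ ≥ 1`. So `‖m‖ = 1`, `m = ±1`, `L' = L` (`m • L = L` for `m = ±1`).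
(c) `pt t Y' ∈ Rl t Y`: `pt t Y' = u + n pt t Y`; imaginary parts: `Y' = n Y` with an integer `n`, `n ≥ 1`, so `Y' ≥ Y`; by symmetry `Y ≥ Y'`.
-/

set_option autoImplicit false

namespace Pool.Agent.SS.RK

open Polynomial UpperHalfPlane
open Pool.Agent.Work.CM
open scoped Pointwise

/-- A nonzero point of `Rl t Y` has norm at least one, with equality only for `±1`. -/
private theorem inj_norm {t : Bool} {Y : ℝ} (hY : 2 ≤ Y) {z : ℂ} (hz : z ∈ Rl t Y) (h0 : z ≠ 0) :
    1 ≤ ‖z‖ ∧ (‖z‖ = 1 → z = 1 ∨ z = -1) := by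
  obtain ⟨u, n, rfl⟩ := mem_Rl.1 hz
  by_cases hn : n = 0
  · subst hn
    simp only [Int.cast_zero, zero_mul, add_zero] at h0 ⊢
    have hu : u ≠ 0 := by
      rintro rfl
      exact h0 (by simp)
    have h1 : (1 : ℤ) ≤ |u| := Int.one_le_abs hu
    have h2 : ‖(u : ℂ)‖ = ((|u| : ℤ) : ℝ) := by
      rw [Complex.norm_intCast, Int.cast_abs]
    rw [h2]
    refine ⟨by exact_mod_cast h1, fun h => ?_⟩
    have h3 : |u| = 1 := by exact_mod_cast h
    rcases (abs_eq (by norm_num : (0 : ℤ) ≤ 1)).1 h3 with h4 | h4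
    · left; rw [h4]; simp
    · right; rw [h4]; simp
  · have hn1 : (1 : ℝ) ≤ |(n : ℝ)| := by
      have := Int.one_le_abs hn
      rw [← Int.cast_abs]
      exact_mod_cast this
    have hsq : 1 < Complex.normSq ((u : ℂ) + n * pt t Y) := by
      have hn2 : (1 : ℝ) ≤ (n : ℝ) ^ 2 := by
        rw [← sq_abs]
        nlinarith
      cases t
      · have e1 : Complex.normSq ((u : ℂ) + n * pt false Y) =
            ((u : ℝ) + n / 2) ^ 2 + ((n : ℝ) * Y / 2) ^ 2 := by
          rw [pt_false, Complex.normSq_apply]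
          simp
          ring
        rw [e1]
        have h5 : 0 ≤ ((u : ℝ) + n / 2) ^ 2 := sq_nonneg _
        have h6 : (n : ℝ) ^ 2 ≤ ((n : ℝ) * Y / 2) ^ 2 := by
          have h7 : (1 : ℝ) ≤ (Y / 2) ^ 2 := by nlinarith
          calc (n : ℝ) ^ 2 = (n : ℝ) ^ 2 * 1 := by ring
            _ ≤ (n : ℝ) ^ 2 * (Y / 2) ^ 2 := by
              exact mul_le_mul_of_nonneg_left h7 (sq_nonneg _)
            _ = ((n : ℝ) * Y / 2) ^ 2 := by ring
        by_cases h8 : n ^ 2 = 1
        · have h9 : ((u : ℝ) + n / 2) ^ 2 ≠ 0 := by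
            intro h10
            have h11 : (u : ℝ) + n / 2 = 0 := by
              exact pow_eq_zero_iff (two_ne_zero) |>.1 h10
            have h12 : (2 * u + n : ℤ) = 0 := by
              have : (2 * (u : ℝ) + n) = 0 := by linarith
              exact_mod_cast this
            rcases (sq_eq_one_iff.1 h8) with h13 | h13 <;> omega
          have h14 : 0 < ((u : ℝ) + n / 2) ^ 2 := lt_of_le_of_ne h5 (Ne.symm h9)
          linarith
        · have h15 : (1 : ℤ) < n ^ 2 := by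
            have h16 : (1 : ℤ) ≤ n ^ 2 := by
              have : (0 : ℤ) < n ^ 2 := by positivity
              omega
            omega
          have h17 : (1 : ℝ) < (n : ℝ) ^ 2 := by exact_mod_cast h15
          linarith
      · have e1 : Complex.normSq ((u : ℂ) + n * pt true Y) =
            (u : ℝ) ^ 2 + ((n : ℝ) * Y) ^ 2 := by
          rw [pt_true, Complex.normSq_apply]
          simp
          ring
        rw [e1]
        have h5 : 0 ≤ (u : ℝ) ^ 2 := sq_nonneg _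
        have h6 : (4 : ℝ) ≤ ((n : ℝ) * Y) ^ 2 := by
          have h7 : (4 : ℝ) ≤ Y ^ 2 := by nlinarith
          rw [mul_pow]
          nlinarith
        linarith
    have hlt : 1 < ‖(u : ℂ) + n * pt t Y‖ := by
      rw [Complex.normSq_eq_norm_sq] at hsq
      nlinarith [norm_nonneg ((u : ℂ) + n * pt t Y)]
    exact ⟨hlt.le, fun h => absurd h (ne_of_gt hlt)⟩

/-- The point of `Rl t Y'` in `Rl t Y` gives `Y ≤ Y'`. -/
private theorem inj_le {t : Bool} {Y Y' : ℝ} (hY : 2 ≤ Y) (hY' : 2 ≤ Y')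
    (h : pt t Y' ∈ Rl t Y) : Y ≤ Y' := by
  obtain ⟨u, n, h⟩ := mem_Rl.1 h
  have h1 : Y' = n * Y := by
    have h2 := congrArg Complex.im h
    cases t
    · rw [pt_false, pt_false] at h2
      simp at h2
      linarith
    · rw [pt_true, pt_true] at h2
      simpa using h2
  have h3 : (1 : ℝ) ≤ n := by
    have h4 : (0 : ℝ) < n := by
      by_contra h5
      push Not at h5
      nlinarith
    have h6 : (0 : ℤ) < n := by exact_mod_cast h4
    exact_mod_cast h6
  nlinarith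

theorem jr_inj {t : Bool} {Y Y' : ℝ} (hY : 2 ≤ Y) (hY' : 2 ≤ Y') (h : jr t Y = jr t Y') :
    Y = Y' := by
  have hY0 : 0 < Y := by linarith
  have hY0' : 0 < Y' := by linarith
  have hj : jL (Rl t Y) = jL (Rl t Y') := by
    rw [jL_Rl hY0, jL_Rl hY0', h]
  obtain ⟨m, hm, hL⟩ := exists_smul_of_jL (isLat_Rl hY0) (isLat_Rl hY0') hj
  have h1 : m ∈ Rl t Y' := by
    rw [hL]
    have := Submodule.smul_mem_pointwise_smul (1 : ℂ) m (Rl t Y) (one_mem_Rl t Y)
    simpa using this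
  have h2 : m⁻¹ ∈ Rl t Y := by
    have h3 : (1 : ℂ) ∈ m • Rl t Y := hL ▸ one_mem_Rl t Y'
    obtain ⟨x, hx, hx'⟩ := (Submodule.mem_smul_pointwise_iff_exists _ _ _).1 h3
    have h4 : m * x = 1 := hx'
    have h5 : x = m⁻¹ := eq_inv_of_mul_eq_one_right h4
    rwa [← h5]
  obtain ⟨h6, h7⟩ := inj_norm hY' h1 hm
  obtain ⟨h8, -⟩ := inj_norm hY h2 (inv_ne_zero hm)
  have h9 : ‖m‖ = 1 := by
    rw [norm_inv] at h8
    have h10 : 0 < ‖m‖ := norm_pos_iff.2 hm
    have h11 : ‖m‖ ≤ 1 := by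
      have := (one_le_inv₀ h10).1 h8
      exact this
    exact le_antisymm h11 h6
  have h12 : Rl t Y' = Rl t Y := by
    rw [hL]
    rcases h7 h9 with rfl | rfl
    · exact one_smul _ _
    · ext z
      rw [Submodule.mem_smul_pointwise_iff_exists]
      constructor
      · rintro ⟨x, hx, rfl⟩
        have : (-1 : ℂ) • x = -x := by simp
        rw [this]
        exact neg_mem hx
      · intro hz
        exact ⟨-z, neg_mem hz, by simp⟩
  refine le_antisymm (inj_le (t := t) hY hY' ?_) (inj_le (t := t) hY' hY ?_)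
  · rw [← h12]
    exact pt_mem_Rl t Y'
  · rw [h12]
    exact pt_mem_Rl t Y

end Pool.Agent.SS.RK
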