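import Mathlib
import Pool.Agent.Work.MP_a5099b_nt.R.Conj
import Pool.Agent.Work.MP_a5099b_nt.A.Exp

/-!
# Module R/Lim (size S-M): the limits of `jr t Y` for `Y → ∞`

PROOF. `jL (tauLat τ) = E₄ τ ^ 3 / Δ τ` (`jL_eq`, `e4_tauLat`, `dl_tauLat`, A/Lat). With `q = exp (2 π i τ)`: `Δ τ = q ∏ (1 - q^n)^24` (`ModularForm.discriminant`, product of `eta`) and `E₄ τ → 1`, `Δ τ / q → 1` as `im τ → ∞` (Mathlib: q-expansions, `UpperHalfPlane.atImInfty`; CM/Jsu.lean proves and uses the behaviour of `E₄ ^ 3 / Δ` at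
`atImInfty`; or `QX_jL` in A/Exp.lean: `jL (tauLat τ) = ∑ Jq_m q^m` with `Jq_{-1} = 1`, `Jq_m = 0` for `m < -1` (`Jq_coeff_neg_one`, `Jq_coeff_lt`), so `q * jL (tauLat τ) = 1 + ∑_{m ≥ 1} Jq_{m-1} q^m → 1` as `q → 0` (a convergent power series in `q`, `|q| < 1`, is continuous at 0)).
So `q * jL (tauLat τ) → 1` as `im τ → ∞`. For `t = true`: `q = exp (-2 π Y) > 0` real; the real part of `q jL` is `q * jr true Y → 1`, so `jr true Y ≥ 1 / (2 q) → +∞`. For `t = false`: `q = exp (π i (1 + iY)) = - exp (-π Y)`; `q * jr false Y → 1`, so `jr false Y ≤ 1 / (2 q) → -∞`.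
-/

set_option autoImplicit false

namespace Pool.Agent.SS.RK

open Polynomial UpperHalfPlane
open Pool.Agent.Work.CM

private theorem lim_key : ∃ C : ℝ, 0 ≤ C ∧ ∀ τ : ℍ, 1 ≤ τ.im →
    ‖Function.Periodic.qParam ((1 : ℕ) : ℝ) τ * jL (tauLat τ) - 1‖ ≤
      C * ‖Function.Periodic.qParam ((1 : ℕ) : ℝ) τ‖ := by
  have hQ := QX_jL
  have hs := (hQ UpperHalfPlane.I).summable.norm
  refine ⟨∑' m : ℤ, ‖(toC Jq).coeff m * Function.Periodic.qParam ((1 : ℕ) : ℝ)
    (UpperHalfPlane.I : ℂ) ^ m‖, tsum_nonneg fun _ => norm_nonneg _, fun τ hτ => ?_⟩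
  set q : ℂ := Function.Periodic.qParam ((1 : ℕ) : ℝ) (τ : ℂ) with hq
  set q0 : ℂ := Function.Periodic.qParam ((1 : ℕ) : ℝ) (UpperHalfPlane.I : ℂ) with hq0
  have hqne : q ≠ 0 := Complex.exp_ne_zero _
  have hle : ‖q‖ ≤ ‖q0‖ := by
    rw [hq, hq0, Function.Periodic.norm_qParam, Function.Periodic.norm_qParam]
    apply Real.exp_le_exp.2
    have h1 : ((UpperHalfPlane.I : ℍ) : ℂ).im = 1 := by simp
    have h2 : ((τ : ℍ) : ℂ).im = τ.im := rfl
    rw [h1, h2, Nat.cast_one, div_one, div_one]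
    nlinarith [Real.pi_pos]
  have h1 := ((hQ τ).mul_left q).sub (hasSum_ite_eq (-1 : ℤ) (1 : ℂ))
  rw [← h1.tsum_eq, mul_comm]
  refine tsum_of_norm_bounded (hs.hasSum.mul_left ‖q‖) fun m => ?_
  have hc : (toC Jq).coeff m = ((Jq.coeff m : ℤ) : ℂ) := rfl
  rcases lt_trichotomy m (-1) with hm | hm | hm
  · rw [hc, Jq_coeff_lt hm, if_neg hm.ne]
    simp
  · rw [hc, hm, Jq_coeff_neg_one, if_pos rfl, Int.cast_one, one_mul, zpow_neg_one,
      mul_inv_cancel₀ hqne, sub_self, norm_zero]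
    positivity
  · rw [if_neg hm.ne', sub_zero, norm_mul, norm_mul, norm_mul]
    refine mul_le_mul_of_nonneg_left (mul_le_mul_of_nonneg_left ?_ (norm_nonneg _))
      (norm_nonneg _)
    obtain ⟨n, rfl⟩ := Int.eq_ofNat_of_zero_le (show 0 ≤ m by omega)
    rw [zpow_natCast, zpow_natCast, norm_pow, norm_pow]
    exact pow_le_pow_left₀ (norm_nonneg _) hle n

private theorem lim_aux (t : Bool) (c s : ℝ) (hc : 0 < c) (hs : s * s = 1)
    (h : ∀ Y : ℝ, Function.Periodic.qParam ((1 : ℕ) : ℝ) (pt t Y) =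
      ((s * Real.exp (-(c * Y)) : ℝ) : ℂ))
    (hIm : ∀ Y : ℝ, 2 ≤ Y → 1 ≤ (pt t Y).im) :
    Filter.Tendsto (fun Y => s * jr t Y) Filter.atTop Filter.atTop := by
  obtain ⟨C, hC0, hC⟩ := lim_key
  have hexp : Filter.Tendsto (fun Y : ℝ => Real.exp (c * Y) / 2) Filter.atTop Filter.atTop :=
    (Real.tendsto_exp_atTop.comp
      (Filter.tendsto_id.const_mul_atTop hc)).atTop_div_const two_pos
  have hexp' := hexp.eventually_ge_atTop (C : ℝ)
  refine Filter.tendsto_atTop_mono' _ ?_ hexp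
  filter_upwards [hexp', Filter.eventually_ge_atTop (2 : ℝ)] with Y hY hY2
  have hY0 : 0 < Y := by linarith
  have h1 := hC ⟨pt t Y, pt_im hY0⟩ (hIm Y hY2)
  rw [← Rl_eq hY0] at h1
  have h2 : ((⟨pt t Y, pt_im hY0⟩ : ℍ) : ℂ) = pt t Y := rfl
  rw [h2, h Y] at h1
  have h3 := (Complex.abs_re_le_norm _).trans h1
  have hs1 : |s| = 1 := by
    have : |s| * |s| = 1 := by rw [← abs_mul, hs, abs_one]
    nlinarith [abs_nonneg s]
  have h4 : (((s * Real.exp (-(c * Y)) : ℝ) : ℂ) * jL (Rl t Y) - 1).re =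
      s * Real.exp (-(c * Y)) * jr t Y - 1 := by
    rw [Complex.sub_re, Complex.re_ofReal_mul, Complex.one_re, jr]
  rw [h4, Complex.norm_real, Real.norm_eq_abs, abs_mul, hs1, one_mul,
    abs_of_pos (Real.exp_pos _)] at h3
  have h5 := (abs_le.1 h3).1
  have he : Real.exp (-(c * Y)) * Real.exp (c * Y) = 1 := by
    rw [← Real.exp_add, neg_add_cancel, Real.exp_zero]
  have hp : 0 < Real.exp (c * Y) := Real.exp_pos _
  have h6 : (s * Real.exp (-(c * Y)) * jr t Y) * Real.exp (c * Y) = s * jr t Y := by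
    calc (s * Real.exp (-(c * Y)) * jr t Y) * Real.exp (c * Y)
        = s * jr t Y * (Real.exp (-(c * Y)) * Real.exp (c * Y)) := by ring
      _ = s * jr t Y := by rw [he, mul_one]
  have h7 : (1 - C * Real.exp (-(c * Y))) * Real.exp (c * Y) ≤
      (s * Real.exp (-(c * Y)) * jr t Y) * Real.exp (c * Y) :=
    mul_le_mul_of_nonneg_right (by linarith) hp.le
  have h8 : (1 - C * Real.exp (-(c * Y))) * Real.exp (c * Y) = Real.exp (c * Y) - C := by
    rw [sub_mul, one_mul, mul_assoc, he, mul_one]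
  rw [h6, h8] at h7
  linarith

theorem jr_true_lim : Filter.Tendsto (jr true) Filter.atTop Filter.atTop := by
  have h := lim_aux true (2 * Real.pi) 1 (by positivity) (by norm_num) (fun Y => by
    rw [Function.Periodic.qParam, pt_true, Nat.cast_one, one_mul, Complex.ofReal_exp]
    congr 1
    push_cast
    have := Complex.I_mul_I
    linear_combination (2 * (Real.pi : ℂ) * Y) * this) (fun Y hY => by
    rw [pt_true]
    simp
    linarith)
  simpa using h

theorem jr_false_lim : Filter.Tendsto (jr false) Filter.atTop Filter.atBot := by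
  have h := lim_aux false Real.pi (-1) (by positivity) (by norm_num) (fun Y => by
    rw [Function.Periodic.qParam, pt_false, Nat.cast_one, neg_one_mul, Complex.ofReal_neg,
      Complex.ofReal_exp, ← neg_one_mul, ← Complex.exp_pi_mul_I, ← Complex.exp_add]
    congr 1
    push_cast
    have := Complex.I_mul_I
    linear_combination ((Real.pi : ℂ) * Y) * this) (fun Y hY => by
    rw [pt_false]
    simp
    linarith)
  have h2 := Filter.tendsto_neg_atTop_atBot.comp h
  refine h2.congr fun Y => ?_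
  simp

end Pool.Agent.SS.RK
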