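import Mathlib
import Pool.Agent.Work.MP_a5099b_nt.R.Inj
import Pool.Agent.Work.MP_a5099b_nt.R.Cont
import Pool.Agent.Work.MP_a5099b_nt.R.Lim
import Pool.Agent.Work.MP_a5099b_nt.R.Sym

/-!
# Module R/Mono (size S): monotony for `Y ≥ 2`, and a bound for `1/2 ≤ Y ≤ 2`

PROOF. A continuous injective function on the interval `[2, ∞)` is strictly monotone or strictly antitone (`ContinuousOn.strictMonoOn_of_injOn_Icc'` on every `[2, b]`, or `Continuous.strictMono_of_inj` after extension; Mathlib has versions for `OrdConnected` sets); the limits (R/Lim) decide: `jr true → +∞` excludes antitone, `jr false → -∞` excludes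
monotone. `jr_bdd`: `jr t` is continuous on the compact interval `[1, 2]`, so `|jr t Y| ≤ B` there; for `Y` in `[1/2, 1]` use `jr_inv`.
-/

set_option autoImplicit false

namespace Pool.Agent.SS.RK

open Polynomial UpperHalfPlane
open Pool.Agent.Work.CM

private theorem mono_aux {f : ℝ → ℝ} (hc : ContinuousOn f (Set.Ioi 0))
    (hi : Set.InjOn f (Set.Ici 2)) (hl : Filter.Tendsto f Filter.atTop Filter.atTop) :
    StrictMonoOn f (Set.Ici 2) := by
  intro x hx y hy hxy
  rw [Set.mem_Ici] at hx hy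
  obtain ⟨b, hb1, hb2⟩ := ((hl.eventually (Filter.eventually_gt_atTop (f 2))).and
    (Filter.eventually_ge_atTop y)).exists
  have h2b : (2 : ℝ) < b := lt_of_le_of_lt hx (lt_of_lt_of_le hxy hb2)
  have hsub : Set.Icc 2 b ⊆ Set.Ioi (0 : ℝ) := fun z hz => lt_of_lt_of_le (by norm_num) hz.1
  have hsub2 : Set.Icc 2 b ⊆ Set.Ici (2 : ℝ) := fun z hz => hz.1
  rcases ContinuousOn.strictMonoOn_of_injOn_Icc' h2b.le (hc.mono hsub) (hi.mono hsub2) with h | h
  · exact h ⟨hx, hxy.le.trans hb2⟩ ⟨hy, hb2⟩ hxy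
  · have := h ⟨le_refl 2, h2b.le⟩ ⟨h2b.le, le_refl b⟩ h2b
    exact absurd this (not_lt.mpr hb1.le)

theorem jr_true_mono : StrictMonoOn (jr true) (Set.Ici 2) :=
  mono_aux (jr_cont true) (fun _ hx _ hy h => jr_inj hx hy h) jr_true_lim

theorem jr_false_anti : StrictAntiOn (jr false) (Set.Ici 2) := by
  have h : StrictMonoOn (fun Y => -jr false Y) (Set.Ici 2) :=
    mono_aux (jr_cont false).neg (fun _ hx _ hy h => jr_inj hx hy (neg_injective h))
      (Filter.tendsto_neg_atBot_atTop.comp jr_false_lim)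
  intro x hx y hy hxy
  have := h hx hy hxy
  simpa using this

theorem jr_bdd : ∃ B : ℝ, ∀ (t : Bool) (Y : ℝ), 1 / 2 ≤ Y → Y ≤ 2 → |jr t Y| ≤ B := by
  have hsub : Set.Icc (1 : ℝ) 2 ⊆ Set.Ioi (0 : ℝ) := fun z hz => lt_of_lt_of_le one_pos hz.1
  obtain ⟨B1, h1⟩ := isCompact_Icc.exists_bound_of_continuousOn ((jr_cont true).mono hsub)
  obtain ⟨B2, h2⟩ := isCompact_Icc.exists_bound_of_continuousOn ((jr_cont false).mono hsub)
  have key : ∀ (t : Bool) (Y : ℝ), Y ∈ Set.Icc (1 : ℝ) 2 → |jr t Y| ≤ max B1 B2 := by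
    intro t Y hY
    cases t
    · have := h2 Y hY
      rw [Real.norm_eq_abs] at this
      exact this.trans (le_max_right _ _)
    · have := h1 Y hY
      rw [Real.norm_eq_abs] at this
      exact this.trans (le_max_left _ _)
  refine ⟨max B1 B2, fun t Y ha hb => ?_⟩
  rcases le_total 1 Y with h | h
  · exact key t Y ⟨h, hb⟩
  · have hY : 0 < Y := by linarith
    rw [← jr_inv hY]
    refine key t (1 / Y) ⟨?_, ?_⟩
    · rw [le_div_iff₀ hY]
      linarith
    · rw [div_le_iff₀ hY]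
      linarith

end Pool.Agent.SS.RK
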