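import Mathlib

/-!
# Module R/Poly (size S-M): the sign of a real polynomial with exactly two real roots

PROOF. `H = (X - a) (X - b) G` (`a ≠ b` roots; `X - a` and `X - b` are coprime), `G` monic (`Polynomial.Monic.of_mul_monic_left`). `G a ≠ 0`: otherwise `(X - a)²` divides `H`, against `H` separable (squarefree: `Polynomial.Separable.squarefree`); the same for `b`. Any root of `G` is a root of `H`, so it is `a` or `b`: `G` has no real root.
`G` is monic: `G = 1` or it has positive degree and tends to `+∞` at `+∞` (`Polynomial.tendsto_atTop_of_leadingCoeff_nonneg`), so `G > 0` somewhere, and by the intermediate value theorem (`G` continuous, no root; e.g. `isPreconnected_univ` or `mem_range_of_exists_le_of_exists_ge`) `G > 0` everywhere. So the sign of `H x` is the sign of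
`(x - a)(x - b)`.
-/

set_option autoImplicit false

namespace Pool.Agent.SS.RK

open Polynomial

private theorem pos_of_no_root {G : ℝ[X]} (hm : G.Monic) (h0 : ∀ y : ℝ, G.eval y ≠ 0) (y : ℝ) :
    0 < G.eval y := by
  by_contra hneg
  have hle : G.eval y ≤ 0 := not_lt.1 hneg
  have hpos : ∃ z : ℝ, 0 ≤ G.eval z := by
    rcases Nat.eq_zero_or_pos G.natDegree with h | h
    · have : G = 1 := hm.natDegree_eq_zero.1 h
      exact ⟨0, by rw [this]; simp⟩
    · have ht := G.tendsto_atTop_of_leadingCoeff_nonneg (natDegree_pos_iff_degree_pos.1 h)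
        (by rw [hm.leadingCoeff]; exact zero_le_one)
      exact (ht.eventually_ge_atTop 0).exists
  obtain ⟨z, hz⟩ := mem_range_of_exists_le_of_exists_ge (c := (0 : ℝ)) G.continuous
    ⟨y, hle⟩ hpos
  exact h0 z hz

theorem sign_two_roots {H : ℝ[X]} (hm : H.Monic) (hs : H.Separable) {a b : ℝ} (hab : a < b)
    (hr : ∀ x : ℝ, H.eval x = 0 ↔ x = a ∨ x = b) (x : ℝ) :
    (a < x → x < b → H.eval x < 0) ∧ (x < a ∨ b < x → 0 < H.eval x) := by
  have hda : (X - C a) ∣ H := dvd_iff_isRoot.2 ((hr a).2 (Or.inl rfl))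
  have hdb : (X - C b) ∣ H := dvd_iff_isRoot.2 ((hr b).2 (Or.inr rfl))
  have hcop : IsCoprime (X - C a) (X - C b) :=
    isCoprime_X_sub_C_of_isUnit_sub (sub_ne_zero.2 hab.ne).isUnit
  obtain ⟨G, hG⟩ := hcop.mul_dvd hda hdb
  have hmab : ((X - C a) * (X - C b)).Monic := (monic_X_sub_C a).mul (monic_X_sub_C b)
  have hGm : G.Monic := hmab.of_mul_monic_left (hG ▸ hm)
  have hsq : Squarefree H := hs.squarefree
  have hG0 : ∀ y : ℝ, G.eval y ≠ 0 := by
    intro y hy
    have hdy : (X - C y) ∣ G := dvd_iff_isRoot.2 hy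
    have hHy : H.eval y = 0 := by rw [hG, eval_mul, hy, mul_zero]
    have hsqy : (X - C y) * (X - C y) ∣ H := by
      rcases (hr y).1 hHy with h | h
      · subst h
        rw [hG, mul_assoc]
        exact mul_dvd_mul (dvd_refl _) (hdy.mul_left _)
      · subst h
        rw [hG, mul_comm (X - C a) (X - C y), mul_assoc]
        exact mul_dvd_mul (dvd_refl _) (hdy.mul_left _)
    exact not_isUnit_X_sub_C y (hsq _ hsqy)
  have hpos := pos_of_no_root hGm hG0 x
  have hev : H.eval x = (x - a) * (x - b) * G.eval x := by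
    rw [hG]
    simp
  refine ⟨fun h1 h2 => ?_, fun h => ?_⟩
  · rw [hev]
    exact mul_neg_of_neg_of_pos (mul_neg_of_pos_of_neg (sub_pos.2 h1) (sub_neg.2 h2)) hpos
  · rw [hev]
    refine mul_pos ?_ hpos
    rcases h with h | h
    · exact mul_pos_of_neg_of_neg (sub_neg.2 h) (sub_neg.2 (h.trans hab))
    · exact mul_pos (sub_pos.2 (hab.trans h)) (sub_pos.2 h)

end Pool.Agent.SS.RK
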