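import Mathlib
import Pool.Agent.Work.MP_a5099b_nt.R.Cls
import Pool.Agent.Work.MP_a5099b_nt.SpecB

/-!
# Module R/Root (size M): the real roots of the class polynomial `HH l`

PROOF. `s = √l > 1` (real), `sq l = i s`, `l` prime.
* `hasSq_Rl`, `t = true`: `L = ℤ + ℤ iY`. (→) `i s = u + n iY`: `u = 0`, `s = n Y`; `i s * iY = - s Y = u' + n' iY`: `s Y = -u' =: k`. So `s² = l = n k` with `n, k ≥ 1` (positive as `s, Y > 0`): `n = 1, k = l` (`Y = s`) or `n = l, k = 1` (`Y = s/l = 1/s`).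
(←) `Y = s`: `i s * 1 ∈ L`, `i s * i s = -l ∈ L`. `Y = 1/s`: `i s = l * (i / s)`, `i s * (i/s) = -1`. (`HasSq l L` for all elements follows from the two generators, `mem_Rl`.)
`t = false`: `p = (1 + iY)/2`. (→) `i s = u + n p`: real part `u = -n/2`, so `n = -2u`, imaginary part `s = n Y / 2 = |u| Y`, with `k := -u > 0` an integer: `s = k Y`. `i s p = i s/2 - s Y/2 = u' + n' p`: imaginary part `s / 2 = n' Y / 2`, so `n' = k` (as `s = k Y`); real part `- s Y / 2 = u' + k/2`. Multiply by `2 k`: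
`- s (k Y) = 2 k u' + k²`, i.e. `l = - k (2 u' + k)`. So `k` divides `l`: `k = 1`, `Y = s`, or `k = l`, `Y = s/l = 1/s`.
(←) `Y = s`: `i s = 2 p - 1 ∈ L`, `i s p = (i s - l)/2 = p - (1 + l)/2 ∈ L` as `l` is odd. `Y = 1/s`: `i/s = 2p - 1`, `i s = l (i/s) = l (2p - 1) ∈ L`; `i s p = (i s - 1)/2 = (l (2p - 1) - 1)/2 = l p - (l + 1)/2 ∈ L`.
* `root_iff`: `aeval x (HH l) = 0` over `ℝ` iff over `ℂ` (`x` real; `Polynomial.aeval_algebraMap_apply`, `Complex.ofReal_injective`). `(isHH hl).spec`: iff there is a lattice `L` with `HasSq l L` and `jL L = x`. (→) `exists_Rl`: `x = jr t Y`, `Y ≥ 1`, so `jL L = jL (Rl t Y)` (`jL_Rl`), `Rl t Y = m • L` (`exists_smul_of_jL`), and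
`HasSq l (m • L)`; so `Y = √l` or `Y = 1/√l < 1`; the second is impossible as `Y ≥ 1`. (←) `L = Rl t √l`.
-/

set_option autoImplicit false

namespace Pool.Agent.SS.RK

open Polynomial UpperHalfPlane
open Pool.Agent.Work.CM
open scoped Pointwise

private theorem sqrt_facts {l : ℕ} (hl : l.Prime) :
    0 < Real.sqrt l ∧ Real.sqrt l * Real.sqrt l = l ∧ 1 < Real.sqrt l := by
  have h1 : (1 : ℝ) < l := by exact_mod_cast hl.one_lt
  refine ⟨Real.sqrt_pos.2 (by linarith), Real.mul_self_sqrt (by linarith), ?_⟩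
  rw [← Real.sqrt_one]
  exact Real.sqrt_lt_sqrt zero_le_one h1

private theorem fin_aux {l : ℕ} (hl : l.Prime) {Y : ℝ} (hY : 0 < Y) {k j : ℤ}
    (h1 : Real.sqrt l = k * Y) (h2 : (l : ℤ) = k * j) : Y = Real.sqrt l ∨ Y = 1 / Real.sqrt l := by
  obtain ⟨hs, hss, -⟩ := sqrt_facts hl
  have hk : 0 < k := by
    by_contra hcon
    have h3 : (k : ℝ) ≤ 0 := by exact_mod_cast not_lt.1 hcon
    have h4 : (k : ℝ) * Y ≤ 0 := mul_nonpos_of_nonpos_of_nonneg h3 hY.le
    linarith
  obtain ⟨n, rfl⟩ := Int.eq_ofNat_of_zero_le hk.le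
  have hd : n ∣ l := by
    have : (n : ℤ) ∣ (l : ℤ) := ⟨j, h2⟩
    exact_mod_cast this
  rcases (Nat.dvd_prime hl).1 hd with h | h
  · left
    subst h
    rw [h1]
    simp
  · right
    subst h
    rw [eq_div_iff hs.ne']
    have h5 : Real.sqrt n * Real.sqrt n = (n : ℝ) * (Y * Real.sqrt n) := by
      nth_rewrite 1 [h1]
      push_cast
      ring
    rw [hss] at h5
    have h6 : (0 : ℝ) < n := by exact_mod_cast hl.pos
    have h7 : (n : ℝ) * 1 = (n : ℝ) * (Y * Real.sqrt n) := by rw [mul_one]; exact h5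
    exact (mul_left_cancel₀ h6.ne' h7).symm

theorem hasSq_Rl {l : ℕ} (hl : l.Prime) (h2 : l ≠ 2) {t : Bool} {Y : ℝ} (hY : 0 < Y) :
    HasSq l (Rl t Y) ↔ Y = Real.sqrt l ∨ Y = 1 / Real.sqrt l := by
  obtain ⟨hs, hss, -⟩ := sqrt_facts hl
  have hsC : (Real.sqrt l : ℂ) * (Real.sqrt l : ℂ) = (l : ℂ) := by
    rw [← Complex.ofReal_mul, hss]
    simp
  have hs0 : (Real.sqrt l : ℂ) ≠ 0 := by
    rw [Ne, Complex.ofReal_eq_zero]
    exact hs.ne'
  obtain ⟨r, hr⟩ : ∃ r, l = 2 * r + 1 := hl.odd_of_ne_two h2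
  cases t
  · constructor
    · intro h
      obtain ⟨m, n, e1⟩ := mem_Rl.1 (h 1 (one_mem_Rl false Y))
      obtain ⟨m', n', e2⟩ := mem_Rl.1 (h _ (pt_mem_Rl false Y))
      rw [pt_false] at e1 e2
      have r1 := congrArg Complex.re e1
      have i1 := congrArg Complex.im e1
      have r2 := congrArg Complex.re e2
      have i2 := congrArg Complex.im e2
      simp [sq] at r1 i1 r2 i2
      have a1 : (n : ℝ) = -2 * (m : ℝ) := by linarith
      have a2 : Real.sqrt l = ((-m : ℤ) : ℝ) * Y := by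
        push_cast
        rw [i1, a1]
        ring
      have a3 : (n' : ℝ) = -(m : ℝ) := by
        have b1 : (n' : ℝ) * Y = -(m : ℝ) * Y := by
          push_cast at a2
          linarith
        exact mul_right_cancel₀ hY.ne' b1
      have a4 : (l : ℤ) = (-m) * (m - 2 * m') := by
        have b2 : (l : ℝ) = (-(m : ℝ)) * ((m : ℝ) - 2 * (m' : ℝ)) := by
          have b3 : Real.sqrt l * Y = (m : ℝ) - 2 * (m' : ℝ) := by linarith
          rw [← b3]
          push_cast at a2
          calc (l : ℝ) = Real.sqrt l * Real.sqrt l := hss.symm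
            _ = Real.sqrt l * (-(m : ℝ) * Y) := by rw [← a2]
            _ = _ := by ring
        exact_mod_cast b2
      exact fin_aux hl hY a2 a4
    · rintro (rfl | rfl)
      · intro z hz
        obtain ⟨m, n, rfl⟩ := mem_Rl.1 hz
        refine mem_Rl.2 ⟨-(m + n * (r + 1)), 2 * m + n, ?_⟩
        have hrC : (l : ℂ) = 2 * (r : ℂ) + 1 := by exact_mod_cast hr
        have hI := Complex.I_mul_I
        rw [pt_false, sq]
        push_cast
        linear_combination (n : ℂ) / 2 * (Real.sqrt l : ℂ) * (Real.sqrt l : ℂ) * hI -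
          (n : ℂ) / 2 * hsC - (n : ℂ) / 2 * hrC
      · intro z hz
        obtain ⟨m, n, rfl⟩ := mem_Rl.1 hz
        refine mem_Rl.2 ⟨-(m * l + n * (r + 1)), 2 * m * l + n * l, ?_⟩
        have hrC : (l : ℂ) = 2 * (r : ℂ) + 1 := by exact_mod_cast hr
        have hI := Complex.I_mul_I
        rw [pt_false, sq]
        push_cast
        have hl1 : (l : ℂ) * (1 / (Real.sqrt l : ℂ)) = (Real.sqrt l : ℂ) := by
          rw [← hsC]
          field_simp
        have h11 : (Real.sqrt l : ℂ) * (1 / (Real.sqrt l : ℂ)) = 1 := by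
          field_simp
        linear_combination (n : ℂ) / 2 * (Real.sqrt l : ℂ) * (1 / (Real.sqrt l : ℂ)) * hI -
          (n : ℂ) / 2 * h11 - (m : ℂ) * Complex.I * hl1 - (n : ℂ) / 2 * Complex.I * hl1 -
          (n : ℂ) / 2 * hrC
  · constructor
    · intro h
      obtain ⟨m, n, e1⟩ := mem_Rl.1 (h 1 (one_mem_Rl true Y))
      obtain ⟨m', n', e2⟩ := mem_Rl.1 (h _ (pt_mem_Rl true Y))
      rw [pt_true] at e1 e2
      have i1 := congrArg Complex.im e1
      have r2 := congrArg Complex.re e2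
      simp [sq] at i1 r2
      have a4 : (l : ℤ) = n * (-m') := by
        have b2 : (l : ℝ) = (n : ℝ) * (-(m' : ℝ)) := by
          have b3 : Real.sqrt l * Y = -(m' : ℝ) := by linarith
          rw [← b3]
          calc (l : ℝ) = Real.sqrt l * Real.sqrt l := hss.symm
            _ = Real.sqrt l * ((n : ℝ) * Y) := by rw [← i1]
            _ = _ := by ring
        exact_mod_cast b2
      exact fin_aux hl hY i1 a4
    · rintro (rfl | rfl)
      · intro z hz
        obtain ⟨m, n, rfl⟩ := mem_Rl.1 hz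
        refine mem_Rl.2 ⟨-(n * l), m, ?_⟩
        have hI := Complex.I_mul_I
        rw [pt_true, sq]
        push_cast
        linear_combination (n : ℂ) * (Real.sqrt l : ℂ) * (Real.sqrt l : ℂ) * hI -
          (n : ℂ) * hsC
      · intro z hz
        obtain ⟨m, n, rfl⟩ := mem_Rl.1 hz
        refine mem_Rl.2 ⟨-n, m * l, ?_⟩
        have hI := Complex.I_mul_I
        rw [pt_true, sq]
        push_cast
        have hl1 : (l : ℂ) * (1 / (Real.sqrt l : ℂ)) = (Real.sqrt l : ℂ) := by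
          rw [← hsC]
          field_simp
        have h11 : (Real.sqrt l : ℂ) * (1 / (Real.sqrt l : ℂ)) = 1 := by
          field_simp
        linear_combination (n : ℂ) * (Real.sqrt l : ℂ) * (1 / (Real.sqrt l : ℂ)) * hI -
          (n : ℂ) * h11 - (m : ℂ) * Complex.I * hl1

private theorem HasSq.smul' {l : ℕ} {L : Submodule ℤ ℂ} (h : HasSq l L) (m : ℂ) :
    HasSq l (m • L) := by
  intro z hz
  rw [Submodule.mem_smul_pointwise_iff_exists] at hz ⊢
  obtain ⟨w, hw, rfl⟩ := hz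
  refine ⟨sq l * w, h w hw, ?_⟩
  simp only [smul_eq_mul]
  ring

theorem root_iff {l : ℕ} (hl : LPrime l) (x : ℝ) :
    aeval x (HH l) = 0 ↔ x = jr true (Real.sqrt l) ∨ x = jr false (Real.sqrt l) := by
  have h2 : l ≠ 2 := by
    rintro rfl
    have := hl.mod8
    omega
  obtain ⟨hs, hss, hs1⟩ := sqrt_facts hl.prime
  have hc : aeval (x : ℂ) (HH l) = ((aeval x (HH l) : ℝ) : ℂ) :=
    aeval_algebraMap_apply ℂ x (HH l)
  have hx : aeval x (HH l) = 0 ↔ aeval (x : ℂ) (HH l) = 0 := by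
    rw [hc, Complex.ofReal_eq_zero]
  rw [hx, (isHH hl).spec]
  constructor
  · rintro ⟨L, hL, hsq, hj⟩
    obtain ⟨t, Y, hY, hjr⟩ := exists_Rl x
    have hY0 : 0 < Y := by linarith
    have he : jL L = jL (Rl t Y) := by
      rw [hj, jL_Rl hY0, hjr]
    obtain ⟨m, -, hm⟩ := exists_smul_of_jL hL (isLat_Rl hY0) he
    have hsq' : HasSq l (Rl t Y) := by
      rw [hm]
      exact HasSq.smul' hsq m
    rcases (hasSq_Rl hl.prime h2 hY0).1 hsq' with h | h
    · subst h
      cases t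
      · exact Or.inr hjr.symm
      · exact Or.inl hjr.symm
    · exfalso
      have : 1 / Real.sqrt l < 1 := by
        rw [div_lt_one hs]
        exact hs1
      linarith
  · rintro (h | h)
    · exact ⟨Rl true (Real.sqrt l), isLat_Rl hs, (hasSq_Rl hl.prime h2 hs).2 (Or.inl rfl), by
        rw [jL_Rl hs, h]⟩
    · exact ⟨Rl false (Real.sqrt l), isLat_Rl hs, (hasSq_Rl hl.prime h2 hs).2 (Or.inl rfl), by
        rw [jL_Rl hs, h]⟩

end Pool.Agent.SS.RK
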