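import Mathlib
import Pool.Agent.Work.MP_a5099b_nt.R.Root
import Pool.Agent.Work.MP_a5099b_nt.R.Poly
import Pool.Agent.Work.MP_a5099b_nt.R.Mono

/-!
# Module R/HSgn (size S-M): the sign of `HH l` at `jr t Y`

PROOF. `B` from `jr_bdd` (for `1/2 ≤ Y ≤ 2`). By `jr_true_lim`, `jr_false_lim` there is `R₀ ≥ 2` with `jr true R > B`, `jr false R < -B` for `R ≥ R₀`. Let `l > R₀²`, `R = √l > R₀`, `r₁ = jr true R > B`, `r₂ = jr false R < -B` (`B ≥ 0`), `r₂ < r₁`. `H := (HH l).map (Int.castRingHom ℝ)` is monic, separable (its image in `ℂ[X]` is separable: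
`(isHH hl).sep`, `Polynomial.separable_map` for the injective `ℝ → ℂ`), its real roots are exactly `r₂, r₁` (`root_iff`; `aeval x F = (F.map _).eval x`, theorem `aeval_eq` in SpecT.lean). `sign_two_roots`: `H x < 0` for `r₂ < x < r₁`, `H x > 0` for `x < r₂` or `x > r₁`.
`Y ≥ 1` first. `1 ≤ Y ≤ 2`: `|jr t Y| ≤ B`, so `r₂ < jr t Y < r₁`, negative (and `Y < R`). `2 ≤ Y < R`, `t = true`: `jr true Y < jr true R = r₁` (`jr_true_mono`), and `jr true Y ≥ jr true 2 ≥ -B > r₂`: negative. `t = false`: `jr false Y > r₂`, `jr false Y ≤ jr false 2 ≤ B < r₁`: negative. `Y > R`, `t = true`: `jr true Y > r₁`: positive;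
`t = false`: `jr false Y < r₂`: positive. For `Y < 1` use `jr_inv` (`Y ↦ 1/Y`).
-/

set_option autoImplicit false

namespace Pool.Agent.SS.RK

open Polynomial UpperHalfPlane
open Pool.Agent.Work.CM

private theorem aev_eq (x : ℝ) (F : ℤ[X]) :
    aeval x F = (F.map (Int.castRingHom ℝ)).eval x := by
  rw [aeval_def, eval_map]
  rfl

private theorem key {l : ℕ} (hl : LPrime l) {B R₀ : ℝ}
    (hB : ∀ (t : Bool) (Y : ℝ), 1 / 2 ≤ Y → Y ≤ 2 → |jr t Y| ≤ B)
    (hR : ∀ R : ℝ, R₀ ≤ R → B < jr true R ∧ jr false R < -B)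
    (h2 : 2 < Real.sqrt l) (h0 : R₀ ≤ Real.sqrt l) (t : Bool) {Y : ℝ} (hY : 1 ≤ Y) :
    (Y < Real.sqrt l → ev (HH l) t Y < 0) ∧ (Real.sqrt l < Y → 0 < ev (HH l) t Y) := by
  obtain ⟨R, hRdef⟩ : ∃ R : ℝ, R = Real.sqrt l := ⟨_, rfl⟩
  rw [← hRdef] at h2 h0 ⊢
  obtain ⟨h1, h1'⟩ := hR R h0
  have hB0 : 0 ≤ B := (abs_nonneg _).trans (hB true 1 (by norm_num) (by norm_num))
  have hab : jr false R < jr true R := by linarith
  have hm : ((HH l).map (Int.castRingHom ℝ)).Monic := (isHH hl).monic.map _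
  have hs : ((HH l).map (Int.castRingHom ℝ)).Separable := by
    rw [← separable_map Complex.ofRealHom, Polynomial.map_map]
    have e : Complex.ofRealHom.comp (Int.castRingHom ℝ) = Int.castRingHom ℂ := RingHom.ext_int _ _
    rw [e]
    exact (isHH hl).sep
  have hr : ∀ x : ℝ, ((HH l).map (Int.castRingHom ℝ)).eval x = 0 ↔
      x = jr false R ∨ x = jr true R := by
    intro x
    rw [← aev_eq, root_iff hl, ← hRdef]
    exact or_comm
  have hsg := sign_two_roots hm hs hab hr (jr t Y)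
  rw [← aev_eq] at hsg
  have hnn : ∀ s : Bool, |jr s 2| ≤ B := fun s => hB s 2 (by norm_num) le_rfl
  constructor
  · intro hlt
    refine hsg.1 ?_ ?_
    · rcases le_or_gt Y 2 with hY2 | hY2
      · have := abs_le.1 (hB t Y (by linarith) hY2)
        linarith [this.1]
      · cases t
        · exact jr_false_anti (Set.mem_Ici.2 hY2.le) (Set.mem_Ici.2 h2.le) hlt
        · have h3 := jr_true_mono (Set.mem_Ici.2 le_rfl) (Set.mem_Ici.2 hY2.le) hY2
          have := abs_le.1 (hnn true)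
          linarith [this.1]
    · rcases le_or_gt Y 2 with hY2 | hY2
      · have := abs_le.1 (hB t Y (by linarith) hY2)
        linarith [this.2]
      · cases t
        · have h3 := jr_false_anti (Set.mem_Ici.2 le_rfl) (Set.mem_Ici.2 hY2.le) hY2
          have := abs_le.1 (hnn false)
          linarith [this.2]
        · exact jr_true_mono (Set.mem_Ici.2 hY2.le) (Set.mem_Ici.2 h2.le) hlt
  · intro hlt
    refine hsg.2 ?_
    cases t
    · left
      exact jr_false_anti (Set.mem_Ici.2 h2.le) (Set.mem_Ici.2 (h2.trans hlt).le) hlt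
    · right
      exact jr_true_mono (Set.mem_Ici.2 h2.le) (Set.mem_Ici.2 (h2.trans hlt).le) hlt

theorem HH_sign : ∃ l₀ : ℕ, ∀ l : ℕ, LPrime l → l₀ < l → ∀ (t : Bool) (Y : ℝ), 0 < Y →
    (1 / Real.sqrt l < Y → Y < Real.sqrt l → ev (HH l) t Y < 0) ∧
    (Real.sqrt l < Y ∨ Y < 1 / Real.sqrt l → 0 < ev (HH l) t Y) := by
  obtain ⟨B, hB⟩ := jr_bdd
  obtain ⟨R₀, hR⟩ := Filter.eventually_atTop.1
    ((jr_true_lim.eventually_gt_atTop B).and (jr_false_lim.eventually_lt_atBot (-B)))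
  obtain ⟨l₀, hl₀⟩ := exists_nat_gt ((max R₀ 2) ^ 2)
  refine ⟨l₀, fun l hl hlt t Y hY => ?_⟩
  have hlt' : (l₀ : ℝ) < l := by exact_mod_cast hlt
  have h1 : max R₀ 2 < Real.sqrt l := Real.lt_sqrt_of_sq_lt (hl₀.trans hlt')
  have h2 : 2 < Real.sqrt l := lt_of_le_of_lt (le_max_right _ _) h1
  have h0 : R₀ ≤ Real.sqrt l := ((le_max_left _ _).trans_lt h1).le
  have hs0 : 0 < Real.sqrt l := by linarith
  have hone : 1 / Real.sqrt l < 1 := by
    rw [div_lt_one hs0]
    linarith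
  rcases le_or_gt 1 Y with hY1 | hY1
  · have hk := key hl hB hR h2 h0 t hY1
    refine ⟨fun _ h => hk.1 h, fun h => ?_⟩
    rcases h with h | h
    · exact hk.2 h
    · exfalso
      linarith
  · have hY1' : 1 ≤ 1 / Y := by
      rw [le_div_iff₀ hY]
      linarith
    have hk := key hl hB hR h2 h0 t hY1'
    have he : ev (HH l) t (1 / Y) = ev (HH l) t Y := by
      unfold ev
      rw [jr_inv hY]
    rw [he] at hk
    refine ⟨fun h _ => hk.1 ?_, fun h => hk.2 ?_⟩
    · rw [div_lt_comm₀ hY hs0]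
      exact h
    · rcases h with h | h
      · exfalso
        linarith
      · rw [lt_div_comm₀ hs0 hY]
        exact h

end Pool.Agent.SS.RK
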