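import Mathlib
import Pool.Agent.Work.MP_a5099b_nt.R.KDefs

/-!
# Module R/LEx (size S): large primes `l = -1 mod m`, `l = 7 mod 8`, `l = 2 mod 3`

PROOF. Dirichlet's theorem (`Nat.forall_exists_prime_gt_and_eq_mod` or `Nat.setOf_prime_and_eq_mod_infinite`) for the class of `-1` modulo `24 m`: a unit. `l ≡ -1 mod 24 m` gives `l % 8 = 7`, `l % 3 = 2`, `m ∣ l + 1`.
-/

set_option autoImplicit false

namespace Pool.Agent.SS.RK

theorem exists_LPrime {m : ℕ} (hm : 0 < m) (B : ℕ) :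
    ∃ l : ℕ, LPrime l ∧ B < l ∧ (m : ℤ) ∣ l + 1 := by
  obtain ⟨l, hl, hp, hmod⟩ := Nat.forall_exists_prime_gt_and_zmodEq B (q := 24 * m) (a := -1)
    (by omega) isCoprime_one_left.neg_left
  have hd : ((24 * m : ℕ) : ℤ) ∣ l + 1 := by
    have h := hmod.symm.dvd
    rwa [sub_neg_eq_add] at h
  have h24 : (24 : ℤ) ∣ l + 1 :=
    dvd_trans ⟨(m : ℤ), by push_cast; ring⟩ hd
  refine ⟨l, ⟨hp, by omega, by omega⟩, hl, dvd_trans ⟨24, by push_cast; ring⟩ hd⟩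

end Pool.Agent.SS.RK
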