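import Mathlib
import Pool.Agent.Work.MP_a5099b_nt.R.KDefs
import Pool.Agent.Work.MP_a5099b_nt.J.HVal

/-!
# Module R/NSgn (size S-M): the sign of the norm, and the sign of the homogenized value

PROOF.
* `norm_neg`: as `norm_pos` in J/Nrm.lean: `(Algebra.norm ℚ x : ℂ) = ∏ φ : K →+* ℂ, φ x`, grouped by infinite places `w`: for a complex place the two embeddings `w.embedding` and its conjugate give `‖w x‖² > 0`; for a real place the fibre is `{w.embedding}`, a real embedding, `w.embedding x = (ρ_w x : ℂ)` with `ρ_w = InfinitePlace.embedding_of_isReal : K →+* ℝ`.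
So the norm is (positive) `* ∏_{w real} ρ_w x`. The map `w ↦ ρ_w` from the real places to `K →+* ℝ` is a bijection (injective: `mk` of the embedding is `w`; surjective: `ρ` gives the place `mk (Complex.ofRealHom.comp ρ)`, which is real). Exactly one factor, the one of `ρ`, is negative.
* `HV_sign`: `HV_map` (J/HVal): `ρ (HV F a b) = HV F (ρ a) (ρ b)`; `HV_field` (see its use in J/Main.lean): `HV F x y = y ^ F.natDegree * aeval (x / y) F` for `y ≠ 0` in a field; the degree is even, so the power is positive.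
-/

set_option autoImplicit false

namespace Pool.Agent.SS.RK

open NumberField IsDedekindDomain Polynomial
open Pool.Agent.SS.J

variable {K : Type} [Field K] [NumberField K]

private theorem nsgn_real (ρ : K →+* ℝ) :
    ComplexEmbedding.IsReal (Complex.ofRealHom.comp ρ) := by
  rw [ComplexEmbedding.isReal_iff]
  ext z
  simp

private theorem nsgn_emb (ρ : K →+* ℝ) :
    (InfinitePlace.mk (Complex.ofRealHom.comp ρ)).embedding = Complex.ofRealHom.comp ρ :=
  InfinitePlace.embedding_mk_eq_of_isReal (nsgn_real ρ)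

private theorem nsgn_place {w : InfinitePlace K} (hw : w.IsReal) (ρ : K →+* ℝ)
    (h : InfinitePlace.embedding_of_isReal hw = ρ) :
    w = InfinitePlace.mk (Complex.ofRealHom.comp ρ) := by
  rw [← InfinitePlace.mk_embedding w]
  congr 1
  ext z
  rw [← InfinitePlace.embedding_of_isReal_apply hw, h]
  rfl

theorem norm_neg (x : 𝓞 K) (ρ : K →+* ℝ) (hρ : ρ x < 0)
    (h : ∀ ρ' : K →+* ℝ, ρ' ≠ ρ → 0 < ρ' x) : Algebra.norm ℤ x < 0 := by
  classical
  let g : InfinitePlace K → ℝ := fun w =>
    if hw : w.IsReal then InfinitePlace.embedding_of_isReal hw (x : K) else (w x) ^ 2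
  have h1 : ((Algebra.norm ℚ (x : K) : ℚ) : ℂ) = ∏ φ : K →+* ℂ, φ x := by
    rw [← eq_ratCast (algebraMap ℚ ℂ), Algebra.norm_eq_prod_embeddings ℚ ℂ (x : K)]
    exact (Fintype.prod_equiv (RingHom.equivRatAlgHom K ℂ) (fun f => f (x : K))
      (fun φ => φ (x : K)) fun _ => by simp [RingHom.equivRatAlgHom_apply]).symm
  have h2 : ∏ φ : K →+* ℂ, φ x = ((∏ w : InfinitePlace K, g w : ℝ) : ℂ) := by
    rw [← Finset.prod_fiberwise Finset.univ InfinitePlace.mk (fun φ : K →+* ℂ => φ (x : K))]
    push_cast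
    refine Finset.prod_congr rfl fun w _ => ?_
    have hf : (Finset.univ.filter fun φ : K →+* ℂ => InfinitePlace.mk φ = w)
        = {w.embedding, ComplexEmbedding.conjugate w.embedding} := by
      ext φ
      simp only [Finset.mem_filter, Finset.mem_univ, true_and, Finset.mem_insert,
        Finset.mem_singleton]
      conv_lhs => rw [← InfinitePlace.mk_embedding w]
      rw [InfinitePlace.mk_eq_iff]
      constructor
      · rintro (h | h)
        · exact Or.inl h
        · right
          rw [← h]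
          ext z
          simp
      · rintro (h | h)
        · exact Or.inl h
        · right
          rw [h]
          ext z
          simp
    rw [hf]
    by_cases hw : w.IsReal
    · have h3 : ComplexEmbedding.conjugate w.embedding = w.embedding :=
        ComplexEmbedding.isReal_iff.mp (InfinitePlace.isReal_iff.mp hw)
      rw [h3, Finset.pair_eq_singleton, Finset.prod_singleton]
      show w.embedding (x : K) = ((g w : ℝ) : ℂ)
      have h4 : g w = InfinitePlace.embedding_of_isReal hw (x : K) := dif_pos hw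
      rw [h4, InfinitePlace.embedding_of_isReal_apply hw]
    · have h4 : g w = (w x) ^ 2 := dif_neg hw
      rw [Finset.prod_pair]
      · rw [ComplexEmbedding.conjugate_coe_eq, Complex.mul_conj, Complex.normSq_eq_norm_sq,
          InfinitePlace.norm_embedding_eq, h4]
      · intro h
        exact hw (InfinitePlace.isReal_iff.mpr (ComplexEmbedding.isReal_iff.mpr h.symm))
  have h3 : (Algebra.norm ℚ (x : K) : ℝ) = ∏ w : InfinitePlace K, g w := by
    have := h1.trans h2
    exact_mod_cast this
  have hx' : (x : K) ≠ 0 := by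
    intro h0
    rw [h0, map_zero] at hρ
    exact lt_irrefl _ hρ
  have h4 : (Algebra.norm ℚ (x : K) : ℝ) < 0 := by
    rw [h3]
    let w0 : InfinitePlace K := InfinitePlace.mk (Complex.ofRealHom.comp ρ)
    have hw0 : w0.IsReal := ⟨_, nsgn_real ρ, rfl⟩
    have e0 : InfinitePlace.embedding_of_isReal hw0 = ρ := by
      ext z
      have := InfinitePlace.embedding_of_isReal_apply hw0 z
      have e1 : w0.embedding = Complex.ofRealHom.comp ρ := nsgn_emb ρ
      rw [e1] at this
      exact Complex.ofReal_injective this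
    rw [← Finset.mul_prod_erase Finset.univ g (Finset.mem_univ w0)]
    refine mul_neg_of_neg_of_pos ?_ ?_
    · have : g w0 = InfinitePlace.embedding_of_isReal hw0 (x : K) := dif_pos hw0
      rw [this, e0]
      exact hρ
    · refine Finset.prod_pos fun w hw => ?_
      have hne : w ≠ w0 := Finset.ne_of_mem_erase hw
      by_cases hr : w.IsReal
      · have : g w = InfinitePlace.embedding_of_isReal hr (x : K) := dif_pos hr
        rw [this]
        refine h _ fun e => hne ?_
        exact nsgn_place hr ρ e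
      · have : g w = (w x) ^ 2 := dif_neg hr
        rw [this]
        exact pow_pos (InfinitePlace.pos_iff.mpr hx') 2
  rw [← Algebra.coe_norm_int] at h4
  exact_mod_cast h4

theorem HV_sign (W : WeierstrassCurve (𝓞 K)) (hW : W.Δ ≠ 0) {F : ℤ[X]} (hF : Even F.natDegree)
    (ρ : K →+* ℝ) :
    (0 < ρ (HV F (W.c₄ ^ 3) W.Δ : 𝓞 K) ↔ 0 < aeval (ρ (jay W)) F) ∧
    (ρ (HV F (W.c₄ ^ 3) W.Δ : 𝓞 K) < 0 ↔ aeval (ρ (jay W)) F < 0) := by
  have hΔ : ((W.Δ : 𝓞 K) : K) ≠ 0 := by
    intro h0
    exact hW (by exact_mod_cast h0)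
  have hρΔ : ρ ((W.Δ : 𝓞 K) : K) ≠ 0 := fun h0 => hΔ ((map_eq_zero ρ).mp h0)
  have key : ρ (HV F (W.c₄ ^ 3) W.Δ : 𝓞 K) =
      (ρ ((W.Δ : 𝓞 K) : K)) ^ F.natDegree * aeval (ρ (jay W)) F := by
    have e1 : ((HV F (W.c₄ ^ 3) W.Δ : 𝓞 K) : K) =
        HV F (((W.c₄ ^ 3 : 𝓞 K)) : K) ((W.Δ : 𝓞 K) : K) :=
      HV_map (algebraMap (𝓞 K) K) F (W.c₄ ^ 3) W.Δ
    rw [e1, HV_map ρ, HV_field F _ _ hρΔ]
    congr 2
    rw [← map_div₀]
    congr 1
  have hpos : 0 < (ρ ((W.Δ : 𝓞 K) : K)) ^ F.natDegree := hF.pow_pos hρΔ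
  rw [key]
  refine ⟨mul_pos_iff_of_pos_left hpos, fun h => ?_, fun h => mul_neg_of_pos_of_neg hpos h⟩
  by_contra h'
  exact absurd (mul_nonneg hpos.le (not_lt.mp h')) (not_le.mpr h)

end Pool.Agent.SS.RK
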