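import Mathlib
import Pool.Agent.Work.MP_a5099b_nt.R.KDefs
import Pool.Agent.Work.MP_a5099b_nt.J.Cm
import Pool.Agent.Work.MP_a5099b_nt.C.EGood
import Pool.Agent.Work.MP_a5099b_nt.A.Lat
import Pool.Agent.Work.CM.Jsu

/-!
# Module R/Nz (size S-M): the iterated polynomials do not vanish at `x`, up to one `l`; algebra of `Tw`

PROOF. The proof of `nonvanish` in J/Cm.lean works word for word, with `(TT q)^[i] (HH l)` replaced by `Tw w (HH l)`, `w` a list of primes (its private lemmas `root_lat, sup_mul, claim, ...` must be copied; in the claim the induction is on `w`: if `aeval (jL L) (Tw w (HH l)) = 0` then there is `t > 0` with `t √(-l) L ⊂ L`; the step is the same for every prime).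
`hom` and `sur` there are now theorems: `exists_smul_of_jL`, `exists_jL` (A/Lat).
`Tw_mul`: induction with `TT_mul`. `Tw_append`: `List.foldr_append`. `Tw_good`: induction with `Good.TT` (C/EGood).
-/

set_option autoImplicit false

namespace Pool.Agent.SS.RK

open Polynomial UpperHalfPlane
open Pool.Agent.Work.CM
open scoped Pointwise

private theorem root_lat {q : ℕ} (hq : q.Prime) {L : Submodule ℤ ℂ} (hL : IsLat L) {y : ℂ}
    (hy : (PhiAt q (jL L)).eval y = 0) : ∃ L', Sup q L L' ∧ jL L' = y := by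
  by_contra hcon
  push Not at hcon
  rw [PhiAt_lat hq hL] at hy
  revert hy
  refine finprod_mem_induction (p := fun P : ℂ[X] => P.eval y ≠ 0) ?_ ?_ ?_
  · simp
  · intro P Q hP hQ
    rw [eval_mul]
    exact mul_ne_zero hP hQ
  · intro L' hL'
    rw [eval_sub, eval_X, eval_C, sub_ne_zero]
    exact fun h => hcon L' hL' h.symm

private theorem sup_mul {q : ℕ} {L L' : Submodule ℤ ℂ} (h : Sup q L L') {z : ℂ} (hz : z ∈ L') :
    (q : ℂ) * z ∈ L := by
  have h1 := AddSubgroup.nsmul_relIndex_mem L.toAddSubgroup (K := L'.toAddSubgroup) (g := z) hz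
  rw [h.idx, nsmul_eq_mul] at h1
  exact h1

private theorem hom' (L L' : Submodule ℤ ℂ) (hL : IsLat L) (hL' : IsLat L') (h : jL L = jL L') :
    ∃ c : ℂ, c ≠ 0 ∧ ∀ z, z ∈ L ↔ c * z ∈ L' := by
  obtain ⟨m, hm, rfl⟩ := exists_smul_of_jL hL hL' h
  refine ⟨m, hm, fun z => ?_⟩
  rw [← smul_eq_mul m z]
  constructor
  · intro hz
    exact Submodule.smul_mem_pointwise_smul z m L hz
  · intro hz
    obtain ⟨y, hy, hyz⟩ := (Submodule.mem_smul_pointwise_iff_exists _ _ _).1 hz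
    have h1 : y = z := by
      rw [smul_eq_mul, smul_eq_mul] at hyz
      exact mul_left_cancel₀ hm hyz
    rw [← h1]
    exact hy

private theorem claim {l : ℕ} (hl : LPrime l) (w : List ℕ) (hw : ∀ n ∈ w, n.Prime) :
    ∀ L : Submodule ℤ ℂ, IsLat L → aeval (jL L) (Tw w (HH l)) = 0 →
      ∃ t : ℕ, 0 < t ∧ ∀ z ∈ L, (t : ℂ) * sq l * z ∈ L := by
  induction w with
  | nil =>
    intro L hL h
    obtain ⟨L', hL', hsq, hj⟩ := ((isHH hl).spec (jL L)).1 h
    obtain ⟨c, hc, hcz⟩ := hom' L L' hL hL' hj.symm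
    refine ⟨1, one_pos, fun z hz => ?_⟩
    have h1 := hsq _ ((hcz z).1 hz)
    rw [hcz]
    have e : c * (((1 : ℕ) : ℂ) * sq l * z) = sq l * (c * z) := by push_cast; ring
    rw [e]
    exact h1
  | cons q w ih =>
    intro L hL h
    have hq : q.Prime := hw q (by simp)
    rw [Tw_cons, TT_aeval_alg hq] at h
    rw [Multiset.prod_eq_zero_iff] at h
    obtain ⟨y, hy, hy0⟩ := Multiset.mem_map.1 h
    have hroot : (PhiAt q (jL L)).eval y = 0 := (mem_roots'.1 hy).2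
    obtain ⟨L', hL', rfl⟩ := root_lat hq hL hroot
    obtain ⟨t, ht, htz⟩ := ih (fun n hn => hw n (List.mem_cons_of_mem _ hn)) L' hL'.lat' hy0
    refine ⟨q * t, Nat.mul_pos hq.pos ht, fun z hz => ?_⟩
    have h1 := sup_mul hL' (htz z (hL'.le hz))
    have e : ((q * t : ℕ) : ℂ) * sq l * z = (q : ℂ) * ((t : ℂ) * sq l * z) := by push_cast; ring
    rw [e]
    exact h1

private theorem not_sq {l l1 : ℕ} (hl : l.Prime) (hl1 : l1.Prime) (hne : l ≠ l1) {t m : ℕ}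
    (ht : 0 < t) (h : m ^ 2 = t ^ 2 * (l * l1)) : False := by
  have h1 : t ^ 2 ∣ m ^ 2 := ⟨_, h⟩
  have h2 : t ∣ m := (Nat.pow_dvd_pow_iff two_ne_zero).1 h1
  obtain ⟨k, rfl⟩ := h2
  have h3 : k ^ 2 = l * l1 := by
    have : t ^ 2 * k ^ 2 = t ^ 2 * (l * l1) := by rw [← h]; ring
    exact Nat.eq_of_mul_eq_mul_left (by positivity) this
  have h4 : l ∣ k := hl.dvd_of_dvd_pow (n := 2) ⟨l1, h3⟩
  obtain ⟨r, rfl⟩ := h4
  have h5 : l * r ^ 2 = l1 := by
    have : l * (l * r ^ 2) = l * l1 := by rw [← h3]; ring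
    exact Nat.eq_of_mul_eq_mul_left hl.pos this
  have h6 : l ∣ l1 := ⟨_, h5.symm⟩
  exact hne ((Nat.prime_dvd_prime_iff_eq hl hl1).1 h6)

private theorem two_sq {L : Submodule ℤ ℂ} (hL : IsLat L) {l l1 : ℕ} (hl : l.Prime)
    (hl1 : l1.Prime) (hne : l ≠ l1) {t t1 : ℕ} (ht : 0 < t) (ht1 : 0 < t1)
    (h : ∀ z ∈ L, (t : ℂ) * sq l * z ∈ L) (h1 : ∀ z ∈ L, (t1 : ℂ) * sq l1 * z ∈ L) : False := by
  obtain ⟨P, rfl⟩ := hL
  obtain ⟨r, hr⟩ : ∃ r : ℝ, r = t * t1 * (Real.sqrt l * Real.sqrt l1) := ⟨_, rfl⟩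
  have hmem : (t1 : ℂ) * sq l1 * ((t : ℂ) * sq l * P.ω₁) ∈ P.lattice :=
    h1 _ (h _ P.ω₁_mem_lattice)
  have e : (t1 : ℂ) * sq l1 * ((t : ℂ) * sq l * P.ω₁) = ((-r : ℝ) : ℂ) * P.ω₁ := by
    unfold sq
    rw [hr]
    push_cast
    linear_combination ((t1 : ℂ) * t * (Real.sqrt l * Real.sqrt l1) * P.ω₁) * Complex.I_mul_I
  rw [e, PeriodPair.mem_lattice] at hmem
  obtain ⟨m, n, hmn⟩ := hmem
  have hli := LinearIndependent.pair_iff.1 P.indep (m + r) n (by
    rw [Complex.real_smul, Complex.real_smul]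
    push_cast
    push_cast at hmn
    linear_combination hmn)
  have hm : (m : ℝ) = -r := by linarith [hli.1]
  have h2 : (m : ℝ) ^ 2 = (t * t1) ^ 2 * (l * l1) := by
    rw [hm, hr]
    have e1 : Real.sqrt l ^ 2 = l := Real.sq_sqrt (Nat.cast_nonneg _)
    have e2 : Real.sqrt l1 ^ 2 = l1 := Real.sq_sqrt (Nat.cast_nonneg _)
    calc (-(t * t1 * (Real.sqrt l * Real.sqrt l1))) ^ 2 =
        (t * t1) ^ 2 * (Real.sqrt l ^ 2 * Real.sqrt l1 ^ 2) := by ring
      _ = _ := by rw [e1, e2]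
  have h3 : m.natAbs ^ 2 = (t * t1) ^ 2 * (l * l1) := by
    have : (m : ℤ) ^ 2 = (((t * t1) ^ 2 * (l * l1) : ℕ) : ℤ) := by
      have h4 : ((m ^ 2 : ℤ) : ℝ) = (((t * t1) ^ 2 * (l * l1) : ℕ) : ℤ) := by
        push_cast
        exact h2
      exact_mod_cast h4
    zify
    rw [sq_abs]
    exact_mod_cast this
  exact not_sq hl hl1 hne (Nat.mul_pos ht ht1) h3

theorem Tw_append (w w' : List ℕ) (F : ℤ[X]) : Tw (w ++ w') F = Tw w (Tw w' F) := by
  unfold Tw
  rw [List.foldr_append]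

theorem Tw_mul {w : List ℕ} (hw : ∀ n ∈ w, n.Prime) (F G : ℤ[X]) :
    Tw w (F * G) = Tw w F * Tw w G := by
  induction w with
  | nil => rfl
  | cons q w ih =>
    rw [Tw_cons, Tw_cons, Tw_cons, ih fun n hn => hw n (List.mem_cons_of_mem _ hn),
      TT_mul (hw q (by simp))]

theorem Tw_good {l : ℕ} {w : List ℕ} (hw : ∀ n ∈ w, n.Prime) {F : ℤ[X]} (hF : Good l F) :
    Good l (Tw w F) := by
  induction w with
  | nil => exact hF
  | cons q w ih =>
    rw [Tw_cons]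
    exact Good.TT (hw q (by simp)) (ih fun n hn => hw n (List.mem_cons_of_mem _ hn))

theorem nonvanish_words (x : ℂ) : ∃ B : ℕ, ∀ l : ℕ, LPrime l → B < l → ∀ w : List ℕ,
    (∀ n ∈ w, n.Prime) → aeval x (Tw w (HH l)) ≠ 0 := by
  obtain ⟨τ, rfl⟩ := exists_jL x
  set L : Submodule ℤ ℂ := tauLat τ with hLdef
  have hL : IsLat L := tauLat_isLat τ
  by_cases hex : ∃ l1, LPrime l1 ∧ ∃ w : List ℕ, (∀ n ∈ w, n.Prime) ∧ aeval (jL L) (Tw w (HH l1)) = 0
  · obtain ⟨l1, hl1, w1, hw1, h1⟩ := hex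
    refine ⟨l1, fun l hl hlt w hw h => ?_⟩
    obtain ⟨t, ht, htz⟩ := claim hl w hw L hL h
    obtain ⟨t1, ht1, htz1⟩ := claim hl1 w1 hw1 L hL h1
    exact two_sq hL hl.prime hl1.prime hlt.ne' ht ht1 htz htz1
  · push Not at hex
    exact ⟨0, fun l hl _ w hw => hex l hl w hw⟩

end Pool.Agent.SS.RK
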