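import Mathlib
import Pool.Agent.Work.MP_a5099b_nt.R.Conj
import Pool.Agent.Work.MP_a5099b_nt.SpecT
import Pool.Agent.Work.MP_a5099b_nt.SpecB
import Pool.Agent.Work.MP_a5099b_nt.B.SupF

/-!
# Module R/TTo (size M): the values of `TT n F` at the real lattices

PROOF. `TT_lat` : `PhiAt_supF` : `PhiAt n (jL L) = ∏ L' ∈ supF n L, (X - C (jL L'))`; `TT_aeval` (SpecT) with the multiset `(supF n L).val.map jL` gives `aeval (jL L) (TT n F) = ∏ L' ∈ supF n L, aeval (jL L') F`; and `prod_supF_tauLat` (B/SupF).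
Let `τ = pt t Y` (`Rl_eq`), `g b := aeval (jL (supb n τ b)) F`, `b` an integer; `supb n τ b = ℤ (τ + b)/n + ℤ` depends only on `b` mod `n`, and conjugation (`jL_conj'`) maps `supb n τ b` to the lattice `ℤ (c τ + b)/n + ℤ`: for `t = true` `c τ = -τ`: it is `supb n τ (-b)`; for `t = false` `c τ = 1 - τ`: `ℤ (1 - τ + b)/n + ℤ = supb n τ (-1-b)`.
So `g (-b) = c (g b)` (`t = true`) and `g (-1-b) = c (g b)` (`t = false`) (`aeval (c z) F = c (aeval z F)` as `F` has integer coefficients).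
* `n` odd, `t = true`: `supi n τ = (1/n) • Rl true (n Y)` (`ℤ iY + ℤ/n`), `supb n τ 0 = Rl true (Y/n)`. `∏_{b = 1}^{n-1} g b = ∏_{b=1}^{(n-1)/2} g b g (n - b) = ∏ |g b|² =: P ≥ 0` (real). With `aeval_jL` and `jL_smul` the claim.
* `n` odd, `t = false`: `supi n τ = ℤ (1 + iY)/2 + ℤ/n = (1/n) • (ℤ n (1 + iY)/2 + ℤ) = (1/n) • Rl false (n Y)` as `n (1 + iY)/2 = (1 + i n Y)/2 + (n-1)/2`; the fixed `b` is `b₀ = (n-1)/2`: `((1 + iY)/2 + (n-1)/2)/n = (1 + iY/n)/2`, so `supb n τ b₀ = Rl false (Y/n)`; the other `b` in `0..n-1` are paired by `b ↦ n - 1 - b`.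
(For the products: `Finset.prod_involution`-like; or show: a finite product of complex numbers over a finite set `S` with an involution `ι` without fixed points and `g (ι b) = c (g b)` is a real number `≥ 0`: its value is `∏_{b ∈ S, b < ι b} |g b|²`.)
* `n = 2`, `t = true`: `supi = (1/2) • Rl true (2Y)`, `supb 0 = Rl true (Y/2)`, `supb 1 = ℤ (iY + 1)/2 + ℤ = Rl false Y`. `n = 2`, `t = false`: `supi = ℤ (1+iY)/2 + ℤ/2 = (1/2) • (ℤ (1 + iY) + ℤ) = (1/2) • Rl true Y`, and `g 1 = c (g 0)`: `P = |g 0|²`.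
-/

set_option autoImplicit false

namespace Pool.Agent.SS.RK

open Polynomial UpperHalfPlane
open Pool.Agent.Work.CM
open scoped Pointwise

theorem TT_lat {n : ℕ} (hn : n.Prime) {L : Submodule ℤ ℂ} (hL : IsLat L) (F : ℤ[X]) :
    aeval (jL L) (TT n F) = ∏ L' ∈ supF n L, aeval (jL L') F := by
  have h := TT_aeval hn (jL L) ((supF n L).val.map jL) (by
    rw [PhiAt_supF hn hL, Multiset.map_map]
    rfl) F
  rw [h, Multiset.map_map]
  rfl

private theorem mem_sp {u v z : ℂ} :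
    z ∈ Submodule.span ℤ ({u, v} : Set ℂ) ↔ ∃ a b : ℤ, z = a * u + b * v := by
  rw [Submodule.mem_span_pair]
  constructor
  · rintro ⟨a, b, h⟩
    exact ⟨a, b, by rw [← h]; simp only [zsmul_eq_mul]⟩
  · rintro ⟨a, b, h⟩
    exact ⟨a, b, by rw [h]; simp only [zsmul_eq_mul]⟩

private theorem supb_per (n : ℕ) (hn : (n : ℂ) ≠ 0) (τ : ℍ) (b : ℤ) :
    supb n τ (b + n) = supb n τ b := by
  have e : ((τ : ℂ) + ((b + n : ℤ) : ℂ)) / n = ((τ : ℂ) + b) / n + 1 := by
    push_cast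
    field_simp
    ring
  ext z
  unfold supb
  rw [mem_sp, mem_sp]
  constructor
  · rintro ⟨a, c, h⟩
    refine ⟨a, a + c, ?_⟩
    rw [h, e]
    push_cast
    ring
  · rintro ⟨a, c, h⟩
    refine ⟨a, c - a, ?_⟩
    rw [h, e]
    push_cast
    ring

private theorem supb_conj (n : ℕ) (τ : ℍ) (c b : ℤ)
    (hc : starRingEnd ℂ (τ : ℂ) = c - (τ : ℂ)) (z : ℂ) :
    z ∈ supb n τ (-c - b) ↔ starRingEnd ℂ z ∈ supb n τ b := by
  have e : starRingEnd ℂ (((τ : ℂ) + ((-c - b : ℤ) : ℂ)) / n) = -(((τ : ℂ) + b) / n) := by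
    rw [map_div₀, map_add, hc, map_intCast, map_natCast]
    push_cast
    ring
  unfold supb
  rw [mem_sp, mem_sp]
  constructor
  · rintro ⟨a, d, h⟩
    refine ⟨-a, d, ?_⟩
    rw [h, map_add, map_mul, map_mul, map_intCast, map_intCast, map_one, e]
    push_cast
    ring
  · rintro ⟨a, d, h⟩
    refine ⟨-a, d, ?_⟩
    have h' := congrArg (starRingEnd ℂ) h
    rw [Complex.conj_conj] at h'
    rw [h', map_add, map_mul, map_mul, map_intCast, map_intCast, map_one]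
    have e' := congrArg (starRingEnd ℂ) e
    rw [Complex.conj_conj, map_neg] at e'
    rw [e']
    push_cast
    ring

private theorem aeval_conj (x : ℂ) (F : ℤ[X]) :
    aeval (starRingEnd ℂ x) F = starRingEnd ℂ (aeval x F) := by
  rw [aeval_def, aeval_def, Polynomial.hom_eval₂]
  have h : algebraMap ℤ ℂ = (starRingEnd ℂ).comp (algebraMap ℤ ℂ) := RingHom.ext_int _ _
  rw [← h]

private theorem g_conj {n : ℕ} (hn : n.Prime) (τ : ℍ) (c b : ℤ)
    (hc : starRingEnd ℂ (τ : ℂ) = c - (τ : ℂ)) (F : ℤ[X]) :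
    aeval (jL (supb n τ (-c - b))) F = starRingEnd ℂ (aeval (jL (supb n τ b)) F) := by
  rw [(jL_conj' (Sup_supb hn τ b).lat' (supb_conj n τ c b hc)).2, aeval_conj]

private theorem jL_supi_of {n : ℕ} (hn : (n : ℂ) ≠ 0) (τ : ℍ) (w : ℂ) (k : ℤ)
    (hw : w = n * (τ : ℂ) - k) (hL : IsLat (Submodule.span ℤ ({w, 1} : Set ℂ))) :
    jL (supi n τ) = jL (Submodule.span ℤ ({w, 1} : Set ℂ)) := by
  have hm : (1 / (n : ℂ)) ≠ 0 := one_div_ne_zero hn
  rw [← jL_smul hL hm]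
  congr 1
  ext z
  rw [Submodule.mem_smul_pointwise_iff_exists]
  unfold supi
  rw [mem_sp]
  constructor
  · rintro ⟨a, b, h⟩
    refine ⟨a * w + (a * k + b : ℤ) * 1, mem_sp.2 ⟨a, a * k + b, rfl⟩, ?_⟩
    rw [h, hw, smul_eq_mul]
    push_cast
    field_simp
    ring
  · rintro ⟨s, hs, h⟩
    obtain ⟨a, b, hs⟩ := mem_sp.1 hs
    refine ⟨a, b - a * k, ?_⟩
    rw [← h, hs, hw, smul_eq_mul]
    push_cast
    field_simp
    ring

private theorem prod_pair (H H' : ℕ → ℂ) (k : ℕ)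
    (h : ∀ b < k, H' (k - 1 - b) = starRingEnd ℂ (H b)) :
    (∏ b ∈ Finset.range k, H b) * ∏ b ∈ Finset.range k, H' b =
      ((Complex.normSq (∏ b ∈ Finset.range k, H b) : ℝ) : ℂ) := by
  rw [← Finset.prod_range_reflect H' k,
    Finset.prod_congr rfl fun b hb => h b (Finset.mem_range.1 hb), ← map_prod, Complex.mul_conj]

private theorem conj_pt_true (Y : ℝ) :
    starRingEnd ℂ (pt true Y) = ((0 : ℤ) : ℂ) - pt true Y := by
  simp

private theorem conj_pt_false (Y : ℝ) :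
    starRingEnd ℂ (pt false Y) = ((1 : ℤ) : ℂ) - pt false Y := by
  have h2 : starRingEnd ℂ (2 : ℂ) = 2 := map_ofNat _ _
  simp only [pt_false, map_add, map_mul, map_div₀, map_one, Complex.conj_I, Complex.conj_ofReal, h2]
  push_cast
  ring

private theorem ev_TT_prod {n : ℕ} (hn : n.Prime) (F : ℤ[X]) (t : Bool) {Y : ℝ} (hY : 0 < Y) :
    ((ev (TT n F) t Y : ℝ) : ℂ) = aeval (jL (supi n ⟨pt t Y, pt_im hY⟩)) F *
      ∏ b ∈ Finset.range n, aeval (jL (supb n ⟨pt t Y, pt_im hY⟩ (b : ℤ))) F := by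
  rw [← aeval_jL hY, TT_lat hn (isLat_Rl hY), Rl_eq hY,
    prod_supF_tauLat hn ⟨pt t Y, pt_im hY⟩ (fun L' => aeval (jL L') F)]

theorem ev_TT {n : ℕ} (hn : n.Prime) (h2 : n ≠ 2) (F : ℤ[X]) (t : Bool) {Y : ℝ} (hY : 0 < Y) :
    ∃ P : ℝ, 0 ≤ P ∧ ev (TT n F) t Y = P * (ev F t (n * Y) * ev F t (Y / n)) := by
  have hn0 : (n : ℂ) ≠ 0 := Nat.cast_ne_zero.2 hn.ne_zero
  have hnR : (0 : ℝ) < n := Nat.cast_pos.2 hn.pos
  have hY1 : 0 < (n : ℝ) * Y := mul_pos hnR hY
  have hY2 : 0 < Y / (n : ℝ) := div_pos hY hnR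
  obtain ⟨k, hk⟩ := hn.odd_of_ne_two h2
  have hk' : (n : ℂ) = 2 * k + 1 := by
    rw [hk]
    push_cast
    ring
  have hE := ev_TT_prod hn F t hY
  set τ : ℍ := ⟨pt t Y, pt_im hY⟩ with hτ
  have hτc : (τ : ℂ) = pt t Y := rfl
  cases t with
  | true =>
    have h1 : aeval (jL (supi n τ)) F = ((ev F true (n * Y) : ℝ) : ℂ) := by
      rw [jL_supi_of hn0 τ (pt true (n * Y)) 0 (by rw [hτc, pt_true, pt_true]; push_cast; ring)
        (isLat_Rl hY1)]
      exact aeval_jL hY1 F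
    have h3 : aeval (jL (supb n τ ((0 : ℕ) : ℤ))) F = ((ev F true (Y / n) : ℝ) : ℂ) := by
      have e : supb n τ ((0 : ℕ) : ℤ) = Rl true (Y / n) := by
        have e1 : ((τ : ℂ) + (((0 : ℕ) : ℤ) : ℂ)) / n = pt true (Y / n) := by
          rw [hτc, pt_true, pt_true]
          push_cast
          ring
        unfold supb Rl
        rw [e1]
      rw [e]
      exact aeval_jL hY2 F
    have h4 : ∀ b < k, aeval (jL (supb n τ (((k - 1 - b) + k + 1 : ℕ) : ℤ))) F =
        starRingEnd ℂ (aeval (jL (supb n τ ((b + 1 : ℕ) : ℤ))) F) := by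
      intro b hb
      have e1 : k - 1 - b + k + 1 + (b + 1) = n := by omega
      have e2 : (((k - 1 - b + k + 1 : ℕ) : ℤ)) + ((b + 1 : ℕ) : ℤ) = (n : ℤ) := by
        exact_mod_cast e1
      have e3 : (((k - 1 - b + k + 1 : ℕ) : ℤ)) = -0 - ((b + 1 : ℕ) : ℤ) + (n : ℤ) := by linarith
      rw [← g_conj hn τ 0 _ (conj_pt_true Y) F, e3, supb_per n hn0]
    refine ⟨Complex.normSq (∏ b ∈ Finset.range k, aeval (jL (supb n τ ((b + 1 : ℕ) : ℤ))) F),
      Complex.normSq_nonneg _, ?_⟩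
    have h5 := prod_pair (fun b : ℕ => aeval (jL (supb n τ ((b + 1 : ℕ) : ℤ))) F)
      (fun b : ℕ => aeval (jL (supb n τ ((b + k + 1 : ℕ) : ℤ))) F) k h4
    have h6 : ∏ b ∈ Finset.range n, aeval (jL (supb n τ (b : ℤ))) F =
        ((Complex.normSq (∏ b ∈ Finset.range k, aeval (jL (supb n τ ((b + 1 : ℕ) : ℤ))) F) : ℝ) : ℂ)
          * aeval (jL (supb n τ ((0 : ℕ) : ℤ))) F := by
      rw [← h5]
      have e : n = k + k + 1 := by omega
      have e0 : Finset.range n = Finset.range (k + k + 1) := by rw [← e]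
      rw [e0, Finset.prod_range_succ', Finset.prod_range_add]
      congr 2
      refine Finset.prod_congr rfl fun b _ => ?_
      rw [show k + b + 1 = b + k + 1 from by omega]
    have h7 : ((ev (TT n F) true Y : ℝ) : ℂ) =
        ((Complex.normSq (∏ b ∈ Finset.range k, aeval (jL (supb n τ ((b + 1 : ℕ) : ℤ))) F) *
          (ev F true (n * Y) * ev F true (Y / n)) : ℝ) : ℂ) := by
      rw [hE, h6, h1, h3]
      push_cast
      ring
    exact_mod_cast h7
  | false =>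
    have h1 : aeval (jL (supi n τ)) F = ((ev F false (n * Y) : ℝ) : ℂ) := by
      rw [jL_supi_of hn0 τ (pt false (n * Y)) k
        (by rw [hτc, pt_false, pt_false]; push_cast; rw [hk']; ring)
        (isLat_Rl hY1)]
      exact aeval_jL hY1 F
    have h3 : aeval (jL (supb n τ ((k : ℕ) : ℤ))) F = ((ev F false (Y / n) : ℝ) : ℂ) := by
      have e : supb n τ ((k : ℕ) : ℤ) = Rl false (Y / n) := by
        have e1 : ((τ : ℂ) + (((k : ℕ) : ℤ) : ℂ)) / n = pt false (Y / n) := by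
          rw [hτc, pt_false, pt_false]
          push_cast
          field_simp
          rw [hk']
          ring
        unfold supb Rl
        rw [e1]
      rw [e]
      exact aeval_jL hY2 F
    have h4 : ∀ b < k, aeval (jL (supb n τ (((k - 1 - b) + k + 1 : ℕ) : ℤ))) F =
        starRingEnd ℂ (aeval (jL (supb n τ ((b : ℕ) : ℤ))) F) := by
      intro b hb
      have e1 : k - 1 - b + k + 1 + (b + 1) = n := by omega
      have e2 : (((k - 1 - b + k + 1 : ℕ) : ℤ)) + ((b : ℤ) + 1) = (n : ℤ) := by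
        exact_mod_cast e1
      have e3 : (((k - 1 - b + k + 1 : ℕ) : ℤ)) = -1 - (b : ℤ) + (n : ℤ) := by linarith
      rw [← g_conj hn τ 1 _ (conj_pt_false Y) F, e3, supb_per n hn0]
    refine ⟨Complex.normSq (∏ b ∈ Finset.range k, aeval (jL (supb n τ ((b : ℕ) : ℤ))) F),
      Complex.normSq_nonneg _, ?_⟩
    have h5 := prod_pair (fun b : ℕ => aeval (jL (supb n τ ((b : ℕ) : ℤ))) F)
      (fun b : ℕ => aeval (jL (supb n τ ((b + k + 1 : ℕ) : ℤ))) F) k h4
    have h6 : ∏ b ∈ Finset.range n, aeval (jL (supb n τ (b : ℤ))) F =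
        ((Complex.normSq (∏ b ∈ Finset.range k, aeval (jL (supb n τ ((b : ℕ) : ℤ))) F) : ℝ) : ℂ)
          * aeval (jL (supb n τ ((k : ℕ) : ℤ))) F := by
      rw [← h5]
      have e : n = (k + 1) + k := by omega
      have e0 : Finset.range n = Finset.range ((k + 1) + k) := by rw [← e]
      rw [e0, Finset.prod_range_add, Finset.prod_range_succ]
      have e3 : ∏ b ∈ Finset.range k, aeval (jL (supb n τ ((k + 1 + b : ℕ) : ℤ))) F =
          ∏ b ∈ Finset.range k, aeval (jL (supb n τ ((b + k + 1 : ℕ) : ℤ))) F := by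
        refine Finset.prod_congr rfl fun b _ => ?_
        rw [show k + 1 + b = b + k + 1 from by omega]
      rw [e3]
      ring
    have h7 : ((ev (TT n F) false Y : ℝ) : ℂ) =
        ((Complex.normSq (∏ b ∈ Finset.range k, aeval (jL (supb n τ ((b : ℕ) : ℤ))) F) *
          (ev F false (n * Y) * ev F false (Y / n)) : ℝ) : ℂ) := by
      rw [hE, h6, h1, h3]
      push_cast
      ring
    exact_mod_cast h7

theorem ev_TT2_true (F : ℤ[X]) {Y : ℝ} (hY : 0 < Y) :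
    ev (TT 2 F) true Y = ev F true (2 * Y) * ev F true (Y / 2) * ev F false Y := by
  have hn : Nat.Prime 2 := Nat.prime_two
  have hn0 : ((2 : ℕ) : ℂ) ≠ 0 := by norm_num
  have hY1 : 0 < 2 * Y := by linarith
  have hY2 : 0 < Y / 2 := by linarith
  have hE := ev_TT_prod hn F true hY
  set τ : ℍ := ⟨pt true Y, pt_im hY⟩ with hτ
  have hτc : (τ : ℂ) = pt true Y := rfl
  have h1 : aeval (jL (supi 2 τ)) F = ((ev F true (2 * Y) : ℝ) : ℂ) := by
    rw [jL_supi_of hn0 τ (pt true (2 * Y)) 0 (by rw [hτc, pt_true, pt_true]; push_cast; ring)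
      (isLat_Rl hY1)]
    exact aeval_jL hY1 F
  have h2 : aeval (jL (supb 2 τ ((0 : ℕ) : ℤ))) F = ((ev F true (Y / 2) : ℝ) : ℂ) := by
    have e : supb 2 τ ((0 : ℕ) : ℤ) = Rl true (Y / 2) := by
      have e1 : ((τ : ℂ) + (((0 : ℕ) : ℤ) : ℂ)) / ((2 : ℕ) : ℂ) = pt true (Y / 2) := by
        rw [hτc, pt_true, pt_true]
        push_cast
        ring
      unfold supb Rl
      rw [e1]
    rw [e]
    exact aeval_jL hY2 F
  have h3 : aeval (jL (supb 2 τ ((1 : ℕ) : ℤ))) F = ((ev F false Y : ℝ) : ℂ) := by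
    have e : supb 2 τ ((1 : ℕ) : ℤ) = Rl false Y := by
      have e1 : ((τ : ℂ) + (((1 : ℕ) : ℤ) : ℂ)) / ((2 : ℕ) : ℂ) = pt false Y := by
        rw [hτc, pt_true, pt_false]
        push_cast
        ring
      unfold supb Rl
      rw [e1]
    rw [e]
    exact aeval_jL hY F
  have h7 : ((ev (TT 2 F) true Y : ℝ) : ℂ) =
      ((ev F true (2 * Y) * ev F true (Y / 2) * ev F false Y : ℝ) : ℂ) := by
    rw [hE, Finset.prod_range_succ, Finset.prod_range_one, h1, h2, h3]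
    push_cast
    ring
  exact_mod_cast h7

theorem ev_TT2_false (F : ℤ[X]) {Y : ℝ} (hY : 0 < Y) :
    ∃ P : ℝ, 0 ≤ P ∧ ev (TT 2 F) false Y = P * ev F true Y := by
  have hn : Nat.Prime 2 := Nat.prime_two
  have hn0 : ((2 : ℕ) : ℂ) ≠ 0 := by norm_num
  have hE := ev_TT_prod hn F false hY
  set τ : ℍ := ⟨pt false Y, pt_im hY⟩ with hτ
  have hτc : (τ : ℂ) = pt false Y := rfl
  have h1 : aeval (jL (supi 2 τ)) F = ((ev F true Y : ℝ) : ℂ) := by
    rw [jL_supi_of hn0 τ (pt true Y) 1 (by rw [hτc, pt_true, pt_false]; push_cast; ring)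
      (isLat_Rl hY)]
    exact aeval_jL hY F
  have h3 : aeval (jL (supb 2 τ ((1 : ℕ) : ℤ))) F =
      starRingEnd ℂ (aeval (jL (supb 2 τ ((0 : ℕ) : ℤ))) F) := by
    have e3 : ((1 : ℕ) : ℤ) = -1 - ((0 : ℕ) : ℤ) + ((2 : ℕ) : ℤ) := by norm_num
    rw [← g_conj hn τ 1 _ (conj_pt_false Y) F, e3, supb_per 2 hn0]
  refine ⟨Complex.normSq (aeval (jL (supb 2 τ ((0 : ℕ) : ℤ))) F), Complex.normSq_nonneg _, ?_⟩
  have h7 : ((ev (TT 2 F) false Y : ℝ) : ℂ) =
      ((Complex.normSq (aeval (jL (supb 2 τ ((0 : ℕ) : ℤ))) F) * ev F true Y : ℝ) : ℂ) := by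
    rw [hE, Finset.prod_range_succ, Finset.prod_range_one, h1, h3, Complex.mul_conj]
    push_cast
    ring
  exact_mod_cast h7

end Pool.Agent.SS.RK
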