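import Mathlib
import Pool.Agent.Work.MP_a5099b_nt.R.TTo
import Pool.Agent.Work.MP_a5099b_nt.R.HSgn

/-!
# Module R/Pat (size S-M): the sign patterns of the two starting polynomials

PROOF. `R = √l`, `l > l₀` and `l > 16`, so `R > 4`; `s t Y := ev (HH l) t Y`: by `HH_sign`: `s < 0` for `1/R < Y < R`, `s > 0` for `Y > R` or `Y < 1/R` (`0 < Y`), for both `t`; at `Y = R` and `Y = 1/R` we have `s t Y = 0` (`root_iff` for `Y = R`, `jr_inv`), but this is only needed in the form: `s true Y * s false Y ≥ 0` for all `Y > 0` (equal signs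
outside `{R, 1/R}`, and there both are `0`: `root_iff (←)`).
* `pat1_false`: `ev (HH l * TT 2 (HH l)) false Y = s false Y * (P * s true Y)` (`ev_TT2_false`; `ev` is multiplicative: `map_mul`), `≥ 0`.
* `pat1_true`: `ev (..) true Y = (s true Y * s false Y) * (s true (2Y) * s true (Y/2))`. First factor `≥ 0`. `2/R < Y < R/2`: `1/R < Y/2, 2Y < R`: `s true (2Y) < 0` and `s true (Y/2) < 0`, second factor `> 0`. `R/2 < Y < 2R`: `2Y > R`: `s true (2Y) > 0`; `Y/2 < R` and `Y/2 > R/4 > 1/R`: `s true (Y/2) < 0`: second factor `< 0`.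
* `pat2`: `ev (TT 3 (HH l)) t Y = P * (s t (3Y) * s t (Y/3))`: `3/R < Y < R/3`: both negative. `R/3 < Y < 3R`: `3Y > R`: positive; `Y/3 < R`, `Y/3 > R/9 > 1/R` if `R > 3`: negative.
-/

set_option autoImplicit false

namespace Pool.Agent.SS.RK

open Polynomial UpperHalfPlane
open Pool.Agent.Work.CM

private theorem tf_nonneg {l : ℕ} (hl : LPrime l)
    (hs : ∀ (t : Bool) (Y : ℝ), 0 < Y →
      (1 / Real.sqrt l < Y → Y < Real.sqrt l → ev (HH l) t Y < 0) ∧
      (Real.sqrt l < Y ∨ Y < 1 / Real.sqrt l → 0 < ev (HH l) t Y)) {Y : ℝ} (hY : 0 < Y)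
    (hR : 0 < Real.sqrt l) :
    0 ≤ ev (HH l) true Y * ev (HH l) false Y := by
  have h0 : ev (HH l) true (Real.sqrt l) = 0 := (root_iff hl _).2 (Or.inl rfl)
  rcases lt_trichotomy Y (1 / Real.sqrt l) with h1 | h1 | h1
  · exact (mul_pos ((hs true Y hY).2 (Or.inr h1)) ((hs false Y hY).2 (Or.inr h1))).le
  · have h2 : ev (HH l) true Y = 0 := by
      rw [h1, ev, jr_inv hR]
      exact h0
    rw [h2, zero_mul]
  · rcases lt_trichotomy Y (Real.sqrt l) with h3 | h3 | h3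
    · exact (mul_pos_of_neg_of_neg ((hs true Y hY).1 h1 h3) ((hs false Y hY).1 h1 h3)).le
    · rw [h3, h0, zero_mul]
    · exact (mul_pos ((hs true Y hY).2 (Or.inl h3)) ((hs false Y hY).2 (Or.inl h3))).le

theorem pat1 : ∃ l₀ : ℕ, ∀ l : ℕ, LPrime l → l₀ < l →
    (∀ Y : ℝ, 0 < Y → 0 ≤ ev (HH l * TT 2 (HH l)) false Y) ∧
    (∀ Y : ℝ, 2 / Real.sqrt l < Y → Y < Real.sqrt l / 2 →
      0 ≤ ev (HH l * TT 2 (HH l)) true Y) ∧
    (∀ Y : ℝ, 2 / Real.sqrt l < Y → Real.sqrt l / 2 < Y → Y < 2 * Real.sqrt l →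
      ev (HH l * TT 2 (HH l)) true Y ≤ 0) := by
  obtain ⟨l₀, hl₀⟩ := HH_sign
  refine ⟨l₀, fun l hl hll => ?_⟩
  have hs := hl₀ l hl hll
  have hl0 : 0 < l := lt_of_le_of_lt (Nat.zero_le _) hll
  have hR : 0 < Real.sqrt l := Real.sqrt_pos.2 (Nat.cast_pos.2 hl0)
  have hmul : ∀ (t : Bool) (Y : ℝ), ev (HH l * TT 2 (HH l)) t Y =
      ev (HH l) t Y * ev (TT 2 (HH l)) t Y := by
    intro t Y
    rw [ev, ev, ev, map_mul]
  have hdiv : ∀ a : ℝ, a / Real.sqrt l = a * (1 / Real.sqrt l) := fun a => by ring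
  have hi : 0 < 1 / Real.sqrt l := by positivity
  refine ⟨fun Y hY => ?_, fun Y h1 h2 => ?_, fun Y h1 h2 h3 => ?_⟩
  · obtain ⟨P, hP, hE⟩ := ev_TT2_false (HH l) hY
    rw [hmul, hE]
    have h1 := mul_nonneg hP (tf_nonneg hl hs hY hR)
    calc 0 ≤ P * (ev (HH l) true Y * ev (HH l) false Y) := h1
      _ = ev (HH l) false Y * (P * ev (HH l) true Y) := by ring
  · rw [hdiv] at h1
    have hY : 0 < Y := by linarith
    rw [hmul, ev_TT2_true (HH l) hY]
    have e1 : ev (HH l) true (2 * Y) < 0 :=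
      (hs true (2 * Y) (by linarith)).1 (by linarith) (by linarith)
    have e2 : ev (HH l) true (Y / 2) < 0 :=
      (hs true (Y / 2) (by linarith)).1 (by linarith) (by linarith)
    have e3 := mul_nonneg (tf_nonneg hl hs hY hR) (mul_pos_of_neg_of_neg e1 e2).le
    calc 0 ≤ _ := e3
      _ = _ := by ring
  · rw [hdiv] at h1
    have hY : 0 < Y := by linarith
    rw [hmul, ev_TT2_true (HH l) hY]
    have e1 : 0 < ev (HH l) true (2 * Y) :=
      (hs true (2 * Y) (by linarith)).2 (Or.inl (by linarith))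
    have e2 : ev (HH l) true (Y / 2) < 0 :=
      (hs true (Y / 2) (by linarith)).1 (by linarith) (by linarith)
    have e3 := mul_nonpos_of_nonneg_of_nonpos (tf_nonneg hl hs hY hR)
      (mul_neg_of_pos_of_neg e1 e2).le
    calc _ = ev (HH l) true Y * ev (HH l) false Y *
          (ev (HH l) true (2 * Y) * ev (HH l) true (Y / 2)) := by ring
      _ ≤ 0 := e3

theorem pat2 : ∃ l₀ : ℕ, ∀ l : ℕ, LPrime l → l₀ < l → ∀ t : Bool,
    (∀ Y : ℝ, 3 / Real.sqrt l < Y → Y < Real.sqrt l / 3 → 0 ≤ ev (TT 3 (HH l)) t Y) ∧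
    (∀ Y : ℝ, 3 / Real.sqrt l < Y → Real.sqrt l / 3 < Y → Y < 3 * Real.sqrt l →
      ev (TT 3 (HH l)) t Y ≤ 0) := by
  obtain ⟨l₀, hl₀⟩ := HH_sign
  refine ⟨l₀, fun l hl hll t => ?_⟩
  have hs := hl₀ l hl hll
  have hl0 : 0 < l := lt_of_le_of_lt (Nat.zero_le _) hll
  have hR : 0 < Real.sqrt l := Real.sqrt_pos.2 (Nat.cast_pos.2 hl0)
  have hdiv : ∀ a : ℝ, a / Real.sqrt l = a * (1 / Real.sqrt l) := fun a => by ring
  have hi : 0 < 1 / Real.sqrt l := by positivity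
  refine ⟨fun Y h1 h2 => ?_, fun Y h1 h2 h3 => ?_⟩
  · rw [hdiv] at h1
    have hY : 0 < Y := by linarith
    obtain ⟨P, hP, hE⟩ := ev_TT Nat.prime_three (by norm_num) (HH l) t hY
    push_cast at hE
    rw [hE]
    have e1 : ev (HH l) t (3 * Y) < 0 :=
      (hs t (3 * Y) (by linarith)).1 (by linarith) (by linarith)
    have e2 : ev (HH l) t (Y / 3) < 0 :=
      (hs t (Y / 3) (by linarith)).1 (by linarith) (by linarith)
    exact mul_nonneg hP (mul_pos_of_neg_of_neg e1 e2).le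
  · rw [hdiv] at h1
    have hY : 0 < Y := by linarith
    obtain ⟨P, hP, hE⟩ := ev_TT Nat.prime_three (by norm_num) (HH l) t hY
    push_cast at hE
    rw [hE]
    have e1 : 0 < ev (HH l) t (3 * Y) :=
      (hs t (3 * Y) (by linarith)).2 (Or.inl (by linarith))
    have e2 : ev (HH l) t (Y / 3) < 0 :=
      (hs t (Y / 3) (by linarith)).1 (by linarith) (by linarith)
    exact mul_nonpos_of_nonneg_of_nonpos hP (mul_neg_of_pos_of_neg e1 e2).le

end Pool.Agent.SS.RK
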