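import Mathlib
import Pool.Agent.Work.MP_a5099b_nt.R.KDefs
import Pool.Agent.Work.MP_a5099b_nt.ZI.Fld

/-!
# Module R/Sub (size S-M): the field `k = ℚ(j)` and a curve over `𝓞 k` with invariant `j`

PROOF. This is `exists_subfield` (ZI/Fld.lean) without the hypothesis on the imaginary parts: the same proof, `k := IntermediateField.adjoin ℚ {jay W}`, except (3): `j₀ = c / d`, `c, d ∈ 𝓞 k`, `d ≠ 0`. If `c ≠ 0` and `c ≠ 1728 d` the curve `⟨0, 0, 0, 3 c (1728 d - c) d^2, 2 c (1728 d - c)^2 d^3⟩` as there. If `c = 0` (`j₀ = 0`) take `W₀ = ⟨0, 0, 0, 0, 1⟩`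
(`c₄ = 0`, `Δ = -432`), if `c = 1728 d` (`j₀ = 1728`) take `W₀ = ⟨0, 0, 0, 1, 0⟩` (`c₄ = -48`, `Δ = -64`, `c₄³ = 1728 Δ`). In all cases `W₀.c₄ ^ 3 * d = c * W₀.Δ`, `W₀.Δ ≠ 0`. The last property is for real embeddings (compose with `ℝ → ℂ`, or use `RingHom.toRatAlgHom` for `ℝ` directly).
-/

set_option autoImplicit false

namespace Pool.Agent.SS.RK

open NumberField IsDedekindDomain

private theorem curve_id {R : Type*} [CommRing R] (c d : R) :
    let W : WeierstrassCurve R := ⟨0, 0, 0, 3 * c * (1728 * d - c) * d ^ 2,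
      2 * c * (1728 * d - c) ^ 2 * d ^ 3⟩
    W.c₄ ^ 3 * d = c * W.Δ ∧
      W.Δ = -(16 * 108 * 1728) * (c ^ 2 * (1728 * d - c) ^ 3 * d ^ 7) := by
  intro W
  constructor
  · simp only [W, WeierstrassCurve.c₄, WeierstrassCurve.Δ, WeierstrassCurve.b₂,
      WeierstrassCurve.b₄, WeierstrassCurve.b₆, WeierstrassCurve.b₈]
    ring
  · simp only [W, WeierstrassCurve.Δ, WeierstrassCurve.b₂,
      WeierstrassCurve.b₄, WeierstrassCurve.b₆, WeierstrassCurve.b₈]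
    ring

private theorem exists_curve {R : Type*} [CommRing R] [IsDomain R] [CharZero R] (c d : R)
    (hd : d ≠ 0) : ∃ W : WeierstrassCurve R, W.Δ ≠ 0 ∧ W.c₄ ^ 3 * d = c * W.Δ := by
  by_cases hc : c = 0
  · refine ⟨⟨0, 0, 0, 0, 1⟩, ?_, ?_⟩
    · have h1 : (⟨0, 0, 0, 0, 1⟩ : WeierstrassCurve R).Δ = -432 := by
        simp only [WeierstrassCurve.Δ, WeierstrassCurve.b₂,
          WeierstrassCurve.b₄, WeierstrassCurve.b₆, WeierstrassCurve.b₈]
        ring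
      rw [h1]
      norm_num
    · subst hc
      simp only [WeierstrassCurve.c₄, WeierstrassCurve.b₂, WeierstrassCurve.b₄]
      ring
  by_cases he : 1728 * d - c = 0
  · refine ⟨⟨0, 0, 0, 1, 0⟩, ?_, ?_⟩
    · have h1 : (⟨0, 0, 0, 1, 0⟩ : WeierstrassCurve R).Δ = -64 := by
        simp only [WeierstrassCurve.Δ, WeierstrassCurve.b₂,
          WeierstrassCurve.b₄, WeierstrassCurve.b₆, WeierstrassCurve.b₈]
        ring
      rw [h1]
      norm_num
    · have hc' : c = 1728 * d := (sub_eq_zero.1 he).symm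
      subst hc'
      simp only [WeierstrassCurve.c₄, WeierstrassCurve.Δ, WeierstrassCurve.b₂,
        WeierstrassCurve.b₄, WeierstrassCurve.b₆, WeierstrassCurve.b₈]
      ring
  · obtain ⟨hid1, hid2⟩ := curve_id c d
    refine ⟨_, ?_, hid1⟩
    rw [hid2]
    refine mul_ne_zero ?_ (mul_ne_zero (mul_ne_zero (pow_ne_zero _ hc) (pow_ne_zero _ he))
      (pow_ne_zero _ hd))
    norm_num

theorem exists_sub {K : Type} [Field K] [NumberField K] (W : WeierstrassCurve (𝓞 K))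
    (hW : W.Δ ≠ 0) :
    ∃ (k : Type) (_ : Field k) (_ : NumberField k) (_ : Algebra k K)
      (W₀ : WeierstrassCurve (𝓞 k)), W₀.Δ ≠ 0 ∧
        algebraMap (𝓞 k) (𝓞 K) (W₀.c₄ ^ 3) * W.Δ = W.c₄ ^ 3 * algebraMap (𝓞 k) (𝓞 K) W₀.Δ ∧
        algebraMap k K (jay W₀) = jay W ∧
        ∀ σ τ : k →+* ℝ, σ (jay W₀) = τ (jay W₀) → σ = τ := by
  classical
  let k : IntermediateField ℚ K := IntermediateField.adjoin ℚ {jay W}
  have hjk : jay W ∈ k := IntermediateField.mem_adjoin_simple_self ℚ (jay W)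
  let j₀ : k := ⟨jay W, hjk⟩
  have hj0 : algebraMap k K j₀ = jay W := rfl
  have hinj : ∀ σ τ : k →+* ℝ, σ j₀ = τ j₀ → σ = τ := by
    intro σ τ h
    have h1 : σ.toRatAlgHom = τ.toRatAlgHom := by
      refine IntermediateField.algHom_ext_of_eq_adjoin ℚ (S := k) (s := {jay W}) rfl ?_
      intro x hx
      have hx' : x = jay W := hx
      subst hx'
      exact h
    ext x
    exact DFunLike.congr_fun h1 x
  obtain ⟨c, d, hd, hcd⟩ := IsFractionRing.div_surjective (A := 𝓞 k) j₀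
  have hd0 : d ≠ 0 := nonZeroDivisors.ne_zero hd
  have hd0' : (algebraMap (𝓞 k) k d) ≠ 0 := by
    rw [Ne, FaithfulSMul.algebraMap_eq_zero_iff (𝓞 k) k]
    exact hd0
  obtain ⟨W₀, hΔ0, hid1⟩ := exists_curve c d hd0
  have hΔ0' : algebraMap (𝓞 k) k W₀.Δ ≠ 0 := by
    rw [Ne, FaithfulSMul.algebraMap_eq_zero_iff (𝓞 k) k]
    exact hΔ0
  have hjay : jay W₀ = j₀ := by
    have h1 : jay W₀ = algebraMap (𝓞 k) k W₀.c₄ ^ 3 / algebraMap (𝓞 k) k W₀.Δ := rfl
    rw [h1, ← hcd, div_eq_div_iff hΔ0' hd0', ← map_pow, ← map_mul, ← map_mul, hid1]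
  refine ⟨k, inferInstance, inferInstance, inferInstance, W₀, hΔ0, ?_, ?_, ?_⟩
  · apply FaithfulSMul.algebraMap_injective (𝓞 K) K
    have hΔK : algebraMap (𝓞 K) K W.Δ ≠ 0 := by
      rw [Ne, FaithfulSMul.algebraMap_eq_zero_iff (𝓞 K) K]
      exact hW
    have hcomm : ∀ x : 𝓞 k, algebraMap (𝓞 K) K (algebraMap (𝓞 k) (𝓞 K) x) =
        algebraMap k K (algebraMap (𝓞 k) k x) := fun x => rfl
    have hjW : jay W * algebraMap (𝓞 K) K W.Δ = algebraMap (𝓞 K) K W.c₄ ^ 3 := by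
      have h1 : jay W = algebraMap (𝓞 K) K W.c₄ ^ 3 / algebraMap (𝓞 K) K W.Δ := rfl
      rw [h1, div_mul_cancel₀ _ hΔK]
    have hj1 : jay W * algebraMap k K (algebraMap (𝓞 k) k W₀.Δ) =
        algebraMap k K (algebraMap (𝓞 k) k (W₀.c₄ ^ 3)) := by
      rw [← hj0, ← hjay, ← map_mul]
      congr 1
      have h1 : jay W₀ = algebraMap (𝓞 k) k W₀.c₄ ^ 3 / algebraMap (𝓞 k) k W₀.Δ := rfl
      rw [h1, div_mul_cancel₀ _ hΔ0', map_pow]
    rw [map_mul, map_mul, hcomm, hcomm, ← hj1, map_pow, ← hjW]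
    ring
  · rw [hjay]
    exact hj0
  · intro σ τ h
    rw [hjay] at h
    exact hinj σ τ h

end Pool.Agent.SS.RK
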