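import Mathlib
import Pool.Agent.Work.MP_a5099b_nt.R.KDefs
import Pool.Agent.Work.MP_a5099b_nt.J.Fin1
import Pool.Agent.Work.MP_a5099b_nt.J.Fin2
import Pool.Agent.Work.MP_a5099b_nt.J.Bad

/-!
# Module R/Symb (size S-M): a good polynomial with negative norm gives a supersingular place

PROOF. Suppose the set is finite. `exists_bad` (J/Bad) with `q = 7`: `m` odd, `3 ∣ m`, and every bad `v` (containing `Δ`, or supersingular) has residue characteristic `p = 2`, `p = 7` or `p ∣ m`. Let `m' = 7 m`: `p = 2 ∨ p = 1 ∨ p ∣ m'`, `3 ∣ m'`. The hypothesis `h` with `8 m'` and `B = m'`-large gives `l`, `F`. `x := HV F (W.c₄ ^ 3) W.Δ`,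
`N := Algebra.norm ℤ x < 0`, so `x ≠ 0`, `absNorm (span {x}) = |N| = -N` (`Ideal.absNorm_span_singleton`).
(1) `jacobiSym (absNorm (span {x})) l = -1`: as `jac_eq_one` in J/Fin1.lean: `HV_sq` gives `x = γ² + l δ`, so `N ≡ (norm γ)² mod l` (`norm_congr`), `absNorm ≡ -(norm γ)²`; `l` does not divide `absNorm` because `x ∉ v` for `v ∣ l` (`exists_of_dvd_absNorm`; `not_mem_of_ordinary` with `Or.inl rfl`: as in the first evaluation in J/Main.lean: `v ∣ l` is not bad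
since `l ∤ m'`: `l` divides `m'` and `m' ∣ l + 1` would give `l ∣ 1`); `jacobiSym (-1) l = -1` as `l = 3 mod 4` (`jac_neg` in J/Rec with `q = 1`, or `jacobiSym.at_neg_one`), and the symbol of a square prime to `l` is 1 (`jacobiSym.sq_one`).
(2) `jacobiSym (absNorm (span {x})) l = 1`: `jac_eq_pow` (J/Fin1) with `q = 1`, `S = ∅` (then `(1 : 𝓞 K) ∈ v` is impossible), and `symb_one` (J/Fin2) with `q = 1`, `m := m'`. Contradiction.
-/

set_option autoImplicit false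

namespace Pool.Agent.SS.RK

open NumberField IsDedekindDomain Polynomial
open Pool.Agent.SS.J

private theorem jac_eq_neg_one {K : Type} [Field K] [NumberField K] {l : ℕ} (hl : l.Prime)
    (h8 : l % 8 = 7) {F : ℤ[X]} (hF : Good l F) (c d : 𝓞 K)
    (hneg : Algebra.norm ℤ (HV F c d) < 0) (hne : HV F c d ≠ 0)
    (hu : ∀ v : HeightOneSpectrum (𝓞 K), (l : 𝓞 K) ∈ v.asIdeal → HV F c d ∉ v.asIdeal) :
    jacobiSym (Ideal.absNorm (Ideal.span {HV F c d}) : ℤ) l = -1 := by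
  obtain ⟨γ, δ, hγ⟩ := HV_sq hl F hF.monic hF.even hF.sq c d
  have hN : (Ideal.absNorm (Ideal.span {HV F c d}) : ℤ) = -Algebra.norm ℤ (HV F c d) := by
    rw [Ideal.absNorm_span_singleton]
    omega
  have h1 := norm_congr l (γ ^ 2) δ
  rw [← hγ, map_pow] at h1
  have hl0 : (l : ℤ) ∣ (Ideal.absNorm (Ideal.span {HV F c d}) : ℤ) + (Algebra.norm ℤ γ) ^ 2 := by
    rw [hN]
    have h2 := dvd_neg.2 h1
    have h3 : -Algebra.norm ℤ (HV F c d) + (Algebra.norm ℤ γ) ^ 2 =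
        -(Algebra.norm ℤ (HV F c d) - (Algebra.norm ℤ γ) ^ 2) := by ring
    rw [h3]
    exact h2
  have hnd : ¬ l ∣ Ideal.absNorm (Ideal.span {HV F c d}) := by
    intro hd
    obtain ⟨v, hv1, hv2⟩ := exists_of_dvd_absNorm hl hne hd
    exact hu v hv1 hv2
  have hmod : (Ideal.absNorm (Ideal.span {HV F c d}) : ℤ) % l =
      (-(Algebra.norm ℤ γ) ^ 2) % l := by
    have h4 : (l : ℤ) ∣ (Ideal.absNorm (Ideal.span {HV F c d}) : ℤ) - (-(Algebra.norm ℤ γ) ^ 2) := by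
      rw [sub_neg_eq_add]
      exact hl0
    exact ((Int.modEq_iff_dvd.mpr h4 : (-(Algebra.norm ℤ γ) ^ 2) ≡ _ [ZMOD l])).symm
  have hlo : Odd l := Nat.odd_iff.2 (by omega)
  rw [jacobiSym.mod_left' hmod, jacobiSym.neg _ hlo, ZMod.χ₄_nat_three_mod_four (by omega),
    neg_one_mul]
  congr 1
  have hnd2 : ¬ (l : ℤ) ∣ Algebra.norm ℤ γ := by
    intro hd
    apply hnd
    have h3 : (l : ℤ) ∣ (Ideal.absNorm (Ideal.span {HV F c d}) : ℤ) := by
      have h4 := dvd_sub hl0 (dvd_pow hd two_ne_zero)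
      simpa using h4
    exact_mod_cast h3
  have hlz : Prime (l : ℤ) := Nat.prime_iff_prime_int.mp hl
  rw [pow_two, jacobiSym.mul_left, ← pow_two]
  apply jacobiSym.sq_one
  rw [← Int.isCoprime_iff_gcd_eq_one]
  exact ((Prime.coprime_iff_not_dvd hlz).mpr hnd2).symm

theorem inf_of_neg {K : Type} [Field K] [NumberField K] (W : WeierstrassCurve (𝓞 K))
    (hW : W.Δ ≠ 0)
    (h : ∀ m : ℕ, 0 < m → ∃ (l : ℕ) (F : ℤ[X]), LPrime l ∧ m < l ∧ (m : ℤ) ∣ l + 1 ∧ Good l F ∧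
      Algebra.norm ℤ (HV F (W.c₄ ^ 3) W.Δ) < 0) :
    {v : HeightOneSpectrum (𝓞 K) | SSRed W v}.Infinite := by
  classical
  by_contra hfin
  rw [Set.not_infinite] at hfin
  obtain ⟨m, hm, -, -, h3m, hbad⟩ := exists_bad (q := 7) (by norm_num) le_rfl W hW hfin
  have hmpos : 0 < m := hm.pos
  obtain ⟨l, F, hLP, hml, hl8, hgood, hneg⟩ := h (8 * (7 * m)) (by positivity)
  have hl := hLP.prime
  have hlm : ((7 * m : ℕ) : ℤ) ∣ l + 1 := dvd_trans (by push_cast; exact dvd_mul_left _ _) hl8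
  have hne : HV F (W.c₄ ^ 3) W.Δ ≠ 0 := by
    intro h0
    rw [h0, Algebra.norm_zero] at hneg
    exact lt_irrefl _ hneg
  have hbad' : ∀ (v : HeightOneSpectrum (𝓞 K)) (p : ℕ), p.Prime → (p : 𝓞 K) ∈ v.asIdeal →
      (W.Δ ∈ v.asIdeal ∨ SSRed W v) → p = 2 ∨ p = 1 ∨ p ∣ 7 * m := by
    intro v p hp hpv hb
    rcases hbad v p hp hpv hb with h1 | h1 | h1
    · exact Or.inl h1
    · exact Or.inr (Or.inr (h1 ▸ Dvd.intro _ rfl))
    · exact Or.inr (Or.inr (h1.mul_left 7))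
  have e1 := jac_eq_neg_one hl hLP.mod8 hgood (W.c₄ ^ 3) W.Δ hneg hne (by
    intro v hv hmem
    have hgl : ¬ (W.Δ ∈ v.asIdeal ∨ SSRed W v) := by
      intro h
      rcases hbad' v l hl hv h with h | h | h
      · have := hLP.mod8
        omega
      · exact hl.one_lt.ne' h
      · have h4 : (l : ℤ) ∣ l + 1 := dvd_trans (by exact_mod_cast h) hlm
        have h5 : (l : ℤ) ∣ 1 := by
          simpa using dvd_sub h4 (dvd_refl (l : ℤ))
        have h6 : l ∣ 1 := by exact_mod_cast h5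
        exact hl.one_lt.ne' (Nat.dvd_one.mp h6)
    push Not at hgl
    have := hLP.mod8
    exact not_mem_of_ordinary W v hl (by omega) hv hgl.1 hgl.2 (Or.inl rfl) hgood hmem)
  have h1v : ∀ v : HeightOneSpectrum (𝓞 K), ((1 : ℕ) : 𝓞 K) ∉ v.asIdeal := by
    intro v h1
    rw [Nat.cast_one] at h1
    exact v.isPrime.ne_top ((Ideal.eq_top_iff_one _).2 h1)
  have e2 := jac_eq_pow (l := l) hne 1 ∅ (fun _ => 0)
    (fun v hqv hv => symb_one hLP W hlm (h3m.mul_left 7) hbad' hgood v hqv hv)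
    (fun v hv _ => absurd hv (h1v v))
    (fun v hv => absurd hv (Finset.notMem_empty v))
  rw [e1, Finset.sum_empty, pow_zero] at e2
  exact absurd e2 (by norm_num)

end Pool.Agent.SS.RK
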