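import Mathlib
import Pool.Agent.Work.MP_a5099b_nt.R.TTo

/-!
# Module R/Walk (size S): signs of the iterated operators

PROOF. Induction on `w`; `w = n :: w'`, `u = n u'`, `Tw w F = TT n (Tw w' F)`, `ev_TT`: `ev (Tw w F) t Y = P * (ev (Tw w' F) t (n Y) * ev (Tw w' F) t (Y / n))`, `P ≥ 0`, `n ≥ 3`.
* `walk_nonneg`: both factors are `≥ 0`.
* `walk_pat`, `w = []`: `h1`, `h2`. (a) at `n Y`: `(n Y) u' = Y u < A`, `(n Y)/u' = n² Y/u ≥ Y/u > δ`; at `Y/n`: `(Y/n) u' = Y u / n² < A`, `(Y/n)/u' = Y/u > δ`: both factors `≥ 0` by (a).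
(b) at `n Y`: `(n Y) u' = Y u` is in `(A, B)`, `(n Y) u'/9 < A`, `(n Y)/u' > δ`: the factor is `≤ 0` by (b); at `Y/n`: `(Y/n) u' = Y u/n² ≤ Y u/9 < A`, `(Y/n)/u' > δ`: the factor is `≥ 0` by (a).
-/

set_option autoImplicit false

namespace Pool.Agent.SS.RK

open Polynomial UpperHalfPlane
open Pool.Agent.Work.CM

theorem walk_nonneg {F : ℤ[X]} {t : Bool} (h : ∀ Y : ℝ, 0 < Y → 0 ≤ ev F t Y) {w : List ℕ}
    (hw : ∀ n ∈ w, n.Prime ∧ n ≠ 2) {Y : ℝ} (hY : 0 < Y) : 0 ≤ ev (Tw w F) t Y := by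
  induction w generalizing Y with
  | nil => exact h Y hY
  | cons n w ih =>
    obtain ⟨hn, hn2⟩ := hw n (by simp)
    have hw' : ∀ n ∈ w, n.Prime ∧ n ≠ 2 := fun m hm => hw m (by simp [hm])
    have hn0 : (0 : ℝ) < n := by exact_mod_cast hn.pos
    obtain ⟨P, hP, he⟩ := ev_TT hn hn2 (Tw w F) t hY
    rw [Tw_cons, he]
    exact mul_nonneg hP (mul_nonneg (ih hw' (mul_pos hn0 hY)) (ih hw' (div_pos hY hn0)))

theorem walk_pat {F : ℤ[X]} {t : Bool} {A B δ : ℝ} (hδ : 0 < δ)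
    (h1 : ∀ Y : ℝ, δ < Y → Y < A → 0 ≤ ev F t Y)
    (h2 : ∀ Y : ℝ, δ < Y → A < Y → Y < B → ev F t Y ≤ 0) {w : List ℕ}
    (hw : ∀ n ∈ w, n.Prime ∧ n ≠ 2) :
    (∀ Y : ℝ, 0 < Y → δ < Y / w.prod → Y * w.prod < A → 0 ≤ ev (Tw w F) t Y) ∧
    (∀ Y : ℝ, 0 < Y → δ < Y / w.prod → A < Y * w.prod → Y * w.prod < B →
      Y * w.prod / 9 < A → ev (Tw w F) t Y ≤ 0) := by
  induction w with
  | nil =>
    refine ⟨fun Y _ h3 h4 => ?_, fun Y _ h3 h4 h5 _ => ?_⟩
    · simp only [List.prod_nil, Nat.cast_one, div_one, mul_one] at h3 h4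
      exact h1 Y h3 h4
    · simp only [List.prod_nil, Nat.cast_one, div_one, mul_one] at h3 h4 h5
      exact h2 Y h3 h4 h5
  | cons n w ih =>
    obtain ⟨hn, hn2⟩ := hw n (by simp)
    have hw' : ∀ n ∈ w, n.Prime ∧ n ≠ 2 := fun m hm => hw m (by simp [hm])
    obtain ⟨iha, ihb⟩ := ih hw'
    have hn3 : 3 ≤ n := by
      have := hn.two_le
      omega
    have hn0 : (0 : ℝ) < n := by exact_mod_cast hn.pos
    have hn3' : (3 : ℝ) ≤ n := by exact_mod_cast hn3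
    have hn9 : (9 : ℝ) ≤ n * n := by nlinarith
    have hwp : 0 < w.prod := by
      apply List.prod_pos
      intro m hm
      exact (hw' m hm).1.pos
    have hu : (0 : ℝ) < w.prod := by exact_mod_cast hwp
    have hprod : (((n :: w).prod : ℕ) : ℝ) = n * w.prod := by
      rw [List.prod_cons]
      push_cast
      ring
    refine ⟨fun Y hY h3 h4 => ?_, fun Y hY h3 h4 h5 h6 => ?_⟩
    · rw [hprod] at h3 h4
      obtain ⟨P, hP, he⟩ := ev_TT hn hn2 (Tw w F) t hY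
      rw [Tw_cons, he]
      have e1 : Y / (n * (w.prod : ℝ)) = Y / n / w.prod := by rw [div_div]
      have e2 : Y / (n : ℝ) / w.prod ≤ n * Y / w.prod := by
        apply div_le_div_of_nonneg_right _ hu.le
        rw [div_le_iff₀ hn0]
        nlinarith
      have e3 : (n : ℝ) * Y * w.prod = Y * (n * w.prod) := by ring
      have e4 : Y / (n : ℝ) * w.prod ≤ Y * (n * w.prod) := by
        rw [div_mul_eq_mul_div, div_le_iff₀ hn0]
        have : 0 < Y * w.prod := mul_pos hY hu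
        nlinarith
      refine mul_nonneg hP (mul_nonneg (iha _ (mul_pos hn0 hY) ?_ ?_)
        (iha _ (div_pos hY hn0) ?_ ?_))
      · exact lt_of_lt_of_le (e1 ▸ h3) e2
      · rw [e3]
        exact h4
      · exact e1 ▸ h3
      · exact lt_of_le_of_lt e4 h4
    · rw [hprod] at h3 h4 h5 h6
      obtain ⟨P, hP, he⟩ := ev_TT hn hn2 (Tw w F) t hY
      rw [Tw_cons, he]
      have e1 : Y / (n * (w.prod : ℝ)) = Y / n / w.prod := by rw [div_div]
      have e2 : Y / (n : ℝ) / w.prod ≤ n * Y / w.prod := by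
        apply div_le_div_of_nonneg_right _ hu.le
        rw [div_le_iff₀ hn0]
        nlinarith
      have e3 : (n : ℝ) * Y * w.prod = Y * (n * w.prod) := by ring
      have e4 : Y / (n : ℝ) * w.prod ≤ Y * (n * w.prod) / 9 := by
        rw [div_mul_eq_mul_div, div_le_iff₀ hn0]
        have : 0 < Y * w.prod := mul_pos hY hu
        nlinarith
      refine mul_nonpos_of_nonneg_of_nonpos hP (mul_nonpos_of_nonpos_of_nonneg
        (ihb _ (mul_pos hn0 hY) ?_ ?_ ?_ ?_) (iha _ (div_pos hY hn0) ?_ ?_))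
      · exact lt_of_lt_of_le (e1 ▸ h3) e2
      · rw [e3]
        exact h4
      · rw [e3]
        exact h5
      · rw [e3]
        exact h6
      · exact e1 ▸ h3
      · exact lt_of_le_of_lt e4 h6

end Pool.Agent.SS.RK
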