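import Mathlib
import Pool.Agent.Work.MP_a5099b_nt.R.Cls
import Pool.Agent.Work.MP_a5099b_nt.R.HSgn
import Pool.Agent.Work.MP_a5099b_nt.R.Walk
import Pool.Agent.Work.MP_a5099b_nt.R.Pat
import Pool.Agent.Work.MP_a5099b_nt.R.Dens
import Pool.Agent.Work.MP_a5099b_nt.R.Nz
import Pool.Agent.Work.MP_a5099b_nt.R.NSgn
import Pool.Agent.Work.MP_a5099b_nt.R.Symb
import Pool.Agent.Work.MP_a5099b_nt.R.LEx
import Pool.Agent.Work.MP_a5099b_nt.R.Sub
import Pool.Agent.Work.MP_a5099b_nt.ZI.Up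
import Pool.Agent.Work.MP_a5099b_nt.C.EGood

/-!
# Module R/Fin: Elkies' theorem over every number field with a real place (assembly, helper24)
-/

set_option autoImplicit false

namespace Pool.Agent.SS.RK

open NumberField IsDedekindDomain Polynomial
open Pool.Agent.SS.J

private theorem exists_mid (s : Finset ℝ) {M : ℝ} (h : ∀ y ∈ s, y < M) (hM : 1 < M) :
    ∃ M' : ℝ, 1 ≤ M' ∧ M' < M ∧ M ≤ 2 * M' ∧ ∀ y ∈ s, y ≤ M' := by
  classical
  let s' : Finset ℝ := insert 1 (insert (M / 2) s)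
  have hne : s'.Nonempty := ⟨1, by simp [s']⟩
  refine ⟨s'.max' hne, Finset.le_max' _ _ (by simp [s']), ?_, ?_, ?_⟩
  · rw [Finset.max'_lt_iff]
    intro y hy
    simp only [s', Finset.mem_insert] at hy
    rcases hy with rfl | rfl | hy
    · exact hM
    · linarith
    · exact h y hy
  · have : M / 2 ≤ s'.max' hne := Finset.le_max' _ _ (by simp [s'])
    linarith
  · intro y hy
    exact Finset.le_max' _ _ (by simp [s', hy])

private theorem prod_pos' {w : List ℕ} (hw : ∀ n ∈ w, n = 3 ∨ n = 5) : (0 : ℝ) < w.prod := by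
  have h : 0 < w.prod := by
    apply List.prod_pos
    intro n hn
    rcases hw n hn with rfl | rfl <;> norm_num
  exact_mod_cast h

private theorem prime_of {w : List ℕ} (hw : ∀ n ∈ w, n = 3 ∨ n = 5) :
    ∀ n ∈ w, n.Prime ∧ n ≠ 2 := by
  intro n hn
  rcases hw n hn with rfl | rfl <;> norm_num

private theorem walk_fin {F : ℤ[X]} {t : Bool} {m R M M' : ℝ} (hm : 2 ≤ m) (hR : 0 < R)
    (hM' : 1 ≤ M') (hMM : M' < M) (h2M : M ≤ 2 * M')
    (h1 : ∀ Y : ℝ, m / R < Y → Y < R / m → 0 ≤ ev F t Y)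
    (h2 : ∀ Y : ℝ, m / R < Y → R / m < Y → Y < m * R → ev F t Y ≤ 0) {w : List ℕ}
    (hw : ∀ n ∈ w, n = 3 ∨ n = 5) (hu1 : 1 / (m * M) * R < w.prod)
    (hu2 : (w.prod : ℝ) < 1 / (m * M') * R) :
    ev (Tw w F) t M ≤ 0 ∧ ∀ Y : ℝ, 1 ≤ Y → Y ≤ M' → 0 ≤ ev (Tw w F) t Y := by
  have hu : (0 : ℝ) < w.prod := prod_pos' hw
  have hm0 : 0 < m := by linarith
  have hM0 : 0 < M := by linarith
  have hM'0 : 0 < M' := by linarith
  have hδ : 0 < m / R := div_pos hm0 hR
  obtain ⟨ha, hb⟩ := walk_pat hδ h1 h2 (prime_of hw)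
  have e1 : R < m * M * w.prod := by
    have h := (mul_lt_mul_iff_right₀ (mul_pos hm0 hM0)).2 hu1
    have e : m * M * (1 / (m * M) * R) = R := by field_simp
    rwa [e] at h
  have e2 : m * M' * w.prod < R := by
    have h := (mul_lt_mul_iff_right₀ (mul_pos hm0 hM'0)).2 hu2
    have e : m * M' * (1 / (m * M') * R) = R := by field_simp
    rwa [e] at h
  have hδY : ∀ Y : ℝ, 1 ≤ Y → m / R < Y / w.prod := by
    intro Y hY
    rw [div_lt_div_iff₀ hR hu]
    have h3 : m * w.prod ≤ m * M' * w.prod := by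
      have h4 : m * w.prod * 1 ≤ m * w.prod * M' :=
        mul_le_mul_of_nonneg_left hM' (mul_pos hm0 hu).le
      linarith
    have h4 : 1 * R ≤ Y * R := mul_le_mul_of_nonneg_right hY hR.le
    linarith
  constructor
  · apply hb M hM0 (hδY M (by linarith))
    · rw [div_lt_iff₀ hm0]
      linarith
    · have h3 : m * (M * w.prod) < m * (m * R) := by
        have h4 : m * M * w.prod ≤ m * (2 * M') * w.prod :=
          mul_le_mul_of_nonneg_right (mul_le_mul_of_nonneg_left h2M hm0.le) hu.le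
        have h5 : 2 * R ≤ m * (m * R) := by
          have h6 : 2 * R ≤ m * R := mul_le_mul_of_nonneg_right hm hR.le
          have h7 : 1 * (m * R) ≤ m * (m * R) :=
            mul_le_mul_of_nonneg_right (by linarith) (mul_pos hm0 hR).le
          linarith
        nlinarith
      exact lt_of_mul_lt_mul_left h3 hm0.le
    · rw [div_lt_div_iff₀ (by norm_num) hm0]
      have h4 : m * M * w.prod ≤ m * (2 * M') * w.prod :=
        mul_le_mul_of_nonneg_right (mul_le_mul_of_nonneg_left h2M hm0.le) hu.le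
      nlinarith
  · intro Y hY hYM
    apply ha Y (by linarith) (hδY Y hY)
    rw [lt_div_iff₀ hm0]
    have h3 : m * Y * w.prod ≤ m * M' * w.prod :=
      mul_le_mul_of_nonneg_right (mul_le_mul_of_nonneg_left hYM hm0.le) hu.le
    nlinarith

private theorem good_norm {k : Type} [Field k] [NumberField k] (W : WeierstrassCurve (𝓞 k))
    (hW : W.Δ ≠ 0) {F : ℤ[X]} (hF : Even F.natDegree) (σ₀ : k →+* ℝ)
    (h0 : aeval (σ₀ (jay W)) F < 0)
    (h1 : ∀ σ : k →+* ℝ, σ ≠ σ₀ → 0 < aeval (σ (jay W)) F) :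
    Algebra.norm ℤ (HV F (W.c₄ ^ 3) W.Δ) < 0 :=
  norm_neg _ σ₀ ((HV_sign W hW hF σ₀).2.2 h0) fun σ hσ => (HV_sign W hW hF σ).1.2 (h1 σ hσ)

private theorem real_ne {x : ℝ} {F : ℤ[X]} (h : aeval (x : ℂ) F ≠ 0) : aeval x F ≠ 0 := by
  intro h0
  apply h
  have h1 : aeval ((algebraMap ℝ ℂ) x) F = (algebraMap ℝ ℂ) (aeval x F) :=
    aeval_algebraMap_apply ℂ x F
  rw [h0, map_zero] at h1
  exact h1

theorem elkies_core {k : Type} [Field k] [NumberField k] (W : WeierstrassCurve (𝓞 k))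
    (hW : W.Δ ≠ 0) (ρ : k →+* ℝ)
    (hinj : ∀ σ τ : k →+* ℝ, σ (jay W) = τ (jay W) → σ = τ) :
    {v : HeightOneSpectrum (𝓞 k) | SSRed W v}.Infinite := by
  classical
  apply inf_of_neg W hW
  intro m hm
  choose T Y hY1 hYj using fun σ : k →+* ℝ => exists_Rl (σ (jay W))
  have heq : ∀ σ τ : k →+* ℝ, T σ = T τ → Y σ = Y τ → σ = τ := by
    intro σ τ h1 h2
    apply hinj
    rw [← hYj σ, ← hYj τ, h1, h2]
  have : Finite (k →+* ℝ) := inferInstance
  let _ : Fintype (k →+* ℝ) := Fintype.ofFinite _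
  choose B hB using fun σ : k →+* ℝ => nonvanish_words ((σ (jay W) : ℝ) : ℂ)
  let B₁ : ℕ := Finset.univ.sup B
  have hB₁ : ∀ σ, B σ ≤ B₁ := fun σ => Finset.le_sup (f := B) (Finset.mem_univ σ)
  have hev : ∀ (F : ℤ[X]) (σ : k →+* ℝ), aeval (σ (jay W)) F = ev F (T σ) (Y σ) := by
    intro F σ
    rw [ev, hYj]
  have : Nonempty (k →+* ℝ) := ⟨ρ⟩
  obtain ⟨σ₁, hσ₁⟩ := Finite.exists_max (α := k →+* ℝ) (f := Y)
  by_cases hsub : ∀ σ : k →+* ℝ, σ = ρ
  · -- one real place
    obtain ⟨l₀, hl₀⟩ := HH_sign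
    obtain ⟨c, hc⟩ := exists_nat_gt ((Y ρ) ^ 2)
    obtain ⟨l, hl, hlB, hlm⟩ := exists_LPrime hm (m + l₀ + c + 1)
    have hR : Y ρ < Real.sqrt l := by
      apply Real.lt_sqrt_of_sq_lt
      have : (c : ℝ) ≤ l := by exact_mod_cast (by omega : c ≤ l)
      linarith
    have h1 := hY1 ρ
    have h2 : 1 / Real.sqrt l < Y ρ := by
      have h3 : 1 < Real.sqrt l := lt_of_le_of_lt h1 hR
      have h4 : 1 / Real.sqrt l < 1 := by
        rw [div_lt_one (by linarith)]
        exact h3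
      linarith
    refine ⟨l, HH l, hl, by omega, hlm, HH_good hl, ?_⟩
    apply good_norm W hW (HH_good hl).even ρ
    · rw [hev]
      exact (hl₀ l hl (by omega) (T ρ) (Y ρ) (by linarith)).1 h2 hR
    · intro σ hσ
      exact absurd (hsub σ) hσ
  push Not at hsub
  obtain ⟨σ₂, hσ₂⟩ := hsub
  set M : ℝ := Y σ₁ with hMdef
  have hM1 : 1 < M := by
    by_contra hcon
    push Not at hcon
    have hall : ∀ σ, Y σ = 1 := fun σ => le_antisymm ((hσ₁ σ).trans hcon) (hY1 σ)
    apply hσ₂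
    apply hinj
    have hj1 : ∀ t : Bool, jr t 1 = jr true 1 := by
      intro t
      cases t
      · exact jr_one.symm
      · rfl
    rw [← hYj σ₂, ← hYj ρ, hall, hall, hj1, hj1 (T ρ)]
  by_cases hA : ∃ σ₀, T σ₀ = true ∧ Y σ₀ = M
  · -- the largest parameter is rectangular
    obtain ⟨σ₀, hT0, hY0⟩ := hA
    obtain ⟨M', hM'1, hM'M, h2M, hM's⟩ := exists_mid
      ((Finset.univ.filter fun σ => σ ≠ σ₀ ∧ T σ = true).image Y) (M := M) (by
        intro y hy
        obtain ⟨σ, hσ, rfl⟩ := Finset.mem_image.1 hy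
        rw [Finset.mem_filter] at hσ
        refine lt_of_le_of_ne (hσ₁ σ) ?_
        intro h
        apply hσ.2.1
        exact heq _ _ (hσ.2.2.trans hT0.symm) (h.trans hY0.symm)) hM1
    obtain ⟨R₀, hR₀⟩ := exists_word (c := 1 / (2 * M)) (d := 1 / (2 * M'))
      (by positivity) (by
        apply one_div_lt_one_div_of_lt <;> linarith)
    obtain ⟨l₀, hl₀⟩ := pat1
    obtain ⟨c, hc⟩ := exists_nat_gt ((max R₀ 1) ^ 2)
    obtain ⟨l, hl, hlB, hlm⟩ := exists_LPrime hm (m + l₀ + c + B₁ + 1)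
    have hR : max R₀ 1 < Real.sqrt l := by
      apply Real.lt_sqrt_of_sq_lt
      have : (c : ℝ) ≤ l := by exact_mod_cast (by omega : c ≤ l)
      linarith
    have hR1 : R₀ < Real.sqrt l := lt_of_le_of_lt (le_max_left _ _) hR
    have hR0 : 0 < Real.sqrt l := by
      have := lt_of_le_of_lt (le_max_right _ _) hR
      linarith
    obtain ⟨w, hw, hw1, hw2⟩ := hR₀ _ hR1
    obtain ⟨p1, p2, p3⟩ := hl₀ l hl (by omega)
    have hwp : ∀ n ∈ w, n.Prime := fun n hn => (prime_of hw n hn).1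
    obtain ⟨q1, q2⟩ := walk_fin (F := HH l * TT 2 (HH l)) (t := true) (m := 2) le_rfl hR0 hM'1
      hM'M h2M p2 p3 hw hw1 hw2
    have hgood : Good l (Tw w (HH l * TT 2 (HH l))) :=
      Tw_good hwp ((HH_good hl).mul (Good.TT Nat.prime_two (HH_good hl)))
    have hnz : ∀ σ : k →+* ℝ, ev (Tw w (HH l * TT 2 (HH l))) (T σ) (Y σ) ≠ 0 := by
      intro σ
      rw [← hev]
      apply real_ne
      rw [Tw_mul hwp, map_mul]
      have h2 : Tw w (TT 2 (HH l)) = Tw (w ++ [2]) (HH l) := by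
        rw [Tw_append]
        rfl
      rw [h2]
      have hB' : B σ < l := by
        have := hB₁ σ
        omega
      refine mul_ne_zero (hB σ l hl hB' w hwp) (hB σ l hl hB' (w ++ [2]) ?_)
      intro n hn
      rw [List.mem_append, List.mem_singleton] at hn
      rcases hn with hn | rfl
      · exact hwp n hn
      · exact Nat.prime_two
    refine ⟨l, _, hl, by omega, hlm, hgood, ?_⟩
    apply good_norm W hW hgood.even σ₀
    · rw [hev]
      refine lt_of_le_of_ne ?_ (hnz σ₀)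
      rw [hT0, hY0]
      exact q1
    · intro σ hσ
      rw [hev]
      refine lt_of_le_of_ne ?_ (hnz σ).symm
      cases hTσ : T σ
      · exact walk_nonneg p1 (prime_of hw) (by linarith [hY1 σ])
      · refine q2 _ (hY1 σ) (hM's _ ?_)
        exact Finset.mem_image_of_mem _ (by simp [hσ, hTσ])
  · -- the largest parameter is only rhombic
    push Not at hA
    have hT1 : T σ₁ = false := by
      cases h : T σ₁
      · rfl
      · exact absurd rfl (hA σ₁ h)
    obtain ⟨M', hM'1, hM'M, h2M, hM's⟩ := exists_mid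
      ((Finset.univ.filter fun σ => σ ≠ σ₁).image Y) (M := M) (by
        intro y hy
        obtain ⟨σ, hσ, rfl⟩ := Finset.mem_image.1 hy
        rw [Finset.mem_filter] at hσ
        refine lt_of_le_of_ne (hσ₁ σ) ?_
        intro h
        apply hσ.2
        have hTσ : T σ = false := by
          cases h' : T σ
          · rfl
          · exact absurd h (hA σ h')
        exact heq _ _ (hTσ.trans hT1.symm) h) hM1
    obtain ⟨R₀, hR₀⟩ := exists_word (c := 1 / (3 * M)) (d := 1 / (3 * M'))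
      (by positivity) (by
        apply one_div_lt_one_div_of_lt <;> linarith)
    obtain ⟨l₀, hl₀⟩ := pat2
    obtain ⟨c, hc⟩ := exists_nat_gt ((max R₀ 1) ^ 2)
    obtain ⟨l, hl, hlB, hlm⟩ := exists_LPrime hm (m + l₀ + c + B₁ + 1)
    have hR : max R₀ 1 < Real.sqrt l := by
      apply Real.lt_sqrt_of_sq_lt
      have : (c : ℝ) ≤ l := by exact_mod_cast (by omega : c ≤ l)
      linarith
    have hR1 : R₀ < Real.sqrt l := lt_of_le_of_lt (le_max_left _ _) hR
    have hR0 : 0 < Real.sqrt l := by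
      have := lt_of_le_of_lt (le_max_right _ _) hR
      linarith
    obtain ⟨w, hw, hw1, hw2⟩ := hR₀ _ hR1
    have hwp : ∀ n ∈ w, n.Prime := fun n hn => (prime_of hw n hn).1
    have hq : ∀ t : Bool, _ := fun t => walk_fin (F := TT 3 (HH l)) (t := t) (m := 3)
      (by norm_num) hR0 hM'1 hM'M h2M (hl₀ l hl (by omega) t).1 (hl₀ l hl (by omega) t).2 hw
      hw1 hw2
    have hgood : Good l (Tw w (TT 3 (HH l))) :=
      Tw_good hwp (Good.TT Nat.prime_three (HH_good hl))
    have hnz : ∀ σ : k →+* ℝ, ev (Tw w (TT 3 (HH l))) (T σ) (Y σ) ≠ 0 := by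
      intro σ
      rw [← hev]
      apply real_ne
      have h2 : Tw w (TT 3 (HH l)) = Tw (w ++ [3]) (HH l) := by
        rw [Tw_append]
        rfl
      rw [h2]
      have hB' : B σ < l := by
        have := hB₁ σ
        omega
      refine hB σ l hl hB' (w ++ [3]) ?_
      intro n hn
      rw [List.mem_append, List.mem_singleton] at hn
      rcases hn with hn | rfl
      · exact hwp n hn
      · exact Nat.prime_three
    refine ⟨l, _, hl, by omega, hlm, hgood, ?_⟩
    apply good_norm W hW hgood.even σ₁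
    · rw [hev]
      refine lt_of_le_of_ne ?_ (hnz σ₁)
      exact (hq (T σ₁)).1
    · intro σ hσ
      rw [hev]
      refine lt_of_le_of_ne ?_ (hnz σ).symm
      refine (hq (T σ)).2 _ (hY1 σ) (hM's _ ?_)
      exact Finset.mem_image_of_mem _ (by simp [hσ])

/-- Elkies' theorem: an elliptic curve over a number field with a real embedding has good
supersingular reduction at infinitely many places. -/
theorem elkies {K : Type} [Field K] [NumberField K] (ρ : K →+* ℝ) (W : WeierstrassCurve (𝓞 K))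
    (hW : W.Δ ≠ 0) : {v : HeightOneSpectrum (𝓞 K) | SSRed W v}.Infinite := by
  obtain ⟨k, _, _, _, W₀, h₀, hj, hjj, hinj⟩ := exists_sub W hW
  exact ZI.inf_up hW hj (elkies_core W₀ h₀ (ρ.comp (algebraMap k K)) hinj)

end Pool.Agent.SS.RK
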