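import Pool.Agent.Work.MP_a5099b_nt.R.Nm
import Pool.Agent.Work.MP_a5099b_nt.J.Fin2
import Pool.Agent.Work.MP_a5099b_nt.J.Bad
import Pool.Agent.Work.MP_a5099b_nt.J.Ordn
import Pool.Agent.Work.MP_a5099b_nt.J.Cnt

/-!
# Module Crit (S-M): the criterion

PROOF (compare J/Main, `theorem main`, whose parts are used).  Suppose the set is finite.  `J.exists_bad` with `q = 7` gives `m` (odd,
squarefree, `¬ 7 ∣ m`, `3 ∣ m`) with: `v ∋ p` prime, `W.Δ ∈ v` or `SSRed W v` imply `p = 2 ∨ p = 7 ∨ p ∣ m`.  Let `M = 7 m` (odd, squarefree).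
`H M M` gives `l > M`, `F`.  Let `x = HV F (c₄^3) Δ ≠ 0` (`HV_field`, `hW`).
First evaluation: `jac_eq_neg_one`; its hypothesis: a place `v ∋ l` is not bad and not supersingular (otherwise `l = 2 ∨ l = 7 ∨ l ∣ m`, but
`l > M`), so `x ∉ v` by `J.not_mem_of_ordinary` (with `p = l`).
Second evaluation: `J.jac_eq_pow` with `q := 1`, `S := ∅`: no place contains `1`, so the last two hypotheses are empty, and the first
one is `J.symb_one` with `q := 1`, `m := M` (its `hbad` is `p = 2 ∨ p = 1 ∨ p ∣ M`): the symbol is `(-1)^0 = 1`.  Contradiction.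
-/

set_option autoImplicit false

namespace Pool.Agent.SS.RE

open NumberField IsDedekindDomain Polynomial

variable {K : Type} [Field K] [NumberField K]

theorem crit (W : WeierstrassCurve (𝓞 K)) (hW : W.Δ ≠ 0)
    (H : ∀ m B : ℕ, Odd m → Squarefree m → ∃ (l : ℕ) (F : ℤ[X]), LPrime l ∧ B < l ∧
      (m : ℤ) ∣ l + 1 ∧ Good l F ∧ aeval ((W.c₄ : K) ^ 3 / (W.Δ : K)) F ≠ 0 ∧
      Odd {σ : K →+* ℝ | aeval (σ ((W.c₄ : K) ^ 3 / (W.Δ : K))) F < 0}.ncard) :
    {v : HeightOneSpectrum (𝓞 K) | SSRed W v}.Infinite := by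
  classical
  by_contra hfin
  rw [Set.not_infinite] at hfin
  obtain ⟨m, hm, hmsf, hqm, h3m, hbad⟩ := J.exists_bad (q := 7) (by norm_num) (le_refl _) W hW hfin
  have h7 : Nat.Prime 7 := by norm_num
  have hM : Odd (7 * m) := Odd.mul (by decide) hm
  have hMsf : Squarefree (7 * m) := by
    rw [Nat.squarefree_mul ((Nat.Prime.coprime_iff_not_dvd h7).mpr hqm)]
    exact ⟨h7.prime.squarefree, hmsf⟩
  obtain ⟨l, F, hLP, hBl, hlm, hF, hne0, hodd⟩ := H (7 * m) (7 * m) hM hMsf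
  have hl := hLP.prime
  have hbad' : ∀ (v : HeightOneSpectrum (𝓞 K)) (p : ℕ), p.Prime → (p : 𝓞 K) ∈ v.asIdeal →
      (W.Δ ∈ v.asIdeal ∨ SSRed W v) → p = 2 ∨ p = 1 ∨ p ∣ 7 * m := by
    intro v p hp hpv h
    rcases hbad v p hp hpv h with h | h | h
    · exact Or.inl h
    · exact Or.inr (Or.inr (by rw [h]; exact dvd_mul_right _ _))
    · exact Or.inr (Or.inr (dvd_mul_of_dvd_right h _))
  have hΔ : ((W.Δ : 𝓞 K) : K) ≠ 0 := by
    simpa using hW
  have hne : J.HV F (W.c₄ ^ 3) W.Δ ≠ 0 := by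
    intro h
    have h3 : J.HV F ((W.c₄ ^ 3 : 𝓞 K) : K) ((W.Δ : 𝓞 K) : K) = 0 := by
      have := J.HV_map (algebraMap (𝓞 K) K) F (W.c₄ ^ 3) W.Δ
      rw [h, map_zero] at this
      exact this.symm
    rw [J.HV_field _ _ _ hΔ] at h3
    rcases mul_eq_zero.mp h3 with h4 | h4
    · exact pow_ne_zero _ hΔ h4
    · apply hne0
      rw [← h4]
      congr 2
  have hmpos : 0 < m := hm.pos
  -- first evaluation
  have e1 := jac_eq_neg_one hLP hF (W.c₄ ^ 3) W.Δ hW hne (by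
    have hc : (((W.c₄ ^ 3 : 𝓞 K) : K)) = ((W.c₄ : 𝓞 K) : K) ^ 3 :=
      map_pow (algebraMap (𝓞 K) K) W.c₄ 3
    rw [hc]
    exact hodd) (by
    intro v hv
    have hgl : ¬ (W.Δ ∈ v.asIdeal ∨ SSRed W v) := by
      intro h
      rcases hbad' v l hl hv h with h | h | h
      · have := hLP.mod8
        omega
      · exact hl.one_lt.ne' h
      · have := Nat.le_of_dvd (by omega) h
        omega
    push Not at hgl
    have := hLP.mod8
    exact J.not_mem_of_ordinary W v hl (by omega) hv hgl.1 hgl.2 (Or.inl rfl) hF)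
  -- second evaluation
  have h1not : ∀ v : HeightOneSpectrum (𝓞 K), ((1 : ℕ) : 𝓞 K) ∉ v.asIdeal := by
    intro v h
    apply v.isPrime.ne_top
    rw [Ideal.eq_top_iff_one]
    simpa using h
  have e2 := J.jac_eq_pow (l := l) hne 1 ∅ (fun _ => 0)
    (fun v hqv hv => J.symb_one hLP W hlm (dvd_mul_of_dvd_right h3m _) hbad' hF v hqv hv)
    (fun v hqv _ => absurd hqv (h1not v))
    (fun v hv => absurd hv (by simp))
  rw [e1] at e2
  simp at e2

end Pool.Agent.SS.RE
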