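import Mathlib
import Pool.Agent.Work.MP_a5099b_nt.Defs
import Pool.Agent.Work.MP_a5099b_nt.A.Defs

/-!
Real lattices (Elkies' theorem for number fields with a real place).
-/

set_option autoImplicit false

namespace Pool.Agent.SS.RE

noncomputable section

/-- The rectangular lattice `ℤ i t + ℤ`. -/
def rct (t : ℝ) : Submodule ℤ ℂ := Submodule.span ℤ {(t : ℂ) * Complex.I, 1}

/-- The rhombic lattice `ℤ (1 + i t)/2 + ℤ`. -/
def rhb (t : ℝ) : Submodule ℤ ℂ := Submodule.span ℤ {(1 + (t : ℂ) * Complex.I) / 2, 1}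

/-- The invariant of `rct t` (it is real, `Rj.jL_rct`). -/
def jr (t : ℝ) : ℝ := (jL (rct t)).re

/-- The invariant of `rhb t` (it is real, `Rj.jL_rhb`). -/
def jh (t : ℝ) : ℝ := (jL (rhb t)).re

end

end Pool.Agent.SS.RE
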