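import Pool.Agent.Work.MP_a5099b_nt.SpecB

/-!
# Module Sg (S): the sign of `HH l` and of `PhiDiag l`

PROOF.  `HH_factor` (B/HHx): `PhiDiag l = -(HH l * S ^ 2)`, `S` monic.  If `HH l` is positive at `x ∈ U`, it is positive on a
neighbourhood `V ⊆ U` of `x` (continuity), there `PhiDiag l = -(HH l) S^2 ≤ 0`, so `PhiDiag l = 0`, so `S = 0` on `V`, an infinite set, so
`S = 0`, contradiction to monic.  The second statement in the same way.
-/

set_option autoImplicit false

namespace Pool.Agent.SS.RE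

open Polynomial

private theorem aeval_eq_eval (x : ℝ) (F : ℤ[X]) :
    aeval x F = (F.map (Int.castRingHom ℝ)).eval x := by
  rw [aeval_def, eval_map]
  rfl

private theorem cont_aeval (F : ℤ[X]) : Continuous fun x : ℝ => aeval x F := by
  have h : (fun x : ℝ => aeval x F) = fun x => (F.map (Int.castRingHom ℝ)).eval x :=
    funext fun x => aeval_eq_eval x F
  rw [h]
  exact Polynomial.continuous _

/-- A monic polynomial does not vanish on a nonempty open set. -/
private theorem exists_ne {S : ℤ[X]} (hS : S.Monic) {V : Set ℝ} (hV : IsOpen V)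
    (hne : V.Nonempty) : ∃ x ∈ V, aeval x S ≠ 0 := by
  by_contra hcon
  push Not at hcon
  have hinf : V.Infinite := by
    obtain ⟨x, hx⟩ := hne
    exact infinite_of_mem_nhds x (hV.mem_nhds hx)
  have h0 : S.map (Int.castRingHom ℝ) = 0 := by
    refine Polynomial.eq_zero_of_infinite_isRoot _ (hinf.mono fun x hx => ?_)
    show (S.map (Int.castRingHom ℝ)).IsRoot x
    rw [Polynomial.IsRoot, ← aeval_eq_eval]
    exact hcon x hx
  exact (hS.map (Int.castRingHom ℝ)).ne_zero h0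

theorem HH_nonpos {l : ℕ} (hl : LPrime l) {U : Set ℝ} (hU : IsOpen U)
    (h : ∀ x ∈ U, 0 ≤ aeval x (PhiDiag l)) : ∀ x ∈ U, aeval x (HH l) ≤ 0 := by
  intro x hx
  by_contra hc
  rw [not_le] at hc
  obtain ⟨S, hS, he⟩ := HH_factor hl
  have hV : IsOpen (U ∩ {y : ℝ | 0 < aeval y (HH l)}) :=
    hU.inter (isOpen_lt continuous_const (cont_aeval _))
  obtain ⟨y, ⟨hyU, hy⟩, hyS⟩ := exists_ne hS hV ⟨x, hx, hc⟩
  have h1 := h y hyU
  rw [he, map_neg, map_mul, map_pow] at h1
  have h2 : 0 < (aeval y S) ^ 2 := by positivity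
  have hy' : 0 < aeval y (HH l) := hy
  nlinarith [mul_pos hy' h2]

theorem HH_nonneg {l : ℕ} (hl : LPrime l) {U : Set ℝ} (hU : IsOpen U)
    (h : ∀ x ∈ U, aeval x (PhiDiag l) ≤ 0) : ∀ x ∈ U, 0 ≤ aeval x (HH l) := by
  intro x hx
  by_contra hc
  rw [not_le] at hc
  obtain ⟨S, hS, he⟩ := HH_factor hl
  have hV : IsOpen (U ∩ {y : ℝ | aeval y (HH l) < 0}) :=
    hU.inter (isOpen_lt (cont_aeval _) continuous_const)
  obtain ⟨y, ⟨hyU, hy⟩, hyS⟩ := exists_ne hS hV ⟨x, hx, hc⟩
  have h1 := h y hyU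
  rw [he, map_neg, map_mul, map_pow] at h1
  have h2 : 0 < (aeval y S) ^ 2 := by positivity
  have hy' : aeval y (HH l) < 0 := hy
  nlinarith [mul_pos_of_neg_of_neg hy' (neg_neg_of_pos h2)]

end Pool.Agent.SS.RE
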