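import Pool.Agent.Work.MP_a5099b_nt.R.Ts
import Pool.Agent.Work.MP_a5099b_nt.SpecB
import Pool.Agent.Work.MP_a5099b_nt.SpecT

/-!
# Module Tv (S-M): real values of `TT n F` and of `PhiDiag n`

PROOF.  `TT_aeval` (SpecT) with `s` the multiset of the `jL L'`, `L' ∈ supF n L`, and `PhiAt_supF` (B/PhiX):
`aeval (jL L) (TT n F) = ∏_(L' ∈ supF n L) aeval (jL L') F`.  Take `L = rct t` (`jL_rct`, `isLat_rct` in Rj), `f z = aeval z F`
(`f (conj z) = conj (f z)` because the coefficients are integers: `Polynomial.hom_eval₂` / `aeval_algHom_apply`), `prod_rct`, and compare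
real parts: `aeval (x : ℂ) F = ((aeval x F : ℝ) : ℂ)` for real `x` (`Polynomial.aeval_algebraMap_apply`, or `Complex.ofReal`-hom).
`diag_*`: `PhiDiag_aeval` (B/PhiX): `aeval x (PhiDiag n) = (PhiAt n x).eval x`, and `PhiAt_supF`: `= ∏_(L' ∈ supF n L) (x - jL L')`, so the
same with `f z = x - z`.
-/

set_option autoImplicit false

namespace Pool.Agent.SS.RE

open Polynomial

private theorem conj_aeval (F : ℤ[X]) (z : ℂ) :
    aeval ((starRingEnd ℂ) z) F = (starRingEnd ℂ) (aeval z F) := by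
  rw [aeval_def, aeval_def, Polynomial.hom_eval₂]
  congr 1
  exact RingHom.ext_int _ _

private theorem aeval_re (F : ℤ[X]) (x : ℝ) : aeval (x : ℂ) F = ((aeval x F : ℝ) : ℂ) := by
  have h : ((aeval x F : ℝ) : ℂ) = Complex.ofRealHom (aeval x F) := rfl
  rw [h, aeval_def, aeval_def, Polynomial.hom_eval₂]
  congr 1

private theorem TT_L {n : ℕ} (hn : n.Prime) {L : Submodule ℤ ℂ}
    (hL : Pool.Agent.Work.CM.IsLat L) (F : ℤ[X]) :
    aeval (jL L) (TT n F) = ∏ L' ∈ supF n L, aeval (jL L') F := by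
  have h := TT_aeval hn (jL L) ((supF n L).val.map jL) (by
    rw [PhiAt_supF hn hL, Multiset.map_map]
    rfl) F
  rw [h, Multiset.map_map]
  rfl

private theorem diag_L {n : ℕ} (hn : n.Prime) {L : Submodule ℤ ℂ}
    (hL : Pool.Agent.Work.CM.IsLat L) :
    aeval (jL L) (PhiDiag n) = ∏ L' ∈ supF n L, (jL L - jL L') := by
  rw [PhiDiag_aeval, PhiAt_supF hn hL, eval_prod]
  refine Finset.prod_congr rfl fun L' _ => ?_
  rw [eval_sub, eval_X, eval_C]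

theorem TT_rct {n : ℕ} (hn : n.Prime) (h2 : n ≠ 2) {t : ℝ} (ht : 0 < t) (F : ℤ[X]) :
    ∃ P : ℝ, 0 ≤ P ∧ aeval (jr t) (TT n F) = P * (aeval (jr (n * t)) F * aeval (jr (t / n)) F) := by
  obtain ⟨P, hP, h⟩ := prod_rct hn h2 ht (fun z => aeval z F) (conj_aeval F)
  refine ⟨P, hP, ?_⟩
  have h3 := TT_L hn (isLat_rct ht) F
  rw [h, jL_rct ht, aeval_re, aeval_re, aeval_re] at h3
  exact_mod_cast h3

theorem TT_rhb {n : ℕ} (hn : n.Prime) (h2 : n ≠ 2) {t : ℝ} (ht : 0 < t) (F : ℤ[X]) :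
    ∃ P : ℝ, 0 ≤ P ∧ aeval (jh t) (TT n F) = P * (aeval (jh (n * t)) F * aeval (jh (t / n)) F) := by
  obtain ⟨P, hP, h⟩ := prod_rhb hn h2 ht (fun z => aeval z F) (conj_aeval F)
  refine ⟨P, hP, ?_⟩
  have h3 := TT_L hn (isLat_rhb ht) F
  rw [h, jL_rhb ht, aeval_re, aeval_re, aeval_re] at h3
  exact_mod_cast h3

theorem TT_rct_two {t : ℝ} (ht : 0 < t) (F : ℤ[X]) :
    aeval (jr t) (TT 2 F) = aeval (jr (2 * t)) F * aeval (jr (t / 2)) F * aeval (jh t) F := by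
  have h := prod_rct_two ht (fun z => aeval z F)
  have h3 := TT_L Nat.prime_two (isLat_rct ht) F
  rw [h, jL_rct ht, aeval_re, aeval_re, aeval_re, aeval_re] at h3
  exact_mod_cast h3

theorem TT_rhb_two {t : ℝ} (ht : 0 < t) (F : ℤ[X]) :
    ∃ P : ℝ, 0 ≤ P ∧ aeval (jh t) (TT 2 F) = P * aeval (jr t) F := by
  obtain ⟨P, hP, h⟩ := prod_rhb_two ht (fun z => aeval z F) (conj_aeval F)
  refine ⟨P, hP, ?_⟩
  have h3 := TT_L Nat.prime_two (isLat_rhb ht) F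
  rw [h, jL_rhb ht, aeval_re, aeval_re] at h3
  exact_mod_cast h3

theorem diag_rct {n : ℕ} (hn : n.Prime) (h2 : n ≠ 2) {t : ℝ} (ht : 0 < t) :
    ∃ P : ℝ, 0 ≤ P ∧ aeval (jr t) (PhiDiag n) =
      P * ((jr t - jr (n * t)) * (jr t - jr (t / n))) := by
  obtain ⟨P, hP, h⟩ := prod_rct hn h2 ht (fun z => (jr t : ℂ) - z) (fun z => by
    rw [map_sub, Complex.conj_ofReal])
  refine ⟨P, hP, ?_⟩
  have h3 := diag_L hn (isLat_rct ht)
  rw [jL_rct ht, h, aeval_re] at h3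
  exact_mod_cast h3

theorem diag_rhb {n : ℕ} (hn : n.Prime) (h2 : n ≠ 2) {t : ℝ} (ht : 0 < t) :
    ∃ P : ℝ, 0 ≤ P ∧ aeval (jh t) (PhiDiag n) =
      P * ((jh t - jh (n * t)) * (jh t - jh (t / n))) := by
  obtain ⟨P, hP, h⟩ := prod_rhb hn h2 ht (fun z => (jh t : ℂ) - z) (fun z => by
    rw [map_sub, Complex.conj_ofReal])
  refine ⟨P, hP, ?_⟩
  have h3 := diag_L hn (isLat_rhb ht)
  rw [jL_rhb ht, h, aeval_re] at h3
  exact_mod_cast h3

end Pool.Agent.SS.RE
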