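import Pool.Agent.Work.MP_a5099b_nt.R.Rp
import Pool.Agent.Work.MP_a5099b_nt.R.Tv
import Pool.Agent.Work.MP_a5099b_nt.R.Sg
import Pool.Agent.Work.MP_a5099b_nt.J.Cm
import Pool.Agent.Work.MP_a5099b_nt.J.Sur

/-!
# Module Neg (S-M): `HH l` is negative at a fixed real number for large `l`

PROOF.  Let `U = (x - 1, x + 1)`.  `bdd_param (x - 1) (x + 1)` gives `T`: every `y ∈ U` is `jr t` or `jh t` with `1 ≤ t ≤ T`
(`exists_param`).  By `tendsto_jr`, `tendsto_jh` there is `M` with `jr s > x + 1`, `jh s < x - 1` for `s ≥ M`.  For `l > M T` (`l` a natural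
number, `l ≥ 1`): `l t ≥ M`, and `jr (t/l) = jr (l/t)` (`jr_inv`), `l/t ≥ l/T ≥ M`, so in `diag_rct` both factors `y - jr (l t)`,
`y - jr (t/l)` are negative and the value is `≥ 0`; in the same way for `diag_rhb` (both factors positive).  `HH_nonpos` gives
`aeval x (HH l) ≤ 0`.  It is not zero for large `l`: `J.nonvanish jL_hom jL_sur` (J/Cm, J/Sur; with any prime, `i = 0`) for `(x : ℂ)`;
`aeval (x : ℂ) F = (aeval x F : ℝ)`.
-/

set_option autoImplicit false

namespace Pool.Agent.SS.RE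

open Polynomial

private theorem diag_nonneg (x : ℝ) : ∃ B : ℕ, ∀ l : ℕ, LPrime l → B < l →
    ∀ y ∈ Set.Ioo (x - 1) (x + 1), 0 ≤ aeval y (PhiDiag l) := by
  obtain ⟨T, hT1, hT⟩ := bdd_param (x - 1) (x + 1)
  obtain ⟨M, hM⟩ := Filter.eventually_atTop.1
    ((tendsto_jr.eventually_gt_atTop (x + 1)).and (tendsto_jh.eventually_lt_atBot (x - 1)))
  obtain ⟨B, hB⟩ := exists_nat_gt (max M 0 * T)
  refine ⟨B, fun l hl hBl y hy => ?_⟩
  obtain ⟨t, ht1, hxt⟩ := exists_param y
  have htT : t ≤ T := by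
    apply hT t ht1
    rcases hxt with h | h
    · left
      rw [← h]
      exact hy.2.le
    · right
      rw [← h]
      exact hy.1.le
  have ht0 : 0 < t := lt_of_lt_of_le one_pos ht1
  have hl2 : l ≠ 2 := by
    intro h
    have := hl.mod8
    omega
  have hBl' : (B : ℝ) < l := by exact_mod_cast hBl
  have hm0 : 0 ≤ max M 0 := le_max_right _ _
  have hlM : max M 0 * T < l := hB.trans hBl'
  have hlt : M ≤ l * t := by
    have h1 : max M 0 * 1 ≤ max M 0 * T := mul_le_mul_of_nonneg_left hT1 hm0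
    have h2 : (l : ℝ) * 1 ≤ l * t := mul_le_mul_of_nonneg_left ht1 (Nat.cast_nonneg _)
    have h3 : M ≤ max M 0 := le_max_left _ _
    linarith
  have hlt' : M ≤ l / t := by
    rw [le_div_iff₀ ht0]
    have h1 : M * t ≤ max M 0 * t := mul_le_mul_of_nonneg_right (le_max_left _ _) ht0.le
    have h2 : max M 0 * t ≤ max M 0 * T := mul_le_mul_of_nonneg_left htT hm0
    linarith
  have hl0 : (0 : ℝ) < l := by exact_mod_cast hl.prime.pos
  have hinv : (t : ℝ) / l = 1 / (l / t) := by rw [one_div_div]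
  have hlt0 : 0 < (l : ℝ) / t := div_pos hl0 ht0
  rcases hxt with h | h
  · obtain ⟨P, hP, he⟩ := diag_rct hl.prime hl2 ht0
    rw [h, he]
    apply mul_nonneg hP
    rw [hinv, jr_inv hlt0, ← h]
    apply mul_nonneg_of_nonpos_of_nonpos
    · have := (hM _ hlt).1
      linarith [hy.2]
    · have := (hM _ hlt').1
      linarith [hy.2]
  · obtain ⟨P, hP, he⟩ := diag_rhb hl.prime hl2 ht0
    rw [h, he]
    apply mul_nonneg hP
    rw [hinv, jh_inv hlt0, ← h]
    apply mul_nonneg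
    · have := (hM _ hlt).2
      linarith [hy.1]
    · have := (hM _ hlt').2
      linarith [hy.1]

private theorem aeval_ofReal (x : ℝ) (F : ℤ[X]) : aeval (x : ℂ) F = ((aeval x F : ℝ) : ℂ) := by
  have h := aeval_algebraMap_apply ℂ x F
  exact h

theorem HH_neg (x : ℝ) : ∃ B : ℕ, ∀ l : ℕ, LPrime l → B < l → aeval x (HH l) < 0 := by
  obtain ⟨B, hB⟩ := diag_nonneg x
  obtain ⟨B', hB'⟩ := J.nonvanish J.jL_hom J.jL_sur Nat.prime_two (x : ℂ)
  refine ⟨max B B', fun l hl hlt => ?_⟩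
  have h1 := HH_nonpos hl isOpen_Ioo (hB l hl (lt_of_le_of_lt (le_max_left _ _) hlt)) x
    ⟨by linarith, by linarith⟩
  refine lt_of_le_of_ne h1 fun h0 => ?_
  refine hB' l hl (lt_of_le_of_lt (le_max_right _ _) hlt) 0 ?_
  rw [Function.iterate_zero, id, aeval_ofReal, h0, Complex.ofReal_zero]

end Pool.Agent.SS.RE
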