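import Pool.Agent.Work.MP_a5099b_nt.J.Fin1

/-!
# Module Nm (M): the sign of the norm

PROOF.
* `norm_neg`: copy the proof of `J.norm_pos` (J/Nrm): `(Algebra.norm ℚ x : ℂ) = ∏ φ : K →+* ℂ, φ x`, product over the fibres of
  `InfinitePlace.mk`; the fibre of a complex place gives `(w x)^2 > 0`, the fibre of a real place is one embedding, a real number, the
  value of the corresponding `σ : K →+* ℝ` (`InfinitePlace.embedding_of_isReal`); the map `σ ↦` (place of `ofReal ∘ σ`) is a bijection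
  from `K →+* ℝ` to the real places.  So the norm is `∏ σ : K →+* ℝ, σ x` times a positive number, and its sign is `(-1)^(number of σ
  with σ x < 0)`.  (Alternative: `∏ φ : K →+* ℂ, φ x`, split into the `φ` with `ComplexEmbedding.IsReal φ` and the others, which are
  permuted without fixed points by conjugation.)
* `norm_HV_neg`: `HV_map`, `HV_field` (J/HVal): `σ (HV F c d) = (σ d)^(deg F) * aeval (σ (c/d)) F` and `(σ d)^(even) > 0`; `norm_neg`.
* `jac_eq_neg_one`: copy of the proof of `J.jac_eq_one` (J/Fin1): the norm is now `-absNorm`, so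
  `jacobiSym absNorm l = jacobiSym (-1) l * jacobiSym norm l = (-1) * 1`, `l ≡ 7 mod 8` (`ZMod.χ₄_nat_three_mod_four`, compare
  `J.jac_neg` in J/Rec).
-/

set_option autoImplicit false

namespace Pool.Agent.SS.RE

open NumberField IsDedekindDomain Polynomial

variable {K : Type} [Field K] [NumberField K]

theorem norm_neg (x : 𝓞 K) (hx : x ≠ 0) (hodd : Odd {σ : K →+* ℝ | σ (x : K) < 0}.ncard) :
    Algebra.norm ℤ x < 0 := by
  sorry

theorem norm_HV_neg (F : ℤ[X]) (hF : Even F.natDegree) (c d : 𝓞 K) (hd : d ≠ 0)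
    (hne : J.HV F c d ≠ 0)
    (hodd : Odd {σ : K →+* ℝ | aeval (σ ((c : K) / (d : K))) F < 0}.ncard) :
    Algebra.norm ℤ (J.HV F c d) < 0 := by
  sorry

theorem jac_eq_neg_one {l : ℕ} (hl : LPrime l) {F : ℤ[X]} (hF : Good l F)
    (c d : 𝓞 K) (hd : d ≠ 0) (hne : J.HV F c d ≠ 0)
    (hodd : Odd {σ : K →+* ℝ | aeval (σ ((c : K) / (d : K))) F < 0}.ncard)
    (hu : ∀ v : HeightOneSpectrum (𝓞 K), (l : 𝓞 K) ∈ v.asIdeal → J.HV F c d ∉ v.asIdeal) :
    jacobiSym (Ideal.absNorm (Ideal.span {J.HV F c d}) : ℤ) l = -1 := by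
  sorry

end Pool.Agent.SS.RE
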