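import Pool.Agent.Work.MP_a5099b_nt.R.Crit
import Pool.Agent.Work.MP_a5099b_nt.R.Neg
import Pool.Agent.Work.MP_a5099b_nt.SpecC

/-!
# Module OddReal (S-M): Elkies' theorem for an odd number of real places

PROOF.  `crit` with `F = HH l`: given `m`, `B`, let `B' ≥ B` be larger than the bounds of `HH_neg (σ j)` for the finitely many
`σ : K →+* ℝ`; a prime `l > B'` with `l ≡ -1 mod 24 m` exists by Dirichlet (`Nat.forall_exists_prime_gt_and_eq_mod` or
`Nat.forall_exists_prime_gt_and_modEq`, `Nat.exists_prime_gt_modEq_neg_one`?); it is an `LPrime` (`l % 8 = 7`, `l % 3 = 2`) and `m ∣ l + 1`;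
`HH_good hl`.  All `σ j` are negative places, so the set is everything, its cardinality is the number of real embeddings.
`aeval j (HH l) ≠ 0` because its image under some `σ` is negative (there is a `σ`, the number is odd).
`odd_degree`: `finrank ℚ K = r₁ + 2 r₂` (`InfinitePlace.card_add_two_mul_card_eq_rank` or
`NumberField.InfinitePlace.nrRealPlaces_add_...`), and `r₁` is the number of `σ : K →+* ℝ` (bijection with the real places; the same
bijection is used in `Nm`).
-/

set_option autoImplicit false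

namespace Pool.Agent.SS.RE

open NumberField IsDedekindDomain Polynomial

private theorem aeval_map' {K L : Type} [Field K] [Field L] (σ : K →+* L) (x : K) (F : ℤ[X]) :
    aeval (σ x) F = σ (aeval x F) := by
  rw [aeval_def, aeval_def, hom_eval₂]
  congr 1
  exact Subsingleton.elim _ _

/-- Elkies 1987: infinitely many supersingular places if the number of real embeddings is odd. -/
theorem inf_of_odd_real {K : Type} [Field K] [NumberField K] (hK : Odd (Nat.card (K →+* ℝ)))
    (W : WeierstrassCurve (𝓞 K)) (hW : W.Δ ≠ 0) :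
    {v : HeightOneSpectrum (𝓞 K) | SSRed W v}.Infinite := by
  apply crit W hW
  intro m B hm _
  set j : K := (W.c₄ : K) ^ 3 / (W.Δ : K) with hj
  choose Bf hBf using fun σ : K →+* ℝ => HH_neg (σ j)
  have hm0 : 24 * m ≠ 0 := by
    obtain ⟨k, hk⟩ := hm
    omega
  have : NeZero (24 * m) := ⟨hm0⟩
  obtain ⟨l, hl1, hl2, hl3⟩ := Nat.forall_exists_prime_gt_and_eq_mod
    (q := 24 * m) (a := -1) isUnit_one.neg (max B (Finset.univ.sup Bf))
  have hdvd : 24 * m ∣ l + 1 := by
    rw [← ZMod.natCast_eq_zero_iff]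
    push_cast
    rw [hl3]
    ring
  have hLP : LPrime l := by
    obtain ⟨k, hk⟩ := hdvd
    have hk' : l + 1 = 24 * (m * k) := by rw [hk]; ring
    exact ⟨hl2, by omega, by omega⟩
  have hneg : ∀ σ : K →+* ℝ, aeval (σ j) (HH l) < 0 := by
    intro σ
    apply hBf σ l hLP
    have h1 : Bf σ ≤ Finset.univ.sup Bf := Finset.le_sup (Finset.mem_univ σ)
    exact lt_of_le_of_lt (h1.trans (le_max_right _ _)) hl1
  have hset : {σ : K →+* ℝ | aeval (σ j) (HH l) < 0} = Set.univ :=
    Set.eq_univ_of_forall hneg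
  refine ⟨l, HH l, hLP, lt_of_le_of_lt (le_max_left _ _) hl1, ?_, HH_good hLP, ?_, ?_⟩
  · have h1 : m ∣ l + 1 := (dvd_mul_left m 24).trans hdvd
    exact_mod_cast h1
  · have hpos : 0 < Nat.card (K →+* ℝ) := hK.pos
    have : Nonempty (K →+* ℝ) := (Nat.card_pos_iff.1 hpos).1
    obtain ⟨σ⟩ := (inferInstance : Nonempty (K →+* ℝ))
    intro h0
    have h1 := hneg σ
    rw [aeval_map', h0, map_zero] at h1
    exact lt_irrefl _ h1
  · rw [hset, Set.ncard_univ]
    exact hK

private theorem card_real {K : Type} [Field K] [NumberField K] :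
    Nat.card (K →+* ℝ) = InfinitePlace.nrRealPlaces K := by
  classical
  have h0 := InfinitePlace.card_real_embeddings K
  rw [← h0, Fintype.card_eq_nat_card]
  have hreal : ∀ σ : K →+* ℝ, ComplexEmbedding.IsReal (Complex.ofRealHom.comp σ) := by
    intro σ
    rw [ComplexEmbedding.isReal_iff]
    ext x
    rw [ComplexEmbedding.conjugate_coe_eq]
    exact Complex.conj_ofReal _
  refine Nat.card_eq_of_bijective
    (fun σ : K →+* ℝ => (⟨Complex.ofRealHom.comp σ, hreal σ⟩ :
      {φ : K →+* ℂ // ComplexEmbedding.IsReal φ})) ⟨?_, ?_⟩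
  · intro σ τ h
    have h1 : Complex.ofRealHom.comp σ = Complex.ofRealHom.comp τ := congrArg Subtype.val h
    ext x
    have h2 := RingHom.congr_fun h1 x
    exact Complex.ofReal_injective h2
  · rintro ⟨φ, hφ⟩
    refine ⟨hφ.embedding, ?_⟩
    apply Subtype.ext
    ext x
    exact hφ.coe_embedding_apply x

theorem inf_of_odd_degree {K : Type} [Field K] [NumberField K]
    (hK : Odd (Module.finrank ℚ K)) (W : WeierstrassCurve (𝓞 K)) (hW : W.Δ ≠ 0) :
    {v : HeightOneSpectrum (𝓞 K) | SSRed W v}.Infinite := by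
  apply inf_of_odd_real _ W hW
  rw [card_real]
  have h := InfinitePlace.card_add_two_mul_card_eq_rank K
  rw [← h] at hK
  rcases Nat.even_or_odd (InfinitePlace.nrRealPlaces K) with h1 | h1
  · exfalso
    obtain ⟨a, ha⟩ := h1
    obtain ⟨b, hb⟩ := hK
    omega
  · exact h1

end Pool.Agent.SS.RE
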