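import Pool.Agent.Work.MP_a5099b_nt.R.Rj

/-!
# Module Ra (M): continuity and limits of `jr`, `jh`

PROOF.  `QX_jL` (A/Exp) and `QX_iff` (A/Lev): `jL (tauLat τ) = lev (toC Jq) q`, `q = exp (2 π i τ)`; for `τ = i t` `q = exp (-2 π t) > 0`,
for `τ = (1 + i t)/2` `q = -exp (-π t) < 0`.  `Jq = E4q^3 * Dinv` has coefficient `1` at `-1` and `0` below (`Jq`, `Dinv` in A/Defs:
`single (-1) 1 * (power series with constant coefficient 1)`).
* limits: `q * jL` is the sum of the power series `∑_(m ≥ 0) a_(m-1) q^m` with `a_(-1) = 1`, convergent for `|q| < 1`; a power series is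
  continuous at `0`, so `q * jL (q) → 1` for `q → 0`, hence `jL → +∞` for `q → 0+` and `→ -∞` for `q → 0-`.
  (Alternative without series manipulations: `jL (tauLat τ) = E₄(τ)^3 / Δ(τ)` (`jL_eq`, `e4_tauLat`, `dl_tauLat` in A/Lat), Mathlib's
  product formula `Δ = q ∏ (1 - q^n)^24` or the expansion of `Δ`, and `E₄ → 1` at `i∞`.)
* continuity: `t ↦ E₄ (i t)`, `t ↦ Δ (i t)` are continuous (holomorphic functions, `ModularForm` is `MDifferentiable`, or
  `E₄`, `Δ` in terms of `τ : ℍ` continuous) and `Δ ≠ 0`; take real parts (`Complex.continuous_re`).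
-/

set_option autoImplicit false

namespace Pool.Agent.SS.RE

open Filter Topology UpperHalfPlane
open Pool.Agent.Work.CM (IsLat tauLat)

private theorem jL_tau (τ : ℍ) :
    jL (tauLat τ) = ModularForm.E₄ τ ^ 3 / ModularForm.discriminant τ := by
  rw [jL_eq, e4_tauLat, dl_tauLat]

private theorem cont_j :
    Continuous fun τ : ℍ => ModularForm.E₄ τ ^ 3 / ModularForm.discriminant τ := by
  have h4 : Continuous fun τ : ℍ => ModularForm.E₄ τ :=
    (ModularFormClass.holo ModularForm.E₄).continuous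
  have h6 : Continuous fun τ : ℍ => ModularForm.E₆ τ :=
    (ModularFormClass.holo ModularForm.E₆).continuous
  have hD : Continuous fun τ : ℍ => ModularForm.discriminant τ := by
    have e : (fun τ : ℍ => ModularForm.discriminant τ) =
        fun τ : ℍ => (ModularForm.E₄ τ ^ 3 - ModularForm.E₆ τ ^ 2) / 1728 := by
      funext τ
      exact ModularForm.discriminant_eq_E₄_cube_sub_E₆_sq τ
    rw [e]
    exact ((h4.pow 3).sub (h6.pow 2)).div_const _
  exact (h4.pow 3).div hD ModularForm.discriminant_ne_zero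

private theorem tendsto_E4 :
    Tendsto (fun τ : ℍ => ModularForm.E₄ τ) atImInfty (𝓝 1) := by
  have ha := ModularFormClass.analyticAt_cuspFunction_zero ModularForm.E₄ one_pos
    one_mem_strictPeriods_SL
  have h0 : cuspFunction 1 ModularForm.E₄ 0 = 1 := by
    have h := EisensteinSeries.E_qExpansion_coeff_zero (k := 4) (by norm_num)
      (by decide)
    rw [qExpansion_coeff] at h
    simpa using h
  have h1 := ha.continuousAt.tendsto.comp (qParam_tendsto_atImInfty one_pos)
  rw [h0] at h1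
  refine h1.congr (fun τ => ?_)
  exact SlashInvariantFormClass.eq_cuspFunction ModularForm.E₄ τ one_mem_strictPeriods_SL
    one_ne_zero

/-- the quotient `E₄ ^ 3 / (Δ / q)` -/
private noncomputable def rj (τ : ℍ) : ℂ :=
  ModularForm.E₄ τ ^ 3 / ∏' n, (1 - ModularForm.eta_q n τ) ^ 24

private theorem jL_rj (τ : ℍ) :
    jL (tauLat τ) = (Function.Periodic.qParam 1 τ)⁻¹ * rj τ := by
  rw [jL_tau, ModularForm.discriminant_eq_q_prod, rj, ← div_div, div_right_comm, mul_div_assoc',
    inv_mul_eq_div, div_right_comm]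

private theorem tendsto_rj : Tendsto (fun τ : ℍ => (rj τ).re) atImInfty (𝓝 1) := by
  have h := (tendsto_E4.pow 3).div ModularForm.tendsto_atImInfty_tprod_one_sub_eta_q_pow
    one_ne_zero
  have h2 := (Complex.continuous_re.tendsto _).comp h
  rw [one_pow, div_one, Complex.one_re] at h2
  exact h2

private theorem tauLat_rct {t : ℝ} (τ : ℍ) (hτ : (τ : ℂ) = (t : ℂ) * Complex.I) :
    tauLat τ = rct t := by
  rw [tauLat, rct, hτ]

private theorem tauLat_rhb {t : ℝ} (τ : ℍ) (hτ : (τ : ℂ) = (1 + (t : ℂ) * Complex.I) / 2) :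
    tauLat τ = rhb t := by
  rw [tauLat, rhb, hτ]

private theorem im_r (t : ℝ) : ((t : ℂ) * Complex.I).im = t := by simp

private theorem im_h (t : ℝ) : ((1 + (t : ℂ) * Complex.I) / 2).im = t / 2 := by
  have : ((1 + (t : ℂ) * Complex.I) / 2) = ((1 / 2 : ℝ) : ℂ) + ((t / 2 : ℝ) : ℂ) * Complex.I := by
    push_cast
    ring
  rw [this]
  simp

theorem cont_jr : ContinuousOn jr (Set.Ioi 0) := by
  rw [continuousOn_iff_continuous_restrict]
  have hm : Continuous fun t : Set.Ioi (0 : ℝ) =>
      (⟨((t : ℝ) : ℂ) * Complex.I, by rw [im_r]; exact t.2⟩ : ℍ) := by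
    refine Continuous.upperHalfPlaneMk ?_ _
    fun_prop
  refine (Complex.continuous_re.comp (cont_j.comp hm)).congr (fun t => ?_)
  show (ModularForm.E₄ _ ^ 3 / ModularForm.discriminant _).re = (jL (rct t)).re
  rw [← jL_tau, tauLat_rct (t := t) _ rfl]

theorem cont_jh : ContinuousOn jh (Set.Ioi 0) := by
  rw [continuousOn_iff_continuous_restrict]
  have hm : Continuous fun t : Set.Ioi (0 : ℝ) =>
      (⟨(1 + ((t : ℝ) : ℂ) * Complex.I) / 2, by rw [im_h]; exact half_pos t.2⟩ : ℍ) := by
    refine Continuous.upperHalfPlaneMk ?_ _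
    fun_prop
  refine (Complex.continuous_re.comp (cont_j.comp hm)).congr (fun t => ?_)
  show (ModularForm.E₄ _ ^ 3 / ModularForm.discriminant _).re = (jL (rhb t)).re
  rw [← jL_tau, tauLat_rhb (t := t) _ rfl]

private theorem tends_r :
    Tendsto (fun t : ℝ => ofComplex ((t : ℂ) * Complex.I)) atTop atImInfty := by
  refine tendsto_comap_im_ofComplex.comp (tendsto_comap_iff.mpr ?_)
  refine tendsto_id.congr (fun t => ?_)
  simp

private theorem tends_h :
    Tendsto (fun t : ℝ => ofComplex ((1 + (t : ℂ) * Complex.I) / 2)) atTop atImInfty := by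
  refine tendsto_comap_im_ofComplex.comp (tendsto_comap_iff.mpr ?_)
  refine (tendsto_id.atTop_div_const (r := 2) (by norm_num)).congr (fun t => ?_)
  exact (im_h t).symm

theorem tendsto_jr : Tendsto jr atTop atTop := by
  have h1 : Tendsto (fun t : ℝ => Real.exp (2 * Real.pi * t)) atTop atTop :=
    Real.tendsto_exp_atTop.comp (tendsto_id.const_mul_atTop Real.two_pi_pos)
  have h2 := h1.atTop_mul_pos one_pos (tendsto_rj.comp tends_r)
  refine h2.congr' ?_
  filter_upwards [eventually_gt_atTop 0] with t ht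
  have him : 0 < ((t : ℂ) * Complex.I).im := by rw [im_r]; exact ht
  have hc : ((ofComplex ((t : ℂ) * Complex.I) : ℍ) : ℂ) = (t : ℂ) * Complex.I := by
    rw [ofComplex_apply_of_im_pos him]
  show Real.exp (2 * Real.pi * t) * (rj (ofComplex ((t : ℂ) * Complex.I))).re = (jL (rct t)).re
  rw [← tauLat_rct _ hc, jL_rj, hc]
  have hq : (Function.Periodic.qParam 1 ((t : ℂ) * Complex.I))⁻¹ =
      ((Real.exp (2 * Real.pi * t) : ℝ) : ℂ) := by
    rw [Function.Periodic.qParam, ← Complex.exp_neg, Complex.ofReal_exp]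
    congr 1
    push_cast
    linear_combination (-2 * (Real.pi : ℂ) * t) * Complex.I_sq
  rw [hq, Complex.re_ofReal_mul]

theorem tendsto_jh : Tendsto jh atTop atBot := by
  have h1 : Tendsto (fun t : ℝ => Real.exp (Real.pi * t)) atTop atTop :=
    Real.tendsto_exp_atTop.comp (tendsto_id.const_mul_atTop Real.pi_pos)
  have h2 := tendsto_neg_atTop_atBot.comp (h1.atTop_mul_pos one_pos (tendsto_rj.comp tends_h))
  refine h2.congr' ?_
  filter_upwards [eventually_gt_atTop 0] with t ht
  have him : 0 < ((1 + (t : ℂ) * Complex.I) / 2).im := by rw [im_h]; exact half_pos ht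
  have hc : ((ofComplex ((1 + (t : ℂ) * Complex.I) / 2) : ℍ) : ℂ) =
      (1 + (t : ℂ) * Complex.I) / 2 := by
    rw [ofComplex_apply_of_im_pos him]
  show -(Real.exp (Real.pi * t) * (rj (ofComplex ((1 + (t : ℂ) * Complex.I) / 2))).re) =
    (jL (rhb t)).re
  rw [← tauLat_rhb _ hc, jL_rj, hc]
  have hq : (Function.Periodic.qParam 1 ((1 + (t : ℂ) * Complex.I) / 2))⁻¹ =
      ((-Real.exp (Real.pi * t) : ℝ) : ℂ) := by
    rw [Function.Periodic.qParam, ← Complex.exp_neg, Complex.ofReal_neg, Complex.ofReal_exp]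
    have e : -(2 * (Real.pi : ℂ) * Complex.I * ((1 + (t : ℂ) * Complex.I) / 2) / ((1 : ℝ) : ℂ)) =
        ((Real.pi * t : ℝ) : ℂ) + -((Real.pi : ℂ) * Complex.I) := by
      push_cast
      linear_combination (-(Real.pi : ℂ) * t) * Complex.I_sq
    rw [e, Complex.exp_add, Complex.exp_neg ((Real.pi : ℂ) * Complex.I), Complex.exp_pi_mul_I]
    norm_num
  rw [hq, Complex.re_ofReal_mul, neg_mul]

end Pool.Agent.SS.RE
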