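import Pool.Agent.Work.MP_a5099b_nt.R.Defs
import Pool.Agent.Work.MP_a5099b_nt.A.Exp
import Pool.Agent.Work.MP_a5099b_nt.A.Lat

/-!
# Module Rj (S-M): the invariants of real lattices

PROOF.  For `t > 0` let `τ = i t` (`UpperHalfPlane.mk`), then `rct t = tauLat τ` by definition, and `rhb t = tauLat ((1 + i t)/2)`;
`Pool.Agent.Work.CM.tauLat_isLat`.
* `jL_cj`: `QX_jL` (A/Exp): `jL (tauLat τ) = ∑ a_m q(τ)^m` (`HasSum`) with `a_m` the image of an integer (`toC`, `lmap`), and
  `q(-conj τ) = conj (q τ)` (`Function.Periodic.qParam`, `exp (2 π i τ)`); `HasSum.map` with complex conjugation (`Complex.hasSum_conj`,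
  or `Complex.conjCLE`), `HasSum.unique`.
* `jL_rct`: `-conj (i t) = i t`, so `jL (rct t)` is real by `jL_cj`.
* `jL_rhb`: `τ = (1 + i t)/2`, `-conj τ = τ - 1`, and `tauLat (τ - 1) = tauLat τ` (span of `τ - 1, 1`), so it is real.
* `jr_inv`: `rct (1/t) = m • rct t` with `m = i/t` (up to sign of a generator): `(i/t) (i t) = -1`, `(i/t) 1 = i/t`; `jL_smul` (A/Lat).
* `jh_inv`: with `m = i/t`: `m * (1 + i t)/2 = (i/t - 1)/2 = (1 + i/t)/2 - 1` and `m * 1 = i/t = 2 (1 + i/t)/2 - 1`: both generate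
  `rhb (1/t)`.
* `jr_one`: `(1 + i)/2 • rct 1`: generators `(1+i)/2 * i = (i - 1)/2 = (1 + i)/2 - 1` and `(1+i)/2`: this is `rhb 1`.
-/

set_option autoImplicit false

namespace Pool.Agent.SS.RE

open UpperHalfPlane
open Pool.Agent.Work.CM (IsLat tauLat)
open scoped Pointwise

private theorem span_pair_le {a b c d : ℂ} (m n m' n' : ℤ) (h1 : (m : ℂ) * c + n * d = a)
    (h2 : (m' : ℂ) * c + n' * d = b) :
    (Submodule.span ℤ {a, b} : Submodule ℤ ℂ) ≤ Submodule.span ℤ {c, d} := by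
  rw [Submodule.span_le]
  rintro z (rfl | rfl)
  · exact Submodule.mem_span_pair.2 ⟨m, n, by rw [zsmul_eq_mul, zsmul_eq_mul, h1]⟩
  · exact Submodule.mem_span_pair.2 ⟨m', n', by rw [zsmul_eq_mul, zsmul_eq_mul, h2]⟩

private theorem smul_span_pair (m a b : ℂ) :
    m • (Submodule.span ℤ {a, b} : Submodule ℤ ℂ) = Submodule.span ℤ {m * a, m * b} := by
  rw [← Submodule.span_smul]
  congr 1
  ext x
  simp only [Set.mem_smul_set, Set.mem_insert_iff, Set.mem_singleton_iff, smul_eq_mul]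
  constructor
  · rintro ⟨y, rfl | rfl, rfl⟩
    · exact Or.inl rfl
    · exact Or.inr rfl
  · rintro (rfl | rfl)
    · exact ⟨_, Or.inl rfl, rfl⟩
    · exact ⟨_, Or.inr rfl, rfl⟩

private noncomputable def tr (t : ℝ) (ht : 0 < t) : ℍ :=
  ⟨(t : ℂ) * Complex.I, by simpa using ht⟩

private noncomputable def th (t : ℝ) (ht : 0 < t) : ℍ :=
  ⟨(1 + (t : ℂ) * Complex.I) / 2, by simpa using ht⟩

private noncomputable def th' (t : ℝ) (ht : 0 < t) : ℍ :=
  ⟨(-1 + (t : ℂ) * Complex.I) / 2, by simpa using ht⟩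

private theorem rct_eq {t : ℝ} (ht : 0 < t) : rct t = tauLat (tr t ht) := rfl

private theorem rhb_eq {t : ℝ} (ht : 0 < t) : rhb t = tauLat (th t ht) := rfl

private theorem rhb_eq' {t : ℝ} (ht : 0 < t) : rhb t = tauLat (th' t ht) := by
  change (Submodule.span ℤ {(1 + (t : ℂ) * Complex.I) / 2, 1} : Submodule ℤ ℂ) =
    Submodule.span ℤ {(-1 + (t : ℂ) * Complex.I) / 2, 1}
  apply le_antisymm
  · refine span_pair_le 1 1 0 1 ?_ ?_
    · push_cast; ring
    · push_cast; ring
  · refine span_pair_le 1 (-1) 0 1 ?_ ?_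
    · push_cast; ring
    · push_cast; ring

theorem isLat_rct {t : ℝ} (ht : 0 < t) : IsLat (rct t) := by
  rw [rct_eq ht]
  exact Pool.Agent.Work.CM.tauLat_isLat _

theorem isLat_rhb {t : ℝ} (ht : 0 < t) : IsLat (rhb t) := by
  rw [rhb_eq ht]
  exact Pool.Agent.Work.CM.tauLat_isLat _

theorem jL_cj (τ τ' : ℍ) (h : (τ' : ℂ) = -(starRingEnd ℂ) (τ : ℂ)) :
    jL (tauLat τ') = (starRingEnd ℂ) (jL (tauLat τ)) := by
  have h1 := QX_jL τ
  have h2 := QX_jL τ'
  have h3 := h1.star
  refine h2.unique ?_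
  rw [starRingEnd_apply]
  convert h3 using 1
  funext m
  have hc : (toC Jq).coeff m = ((Jq.coeff m : ℤ) : ℂ) := rfl
  have hq : Function.Periodic.qParam ((1 : ℕ) : ℝ) (τ' : ℂ) =
      star (Function.Periodic.qParam ((1 : ℕ) : ℝ) (τ : ℂ)) := by
    unfold Function.Periodic.qParam
    rw [← starRingEnd_apply, ← Complex.exp_conj, h]
    congr 1
    simp only [map_mul, map_div₀, Complex.conj_I, Complex.conj_ofReal, map_ofNat]
    ring
  rw [hc, hq, ← starRingEnd_apply, ← starRingEnd_apply, map_mul, map_zpow₀, map_intCast]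

private theorem real_of_conj {z : ℂ} (h : z = (starRingEnd ℂ) z) : z = (z.re : ℂ) :=
  (Complex.conj_eq_iff_re.1 h.symm).symm

theorem jL_rct {t : ℝ} (ht : 0 < t) : jL (rct t) = (jr t : ℂ) := by
  unfold jr
  apply real_of_conj
  rw [rct_eq ht]
  apply jL_cj
  change (t : ℂ) * Complex.I = -(starRingEnd ℂ) ((t : ℂ) * Complex.I)
  rw [map_mul, Complex.conj_I, Complex.conj_ofReal]
  ring

theorem jL_rhb {t : ℝ} (ht : 0 < t) : jL (rhb t) = (jh t : ℂ) := by
  unfold jh
  apply real_of_conj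
  have h := jL_cj (th t ht) (th' t ht) (by
    change (-1 + (t : ℂ) * Complex.I) / 2 = -(starRingEnd ℂ) ((1 + (t : ℂ) * Complex.I) / 2)
    simp only [map_div₀, map_add, map_mul, map_one, Complex.conj_I, Complex.conj_ofReal,
      map_ofNat]
    ring)
  rw [← rhb_eq' ht, ← rhb_eq ht] at h
  exact h

theorem jr_inv {t : ℝ} (ht : 0 < t) : jr (1 / t) = jr t := by
  have ht' : (t : ℂ) ≠ 0 := by exact_mod_cast ht.ne'
  have hm : Complex.I / (t : ℂ) ≠ 0 := div_ne_zero Complex.I_ne_zero ht'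
  have h : rct (1 / t) = (Complex.I / (t : ℂ)) • rct t := by
    unfold rct
    rw [smul_span_pair]
    have e1 : Complex.I / (t : ℂ) * ((t : ℂ) * Complex.I) = -1 := by
      field_simp
      exact Complex.I_sq
    rw [e1, mul_one]
    apply le_antisymm
    · refine span_pair_le 0 1 (-1) 0 ?_ ?_
      · push_cast; ring
      · push_cast; ring
    · refine span_pair_le 0 (-1) 1 0 ?_ ?_
      · push_cast; ring
      · push_cast; ring
  unfold jr
  rw [h, jL_smul (isLat_rct ht) hm]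

theorem jh_inv {t : ℝ} (ht : 0 < t) : jh (1 / t) = jh t := by
  have ht' : (t : ℂ) ≠ 0 := by exact_mod_cast ht.ne'
  have hm : Complex.I / (t : ℂ) ≠ 0 := div_ne_zero Complex.I_ne_zero ht'
  have h : rhb (1 / t) = (Complex.I / (t : ℂ)) • rhb t := by
    unfold rhb
    rw [smul_span_pair]
    have e1 : Complex.I / (t : ℂ) * ((1 + (t : ℂ) * Complex.I) / 2) =
        (Complex.I / (t : ℂ) - 1) / 2 := by
      have e2 : Complex.I / (t : ℂ) * ((t : ℂ) * Complex.I) = -1 := by
        field_simp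
        exact Complex.I_sq
      rw [mul_div_assoc', mul_add, mul_one, e2]
      ring
    rw [e1, mul_one]
    apply le_antisymm
    · refine span_pair_le (-1) 1 (-2) 1 ?_ ?_
      · push_cast; ring
      · push_cast; ring
    · refine span_pair_le 1 (-1) 2 (-1) ?_ ?_
      · push_cast; ring
      · push_cast; ring
  unfold jh
  rw [h, jL_smul (isLat_rhb ht) hm]

theorem jr_one : jr 1 = jh 1 := by
  have hm : (1 + Complex.I) / 2 ≠ 0 := by
    intro h
    have := congrArg Complex.re h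
    simp at this
  have h : rhb 1 = ((1 + Complex.I) / 2) • rct 1 := by
    unfold rhb rct
    rw [smul_span_pair]
    have e1 : (1 + Complex.I) / 2 * (((1 : ℝ) : ℂ) * Complex.I) = (Complex.I - 1) / 2 := by
      have e2 : Complex.I * Complex.I = -1 := Complex.I_mul_I
      push_cast
      linear_combination (1 / 2) * e2
    rw [e1, mul_one]
    apply le_antisymm
    · refine span_pair_le 0 1 (-1) 1 ?_ ?_
      · push_cast; ring
      · push_cast; ring
    · refine span_pair_le 1 (-1) 1 0 ?_ ?_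
      · push_cast; ring
      · push_cast; ring
  unfold jr jh
  rw [h, jL_smul (isLat_rct one_pos) hm]

end Pool.Agent.SS.RE
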