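import Pool.Agent.Work.MP_a5099b_nt.R.Ra

/-!
# Module Rp (S): every real number is the invariant of a real lattice

PROOF.  `exists_param`: if `x ≥ jr 1`, the intermediate value theorem for `jr` on `[1, ∞)` (`cont_jr`, `tendsto_jr`: take `T ≥ 1` with
`jr T ≥ x`, `intermediate_value_Icc`); if `x < jr 1 = jh 1` the same for `jh` (`cont_jh`, `tendsto_jh`).
`bdd_param`: `jr t > b` and `jh t < a` for `t ≥ T` (limits), so `t < T` for the parameters of `x ∈ [a, b]`.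
-/

set_option autoImplicit false

namespace Pool.Agent.SS.RE

open Filter Topology

theorem exists_param (x : ℝ) : ∃ t : ℝ, 1 ≤ t ∧ (x = jr t ∨ x = jh t) := by
  have hsub : ∀ T : ℝ, Set.Icc 1 T ⊆ Set.Ioi (0 : ℝ) := fun T y hy =>
    lt_of_lt_of_le one_pos hy.1
  rcases le_or_gt (jr 1) x with hx | hx
  · obtain ⟨T, hT1, hT⟩ := ((tendsto_jr.eventually_ge_atTop x).and
      (eventually_ge_atTop (1 : ℝ))).exists
    obtain ⟨t, ht, hxt⟩ := intermediate_value_Icc hT (cont_jr.mono (hsub T)) ⟨hx, hT1⟩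
    exact ⟨t, ht.1, Or.inl hxt.symm⟩
  · rw [jr_one] at hx
    obtain ⟨T, hT1, hT⟩ := ((tendsto_jh.eventually_le_atBot x).and
      (eventually_ge_atTop (1 : ℝ))).exists
    obtain ⟨t, ht, hxt⟩ := intermediate_value_Icc' hT (cont_jh.mono (hsub T)) ⟨hT1, hx.le⟩
    exact ⟨t, ht.1, Or.inr hxt.symm⟩

theorem bdd_param (a b : ℝ) : ∃ T : ℝ, 1 ≤ T ∧ ∀ t : ℝ, 1 ≤ t → (jr t ≤ b ∨ a ≤ jh t) → t ≤ T := by
  have h1 := tendsto_jr.eventually_gt_atTop b
  have h2 := tendsto_jh.eventually_lt_atBot a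
  obtain ⟨T, hT⟩ := Filter.eventually_atTop.1 (h1.and h2)
  refine ⟨max 1 T, le_max_left _ _, ?_⟩
  intro t _ h
  by_contra hc
  have h3 : T ≤ t := (le_max_right 1 T).trans (not_le.1 hc).le
  obtain ⟨h4, h5⟩ := hT t h3
  rcases h with h | h
  · exact absurd h (not_le.2 h4)
  · exact absurd h (not_le.2 h5)

end Pool.Agent.SS.RE
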