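import Pool.Agent.Work.MP_a5099b_nt.R.Rj
import Pool.Agent.Work.MP_a5099b_nt.B.SupF

/-!
# Module Ts (M): products over the superlattices of a real lattice

PROOF.  `prod_supF_tauLat` (B/SupF): `∏_(L' ∈ supF n (tauLat τ)) F L' = F (supi n τ) * ∏_(b < n) F (supb n τ b)`,
`supi n τ = ℤ τ + ℤ (1/n)`, `supb n τ b = ℤ (τ + b)/n + ℤ` (A/Defs).  `jL_smul` (A/Lat) for homothetic lattices.
* `prod_rct`, `τ = i t`: `n • supi n τ = ℤ i n t + ℤ = rct (n t)`; `supb n τ 0 = rct (t/n)`; for `0 < b < n`: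
  `-conj ((i t + b)/n) = (i t - b)/n = (i t + (n - b))/n - 1`, so `jL (supb n τ (n - b)) = conj (jL (supb n τ b))` (`jL_cj`, `Rj`).
  The factors `b` and `n - b` (`n` odd: `b ≠ n - b`) give `f (conj z) * f z = conj (f z) * f z = |f z|^2 ≥ 0`: the product over
  `0 < b < n` is a nonnegative real (for instance: it equals the product over `b < n/2` of `|f z_b|^2`; or
  `Finset.prod_involution`-free: split `range n` as `{0} ∪ (0, n/2] ∪ (n/2, n)`).
* `prod_rhb`, `τ = (1 + i t)/2`: `n • supi n τ = ℤ n (1 + i t)/2 + ℤ = rhb (n t)` (`n` odd: `n (1 + i t)/2 = (n - 1)/2 + (1 + i n t)/2`);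
  `b = (n - 1)/2`: `(τ + b)/n = (1 + i t/n)/2`, so `supb n τ b = rhb (t/n)`; the other `b` are paired by `b ↦ n - 1 - b`:
  `-conj ((τ + b)/n) = (-1/2 + i t/2 - b)/n = (τ + (n - 1 - b))/n - 1`.
* `prod_rct_two`, `τ = i t`: `2 • supi 2 τ = rct (2 t)`, `supb 2 τ 0 = rct (t/2)`, `supb 2 τ 1 = ℤ (1 + i t)/2 + ℤ = rhb t`.
* `prod_rhb_two`, `τ = (1 + i t)/2`: `supi 2 τ = ℤ (1 + i t)/2 + ℤ (1/2) = ℤ (i t)/2 + ℤ (1/2) = (1/2) • rct t`;
  `supb 2 τ 0`, `supb 2 τ 1` are conjugate: `-conj ((τ + 0)/2) = (-1 + i t)/4 = (τ + 1)/2 - 1`.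
-/

set_option autoImplicit false

namespace Pool.Agent.SS.RE

open UpperHalfPlane
open Pool.Agent.Work.CM (IsLat tauLat)
open scoped Pointwise

private theorem ts_le {a b c d : ℂ} (m n m' n' : ℤ) (h1 : (m : ℂ) * c + n * d = a)
    (h2 : (m' : ℂ) * c + n' * d = b) :
    (Submodule.span ℤ {a, b} : Submodule ℤ ℂ) ≤ Submodule.span ℤ {c, d} := by
  rw [Submodule.span_le]
  rintro z (rfl | rfl)
  · exact Submodule.mem_span_pair.2 ⟨m, n, by rw [zsmul_eq_mul, zsmul_eq_mul, h1]⟩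
  · exact Submodule.mem_span_pair.2 ⟨m', n', by rw [zsmul_eq_mul, zsmul_eq_mul, h2]⟩

private theorem ts_smul (m a b : ℂ) :
    m • (Submodule.span ℤ {a, b} : Submodule ℤ ℂ) = Submodule.span ℤ {m * a, m * b} := by
  rw [← Submodule.span_smul]
  congr 1
  ext x
  simp only [Set.mem_smul_set, Set.mem_insert_iff, Set.mem_singleton_iff, smul_eq_mul]
  constructor
  · rintro ⟨y, rfl | rfl, rfl⟩
    · exact Or.inl rfl
    · exact Or.inr rfl
  · rintro (rfl | rfl)
    · exact ⟨_, Or.inl rfl, rfl⟩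
    · exact ⟨_, Or.inr rfl, rfl⟩

private theorem ts_shift {z z' : ℂ} (m : ℤ) (h : z' = z + m) :
    (Submodule.span ℤ {z', 1} : Submodule ℤ ℂ) = Submodule.span ℤ {z, 1} := by
  apply le_antisymm
  · refine ts_le 1 m 0 1 ?_ ?_
    · rw [h]; push_cast; ring
    · push_cast; ring
  · refine ts_le 1 (-m) 0 1 ?_ ?_
    · rw [h]; push_cast; ring
    · push_cast; ring

private theorem ts_cj {z z' : ℂ} (hz : 0 < z.im) (m : ℤ)
    (h : z' = -(starRingEnd ℂ) z + m) :
    jL (Submodule.span ℤ {z', 1}) = (starRingEnd ℂ) (jL (Submodule.span ℤ {z, 1})) := by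
  rw [ts_shift m h]
  have hz' : 0 < (-(starRingEnd ℂ) z).im := by simpa using hz
  exact jL_cj ⟨z, hz⟩ ⟨-(starRingEnd ℂ) z, hz'⟩ rfl

private theorem ts_even (k : ℕ) (h : ℕ → ℂ)
    (hh : ∀ b < k, h (2 * k - 1 - b) = (starRingEnd ℂ) (h b)) :
    ∃ P : ℝ, 0 ≤ P ∧ ∏ b ∈ Finset.range (2 * k), h b = (P : ℂ) := by
  refine ⟨Complex.normSq (∏ b ∈ Finset.range k, h b), Complex.normSq_nonneg _, ?_⟩
  rw [two_mul, Finset.prod_range_add, Complex.normSq_eq_conj_mul_self, map_prod,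
    ← Finset.prod_range_reflect (fun b => h (k + b)) k, mul_comm]
  congr 1
  refine Finset.prod_congr rfl fun b hb => ?_
  have hb' := Finset.mem_range.1 hb
  rw [← hh b hb']
  congr 1
  omega

private theorem ts_odd (k : ℕ) (h : ℕ → ℂ)
    (hh : ∀ b < k, h (2 * k - b) = (starRingEnd ℂ) (h b)) :
    ∃ P : ℝ, 0 ≤ P ∧ ∏ b ∈ Finset.range (2 * k + 1), h b = (P : ℂ) * h k := by
  refine ⟨Complex.normSq (∏ b ∈ Finset.range k, h b), Complex.normSq_nonneg _, ?_⟩
  have e : 2 * k + 1 = (k + 1) + k := by omega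
  rw [e, Finset.prod_range_add, Finset.prod_range_succ, Complex.normSq_eq_conj_mul_self, map_prod,
    ← Finset.prod_range_reflect (fun b => h (k + 1 + b)) k]
  have e1 : ∏ j ∈ Finset.range k, h (k + 1 + (k - 1 - j)) =
      ∏ j ∈ Finset.range k, (starRingEnd ℂ) (h j) := by
    refine Finset.prod_congr rfl fun b hb => ?_
    have hb' := Finset.mem_range.1 hb
    rw [← hh b hb']
    congr 1
    omega
  rw [e1]
  ring

private theorem ts_supi_rct {n : ℕ} (hn : 0 < n) {t : ℝ} (ht : 0 < t) (τ : ℍ)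
    (hτ : (τ : ℂ) = (t : ℂ) * Complex.I) : jL (supi n τ) = (jr (n * t) : ℂ) := by
  have hn' : (n : ℂ) ≠ 0 := by exact_mod_cast hn.ne'
  have h : supi n τ = (1 / (n : ℂ)) • rct (n * t) := by
    unfold supi rct
    rw [ts_smul, hτ]
    congr 2
    · push_cast
      field_simp
    · rw [mul_one]
  have h0 : 0 < (n : ℝ) * t := by positivity
  rw [h, jL_smul (isLat_rct h0) (one_div_ne_zero hn'), jL_rct h0]

private theorem ts_odd_form {n : ℕ} (hn : n.Prime) (h2 : n ≠ 2) : ∃ k, n = 2 * k + 1 := by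
  rcases hn.eq_two_or_odd' with h | h
  · exact absurd h h2
  · exact h

theorem prod_rct {n : ℕ} (hn : n.Prime) (h2 : n ≠ 2) {t : ℝ} (ht : 0 < t) (f : ℂ → ℂ)
    (hf : ∀ z, f ((starRingEnd ℂ) z) = (starRingEnd ℂ) (f z)) :
    ∃ P : ℝ, 0 ≤ P ∧ ∏ L' ∈ supF n (rct t), f (jL L') =
      (P : ℂ) * (f (jr (n * t) : ℂ) * f (jr (t / n) : ℂ)) := by
  obtain ⟨k, hk⟩ := ts_odd_form hn h2
  have hn0 : 0 < n := hn.pos
  have hn' : (n : ℂ) ≠ 0 := by exact_mod_cast hn0.ne'
  have him : 0 < ((t : ℂ) * Complex.I).im := by simpa using ht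
  set τ : ℍ := ⟨(t : ℂ) * Complex.I, him⟩ with hτ
  have hτ' : (τ : ℂ) = (t : ℂ) * Complex.I := rfl
  have e0 : rct t = tauLat τ := rfl
  have e1 := ts_supi_rct hn0 ht τ hτ'
  have e2 : jL (supb n τ 0) = (jr (t / n) : ℂ) := by
    have h3 : supb n τ 0 = rct (t / n) := by
      unfold supb rct
      rw [hτ']
      congr 2
      push_cast
      field_simp
      ring
    rw [h3, jL_rct (by positivity)]
  have e3 : ∀ b : ℕ, b < 2 * k → jL (supb n τ ((2 * k - 1 - b + 1 : ℕ) : ℤ)) =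
      (starRingEnd ℂ) (jL (supb n τ ((b + 1 : ℕ) : ℤ))) := by
    intro b hb
    unfold supb
    rw [hτ']
    refine ts_cj ?_ 1 ?_
    · have h4 : (((t : ℂ) * Complex.I + (((b + 1 : ℕ) : ℤ) : ℂ)) / (n : ℂ)).im = t / n := by
        have h5 : ((t : ℂ) * Complex.I + (((b + 1 : ℕ) : ℤ) : ℂ)) / (n : ℂ) =
            (((b + 1 : ℝ) / n : ℝ) : ℂ) + ((t / n : ℝ) : ℂ) * Complex.I := by
          push_cast
          field_simp
          ring
        rw [h5, Complex.add_im, Complex.ofReal_im, Complex.im_ofReal_mul, Complex.I_im]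
        ring
      rw [h4]
      positivity
    · have h6 : ((2 * k - 1 - b + 1 : ℕ) : ℂ) = (n : ℂ) - ((b : ℂ) + 1) := by
        have h7 : (2 * k - 1 - b + 1) + (b + 1) = n := by omega
        have h8 : ((2 * k - 1 - b + 1 : ℕ) : ℂ) + ((b : ℂ) + 1) = (n : ℂ) := by
          exact_mod_cast h7
        linear_combination h8
      rw [Int.cast_natCast, h6]
      simp only [map_div₀, map_add, map_mul, Complex.conj_I, Complex.conj_ofReal, map_natCast,
        map_intCast, Int.cast_one]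
      push_cast
      field_simp
      ring
  obtain ⟨P, hP, hP'⟩ := ts_even k (fun b => f (jL (supb n τ ((b + 1 : ℕ) : ℤ)))) (by
    intro b hb
    have h9 := e3 b (by omega)
    beta_reduce
    rw [h9, hf])
  refine ⟨P, hP, ?_⟩
  rw [e0, prod_supF_tauLat hn, e1]
  have h10 : ∏ b ∈ Finset.range n, f (jL (supb n τ (b : ℤ))) =
      (∏ b ∈ Finset.range (2 * k), f (jL (supb n τ ((b + 1 : ℕ) : ℤ)))) *
        f (jL (supb n τ ((0 : ℕ) : ℤ))) := by
    have hr : Finset.range n = Finset.range (2 * k + 1) := by rw [hk]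
    rw [hr, Finset.prod_range_succ']
  rw [h10, hP', Nat.cast_zero, e2]
  ring

theorem prod_rhb {n : ℕ} (hn : n.Prime) (h2 : n ≠ 2) {t : ℝ} (ht : 0 < t) (f : ℂ → ℂ)
    (hf : ∀ z, f ((starRingEnd ℂ) z) = (starRingEnd ℂ) (f z)) :
    ∃ P : ℝ, 0 ≤ P ∧ ∏ L' ∈ supF n (rhb t), f (jL L') =
      (P : ℂ) * (f (jh (n * t) : ℂ) * f (jh (t / n) : ℂ)) := by
  obtain ⟨k, hk⟩ := ts_odd_form hn h2
  have hn0 : 0 < n := hn.pos
  have hn' : (n : ℂ) ≠ 0 := by exact_mod_cast hn0.ne'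
  have hkc : (n : ℂ) = 2 * (k : ℂ) + 1 := by exact_mod_cast hk
  have him : 0 < ((1 + (t : ℂ) * Complex.I) / 2).im := by simpa using ht
  set τ : ℍ := ⟨(1 + (t : ℂ) * Complex.I) / 2, him⟩ with hτ
  have hτ' : (τ : ℂ) = (1 + (t : ℂ) * Complex.I) / 2 := rfl
  have e0 : rhb t = tauLat τ := rfl
  have e1 : jL (supi n τ) = (jh (n * t) : ℂ) := by
    have h : supi n τ = (1 / (n : ℂ)) • rhb (n * t) := by
      unfold supi rhb
      have h3 : (n : ℂ) * ((1 + (t : ℂ) * Complex.I) / 2) =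
          (1 + (((n : ℝ) * t : ℝ) : ℂ) * Complex.I) / 2 + ((k : ℤ) : ℂ) := by
        push_cast
        linear_combination (1 / 2) * hkc
      rw [← ts_shift (k : ℤ) h3, ts_smul, hτ']
      congr 2
      · field_simp
      · rw [mul_one]
    have h0 : 0 < (n : ℝ) * t := by positivity
    rw [h, jL_smul (isLat_rhb h0) (one_div_ne_zero hn'), jL_rhb h0]
  have e2 : jL (supb n τ (k : ℤ)) = (jh (t / n) : ℂ) := by
    have h3 : supb n τ (k : ℤ) = rhb (t / n) := by
      unfold supb rhb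
      rw [hτ']
      congr 2
      push_cast
      field_simp
      linear_combination (-1) * hkc
    rw [h3, jL_rhb (by positivity)]
  have e3 : ∀ b : ℕ, b < k → jL (supb n τ ((2 * k - b : ℕ) : ℤ)) =
      (starRingEnd ℂ) (jL (supb n τ ((b : ℕ) : ℤ))) := by
    intro b hb
    unfold supb
    rw [hτ']
    refine ts_cj ?_ 1 ?_
    · have h4 : (((1 + (t : ℂ) * Complex.I) / 2 + ((b : ℤ) : ℂ)) / (n : ℂ)).im = t / (2 * n) := by
        have h5 : ((1 + (t : ℂ) * Complex.I) / 2 + ((b : ℤ) : ℂ)) / (n : ℂ) =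
            (((1 + 2 * (b : ℝ)) / (2 * n) : ℝ) : ℂ) + ((t / (2 * n) : ℝ) : ℂ) * Complex.I := by
          push_cast
          field_simp
          ring
        rw [h5, Complex.add_im, Complex.ofReal_im, Complex.im_ofReal_mul, Complex.I_im]
        ring
      rw [h4]
      positivity
    · have h6 : ((2 * k - b : ℕ) : ℂ) = 2 * (k : ℂ) - (b : ℂ) := by
        have h7 : (2 * k - b) + b = 2 * k := by omega
        have h8 : ((2 * k - b : ℕ) : ℂ) + (b : ℂ) = 2 * (k : ℂ) := by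
          exact_mod_cast h7
        linear_combination h8
      rw [Int.cast_natCast, h6]
      simp only [map_div₀, map_add, map_mul, Complex.conj_I, Complex.conj_ofReal, map_natCast,
        Int.cast_natCast, Int.cast_one, map_one, map_ofNat]
      field_simp
      linear_combination (-2) * hkc
  obtain ⟨P, hP, hP'⟩ := ts_odd k (fun b => f (jL (supb n τ ((b : ℕ) : ℤ)))) (by
    intro b hb
    have h9 := e3 b hb
    rw [h9, hf])
  refine ⟨P, hP, ?_⟩
  rw [e0, prod_supF_tauLat hn, e1]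
  have h10 : ∏ b ∈ Finset.range n, f (jL (supb n τ (b : ℤ))) =
      ∏ b ∈ Finset.range (2 * k + 1), f (jL (supb n τ (b : ℤ))) := by
    have hr : Finset.range n = Finset.range (2 * k + 1) := by rw [hk]
    rw [hr]
  rw [h10, hP', e2]
  ring

theorem prod_rct_two {t : ℝ} (ht : 0 < t) (f : ℂ → ℂ) :
    ∏ L' ∈ supF 2 (rct t), f (jL L') =
      f (jr (2 * t) : ℂ) * f (jr (t / 2) : ℂ) * f (jh t : ℂ) := by
  have him : 0 < ((t : ℂ) * Complex.I).im := by simpa using ht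
  set τ : ℍ := ⟨(t : ℂ) * Complex.I, him⟩ with hτ
  have hτ' : (τ : ℂ) = (t : ℂ) * Complex.I := rfl
  have e0 : rct t = tauLat τ := rfl
  have e1 : jL (supi 2 τ) = (jr (2 * t) : ℂ) := by
    have := ts_supi_rct (n := 2) (by norm_num) ht τ hτ'
    simpa using this
  have e2 : jL (supb 2 τ ((0 : ℕ) : ℤ)) = (jr (t / 2) : ℂ) := by
    have h3 : supb 2 τ ((0 : ℕ) : ℤ) = rct (t / 2) := by
      unfold supb rct
      rw [hτ']
      congr 2
      push_cast
      ring
    rw [h3, jL_rct (by positivity)]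
  have e3 : jL (supb 2 τ ((1 : ℕ) : ℤ)) = (jh t : ℂ) := by
    have h3 : supb 2 τ ((1 : ℕ) : ℤ) = rhb t := by
      unfold supb rhb
      rw [hτ']
      congr 2
      push_cast
      ring
    rw [h3, jL_rhb ht]
  rw [e0, prod_supF_tauLat Nat.prime_two, e1, Finset.prod_range_succ, Finset.prod_range_succ,
    Finset.prod_range_zero, e2, e3]
  ring

theorem prod_rhb_two {t : ℝ} (ht : 0 < t) (f : ℂ → ℂ)
    (hf : ∀ z, f ((starRingEnd ℂ) z) = (starRingEnd ℂ) (f z)) :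
    ∃ P : ℝ, 0 ≤ P ∧ ∏ L' ∈ supF 2 (rhb t), f (jL L') = (P : ℂ) * f (jr t : ℂ) := by
  have him : 0 < ((1 + (t : ℂ) * Complex.I) / 2).im := by simpa using ht
  set τ : ℍ := ⟨(1 + (t : ℂ) * Complex.I) / 2, him⟩ with hτ
  have hτ' : (τ : ℂ) = (1 + (t : ℂ) * Complex.I) / 2 := rfl
  have e0 : rhb t = tauLat τ := rfl
  have e1 : jL (supi 2 τ) = (jr t : ℂ) := by
    have h : supi 2 τ = (1 / 2 : ℂ) • rct t := by
      unfold supi rct
      have h3 : 1 + (t : ℂ) * Complex.I = (t : ℂ) * Complex.I + ((1 : ℤ) : ℂ) := by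
        push_cast
        ring
      rw [← ts_shift 1 h3, ts_smul, hτ']
      congr 2
      · ring
      · norm_num
    rw [h, jL_smul (isLat_rct ht) (by norm_num), jL_rct ht]
  have e3 : jL (supb 2 τ ((1 : ℕ) : ℤ)) = (starRingEnd ℂ) (jL (supb 2 τ ((0 : ℕ) : ℤ))) := by
    unfold supb
    rw [hτ']
    refine ts_cj ?_ 1 ?_
    · have h4 : (((1 + (t : ℂ) * Complex.I) / 2 + (((0 : ℕ) : ℤ) : ℂ)) / ((2 : ℕ) : ℂ)).im =
          t / 4 := by
        have h5 : ((1 + (t : ℂ) * Complex.I) / 2 + (((0 : ℕ) : ℤ) : ℂ)) / ((2 : ℕ) : ℂ) =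
            (((1 / 4 : ℝ)) : ℂ) + ((t / 4 : ℝ) : ℂ) * Complex.I := by
          push_cast
          ring
        rw [h5, Complex.add_im, Complex.ofReal_im, Complex.im_ofReal_mul, Complex.I_im]
        ring
      rw [h4]
      positivity
    · simp only [map_div₀, map_add, map_mul, Complex.conj_I, Complex.conj_ofReal, map_natCast,
        Int.cast_natCast, Int.cast_one, map_one, map_ofNat, Nat.cast_zero, Nat.cast_one,
        map_zero, Nat.cast_ofNat, Int.cast_zero]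
      ring
  refine ⟨Complex.normSq (f (jL (supb 2 τ ((0 : ℕ) : ℤ)))), Complex.normSq_nonneg _, ?_⟩
  rw [e0, prod_supF_tauLat Nat.prime_two, e1, Finset.prod_range_succ, Finset.prod_range_succ,
    Finset.prod_range_zero, e3, hf, Complex.normSq_eq_conj_mul_self]
  ring

end Pool.Agent.SS.RE
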